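import Pool.Agent.Lib.MP_64a6bd_pr.Defs

/-!
# The traffic model: order, jams, zero-one laws, mass transport
-/

open MeasureTheory Filter ProbabilityTheory
open scoped ENNReal Topology

namespace Pool.Agent.Lib.MP_64a6bd_pr

section Dynamics

/-! ### One phase -/

lemma stepE_two {d : Conf} {x : ℤ × ℤ} : stepE d x = 2 ↔ d x = 2 := by
  unfold stepE
  split_ifs with h1 h2
  · constructor
    · intro h; exact absurd h (by decide)
    · intro h; rw [h1.1] at h; exact absurd h (by decide)
  · constructor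
    · intro h; exact absurd h (by decide)
    · intro h; rw [h2.1] at h; exact absurd h (by decide)
  · rfl

lemma stepN_one {d : Conf} {x : ℤ × ℤ} : stepN d x = 1 ↔ d x = 1 := by
  unfold stepN
  split_ifs with h1 h2
  · constructor
    · intro h; exact absurd h (by decide)
    · intro h; rw [h1.1] at h; exact absurd h (by decide)
  · constructor
    · intro h; exact absurd h (by decide)
    · intro h; rw [h2.1] at h; exact absurd h (by decide)
  · rfl

lemma stepE_stay {d : Conf} {x : ℤ × ℤ} (h : d x = 1) (h' : d (x.1 + 1, x.2) ≠ 0) : stepE d x = 1 := by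
  unfold stepE
  rw [if_neg (by tauto), if_neg (by rw [h]; exact fun h => absurd h.1 (by decide)), h]

lemma stepE_leave {d : Conf} {x : ℤ × ℤ} (h : d x = 1) (h' : d (x.1 + 1, x.2) = 0) : stepE d x = 0 := by
  unfold stepE
  rw [if_pos ⟨h, h'⟩]

lemma stepE_enter {d : Conf} {x : ℤ × ℤ} (h : d x = 1) (h' : d (x.1 + 1, x.2) = 0) :
    stepE d (x.1 + 1, x.2) = 1 := by
  unfold stepE
  have h1 : d ((x.1 + 1, x.2) : ℤ × ℤ) ≠ 1 := by rw [h']; decide
  have h2 : (((x.1 + 1, x.2) : ℤ × ℤ).1 - 1, ((x.1 + 1, x.2) : ℤ × ℤ).2) = x := by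
    ext <;> simp
  rw [if_neg (fun h => h1 h.1), if_pos ⟨h', by rw [h2]; exact h⟩]

lemma stepN_stay {d : Conf} {x : ℤ × ℤ} (h : d x = 2) (h' : d (x.1, x.2 + 1) ≠ 0) : stepN d x = 2 := by
  unfold stepN
  rw [if_neg (by tauto), if_neg (by rw [h]; exact fun h => absurd h.1 (by decide)), h]

lemma stepN_leave {d : Conf} {x : ℤ × ℤ} (h : d x = 2) (h' : d (x.1, x.2 + 1) = 0) : stepN d x = 0 := by
  unfold stepN
  rw [if_pos ⟨h, h'⟩]

lemma stepN_enter {d : Conf} {x : ℤ × ℤ} (h : d x = 2) (h' : d (x.1, x.2 + 1) = 0) :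
    stepN d (x.1, x.2 + 1) = 2 := by
  unfold stepN
  have h1 : d ((x.1, x.2 + 1) : ℤ × ℤ) ≠ 2 := by rw [h']; decide
  have h2 : (((x.1, x.2 + 1) : ℤ × ℤ).1, ((x.1, x.2 + 1) : ℤ × ℤ).2 - 1) = x := by
    ext <;> simp
  rw [if_neg (fun h => h1 h.1), if_pos ⟨h', by rw [h2]; exact h⟩]

/-! ### Following a car -/

lemma carE {d : Conf} {x : ℤ × ℤ} (hx : d x = 1) (t : ℕ) : state d t (x.1 + movesE d x t, x.2) = 1 ∧
    stepE (state d t) (x.1 + movesE d x (t + 1), x.2) = 1 := by
  have key : ∀ t, state d t (x.1 + movesE d x t, x.2) = 1 →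
      stepE (state d t) (x.1 + movesE d x (t + 1), x.2) = 1 := by
    intro t h
    rw [movesE]
    split_ifs with h'
    · have := stepE_enter h h'
      push_cast
      rwa [← add_assoc]
    · rw [add_zero]; exact stepE_stay h h'
  have main : ∀ t, state d t (x.1 + movesE d x t, x.2) = 1 := by
    intro t
    induction t with
    | zero => simpa [movesE, state] using hx
    | succ t ih => exact stepN_one.mpr (key t ih)
  exact ⟨main t, key t (main t)⟩

lemma carN {d : Conf} {x : ℤ × ℤ} (hx : d x = 2) (t : ℕ) : state d t (x.1, x.2 + movesN d x t) = 2 ∧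
    stepE (state d t) (x.1, x.2 + movesN d x t) = 2 := by
  have main : ∀ t, state d t (x.1, x.2 + movesN d x t) = 2 := by
    intro t
    induction t with
    | zero => simpa [movesN, state] using hx
    | succ t ih =>
      have ih' := stepE_two.mpr ih
      show stepN (stepE (state d t)) _ = 2
      rw [movesN]
      split_ifs with h'
      · have := stepN_enter ih' h'
        push_cast
        rwa [← add_assoc]
      · rw [add_zero]; exact stepN_stay ih' h'
  exact ⟨main t, stepE_two.mpr (main t)⟩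

/-- east-facing cars of one row keep their order -/
lemma orderE {d : Conf} {x : ℤ × ℤ} {k : ℕ} (hk : 0 < k) (hy : d (x.1 + k, x.2) = 1) (t : ℕ) :
    movesE d x t < movesE d (x.1 + k, x.2) t + k := by
  induction t with
  | zero => simpa [movesE] using hk
  | succ t ih =>
    have h1 : movesE d (x.1 + k, x.2) t ≤ movesE d (x.1 + k, x.2) (t + 1) := by
      rw [movesE]; exact Nat.le_add_right _ _
    have h2 : movesE d x (t + 1) ≤ movesE d x t + 1 := by
      rw [movesE]; split_ifs <;> omega
    by_cases h : movesE d x t + 1 < movesE d (x.1 + k, x.2) t + k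
    · omega
    · have h3 : movesE d x t + 1 = movesE d (x.1 + k, x.2) t + k := by omega
      have h4 := (carE hy t).1
      have h5 : movesE d x (t + 1) = movesE d x t := by
        rw [movesE, if_neg, add_zero]
        intro h0
        have h6 : ((x.1 + movesE d x t + 1, x.2) : ℤ × ℤ) =
            (((x.1 + k, x.2) : ℤ × ℤ).1 + movesE d (x.1 + k, x.2) t, ((x.1 + k, x.2) : ℤ × ℤ).2) := by
          ext
          · simp only; omega
          · rfl
        rw [h6] at h0
        rw [h0] at h4
        exact absurd h4 (by decide)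
      omega

/-- north-facing cars of one column keep their order -/
lemma orderN {d : Conf} {x : ℤ × ℤ} {k : ℕ} (hk : 0 < k) (hy : d (x.1, x.2 + k) = 2) (t : ℕ) :
    movesN d x t < movesN d (x.1, x.2 + k) t + k := by
  induction t with
  | zero => simpa [movesN] using hk
  | succ t ih =>
    have h1 : movesN d (x.1, x.2 + k) t ≤ movesN d (x.1, x.2 + k) (t + 1) := by
      rw [movesN]; exact Nat.le_add_right _ _
    have h2 : movesN d x (t + 1) ≤ movesN d x t + 1 := by
      rw [movesN]; split_ifs <;> omega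
    by_cases h : movesN d x t + 1 < movesN d (x.1, x.2 + k) t + k
    · omega
    · have h3 : movesN d x t + 1 = movesN d (x.1, x.2 + k) t + k := by omega
      have h4 := (carN hy t).2
      have h5 : movesN d x (t + 1) = movesN d x t := by
        rw [movesN, if_neg, add_zero]
        intro h0
        have h6 : ((x.1, x.2 + movesN d x t + 1) : ℤ × ℤ) =
            (((x.1, x.2 + k) : ℤ × ℤ).1, ((x.1, x.2 + k) : ℤ × ℤ).2 + movesN d (x.1, x.2 + k) t) := by
          ext
          · rfl
          · simp only; omega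
        rw [h6] at h0
        rw [h0] at h4
        exact absurd h4 (by decide)
      omega

/-! ### Translations -/

/-- the translate of a configuration -/
def shift (v : ℤ × ℤ) (d : Conf) : Conf := fun x => d (x + v)

lemma stepE_shift (v : ℤ × ℤ) (d : Conf) : stepE (shift v d) = shift v (stepE d) := by
  funext x
  simp only [stepE, shift, Prod.fst_add, Prod.snd_add]
  have h1 : ((x.1 + 1, x.2) : ℤ × ℤ) + v = (x.1 + v.1 + 1, x.2 + v.2) := by
    ext <;> simp; ring
  have h2 : ((x.1 - 1, x.2) : ℤ × ℤ) + v = (x.1 + v.1 - 1, x.2 + v.2) := by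
    ext <;> simp; ring
  rw [h1, h2]

lemma stepN_shift (v : ℤ × ℤ) (d : Conf) : stepN (shift v d) = shift v (stepN d) := by
  funext x
  simp only [stepN, shift, Prod.fst_add, Prod.snd_add]
  have h1 : ((x.1, x.2 + 1) : ℤ × ℤ) + v = (x.1 + v.1, x.2 + v.2 + 1) := by
    ext <;> simp; ring
  have h2 : ((x.1, x.2 - 1) : ℤ × ℤ) + v = (x.1 + v.1, x.2 + v.2 - 1) := by
    ext <;> simp; ring
  rw [h1, h2]

lemma state_shift (v : ℤ × ℤ) (d : Conf) (t : ℕ) : state (shift v d) t = shift v (state d t) := by
  induction t with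
  | zero => rfl
  | succ t ih => rw [state, state, ih, stepE_shift, stepN_shift]

lemma movesE_shift (v : ℤ × ℤ) (d : Conf) (x : ℤ × ℤ) (t : ℕ) : movesE (shift v d) x t = movesE d (x + v) t := by
  induction t with
  | zero => rfl
  | succ t ih =>
    rw [movesE, movesE, ih, state_shift]
    have h1 : shift v (state d t) (x.1 + movesE d (x + v) t + 1, x.2) =
        state d t ((x + v).1 + movesE d (x + v) t + 1, (x + v).2) := by
      unfold shift
      congr 1
      ext <;> simp; ring
    rw [h1]

lemma movesN_shift (v : ℤ × ℤ) (d : Conf) (x : ℤ × ℤ) (t : ℕ) : movesN (shift v d) x t = movesN d (x + v) t := by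
  induction t with
  | zero => rfl
  | succ t ih =>
    rw [movesN, movesN, ih, state_shift, stepE_shift]
    have h1 : shift v (stepE (state d t)) (x.1, x.2 + movesN d (x + v) t + 1) =
        stepE (state d t) ((x + v).1, (x + v).2 + movesN d (x + v) t + 1) := by
      unfold shift
      congr 1
      ext <;> simp; ring
    rw [h1]

/-! ### Jammed cars -/

/-- the site `y` is occupied at all times after cycle `T` -/
def Stuck (d : Conf) (y : ℤ × ℤ) (T : ℕ) : Prop :=
  ∀ t, T ≤ t → state d t y ≠ 0 ∧ stepE (state d t) y ≠ 0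

lemma Stuck.mono {d : Conf} {y : ℤ × ℤ} {T T' : ℕ} (h : Stuck d y T) (hT : T ≤ T') : Stuck d y T' :=
  fun t ht => h t (hT.trans ht)

lemma fin3 (a : Fin 3) (h0 : a ≠ 0) (h2 : a ≠ 2) : a = 1 := by
  fin_cases a <;> simp_all

/-- the content of a stuck site does not change -/
lemma Stuck.const {d : Conf} {y : ℤ × ℤ} {T : ℕ} (h : Stuck d y T) (t : ℕ) (ht : T ≤ t) :
    stepE (state d t) y = state d t y ∧ state d (t + 1) y = state d t y := by
  have h1 : stepE (state d t) y = state d t y := by
    by_cases h2 : state d t y = 2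
    · rw [h2]; exact stepE_two.mpr h2
    · have h3 : state d t y = 1 := fin3 _ (h t ht).1 h2
      have h4 : stepE (state d t) y ≠ 2 := fun h => h2 (stepE_two.mp h)
      rw [h3, fin3 _ (h t ht).2 h4]
  refine ⟨h1, ?_⟩
  by_cases h2 : state d t y = 2
  · have h3 : stepE (state d t) y = 2 := h1.trans h2
    have h4 : state d (t + 1) y ≠ 0 := (h (t + 1) (by omega)).1
    have h5 : state d (t + 1) y ≠ 1 := by
      intro h6
      have := stepN_one.mp h6
      rw [h3] at this
      exact absurd this (by decide)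
    rw [h2]
    by_contra h6
    exact h5 (fin3 _ h4 h6)
  · have h3 : state d t y = 1 := fin3 _ (h t ht).1 h2
    rw [h3]
    exact stepN_one.mpr (h1.trans h3)

lemma Stuck.const' {d : Conf} {y : ℤ × ℤ} {T : ℕ} (h : Stuck d y T) (t : ℕ) (ht : T ≤ t) :
    state d t y = state d T y ∧ stepE (state d t) y = state d T y := by
  have key : ∀ n, state d (T + n) y = state d T y := by
    intro n
    induction n with
    | zero => rfl
    | succ n ih => rw [← add_assoc, (h.const (T + n) (by omega)).2, ih]
  obtain ⟨n, rfl⟩ := Nat.exists_eq_add_of_le ht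
  exact ⟨key n, (h.const (T + n) ht).1.trans (key n)⟩

/-- the east neighbour of a stuck east-facing car gets stuck -/
lemma stuck_east {d : Conf} {y : ℤ × ℤ} {T : ℕ} (h : Stuck d y T) (h1 : state d T y = 1) :
    ∃ T', Stuck d (y.1 + 1, y.2) T' := by
  have hw : ∀ t, T ≤ t → state d t (y.1 + 1, y.2) ≠ 0 := by
    intro t ht h0
    have h2 := (h.const' t ht).1.trans h1
    exact (h t ht).2 (stepE_leave h2 h0)
  by_cases hall : ∀ t, T ≤ t → stepE (state d t) (y.1 + 1, y.2) ≠ 0
  · exact ⟨T, fun t ht => ⟨hw t ht, hall t ht⟩⟩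
  · push Not at hall
    obtain ⟨t₀, ht₀, h0⟩ := hall
    refine ⟨t₀ + 1, ?_⟩
    -- from then on the site holds a north-facing car
    have h2 : state d (t₀ + 1) (y.1 + 1, y.2) = 2 := by
      have h3 := hw (t₀ + 1) (by omega)
      by_contra h4
      have h5 := fin3 _ h3 h4
      have h6 := stepN_one.mp h5
      rw [h0] at h6
      exact absurd h6 (by decide)
    have key : ∀ n, state d (t₀ + 1 + n) (y.1 + 1, y.2) = 2 := by
      intro n
      induction n with
      | zero => exact h2
      | succ n ih =>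
        have h3 := hw (t₀ + 1 + (n + 1)) (by omega)
        by_contra h4
        have h5 := fin3 _ h3 h4
        have h6 : stepE (state d (t₀ + 1 + n)) (y.1 + 1, y.2) = 1 := stepN_one.mp h5
        rw [stepE_two.mpr ih] at h6
        exact absurd h6 (by decide)
    intro t ht
    obtain ⟨n, rfl⟩ := Nat.exists_eq_add_of_le ht
    rw [stepE_two.mpr (key n), key n]
    exact ⟨by decide, by decide⟩

/-- the north neighbour of a stuck north-facing car gets stuck -/
lemma stuck_north {d : Conf} {y : ℤ × ℤ} {T : ℕ} (h : Stuck d y T) (h1 : state d T y = 2) :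
    ∃ T', Stuck d (y.1, y.2 + 1) T' := by
  have hw : ∀ t, T ≤ t → stepE (state d t) (y.1, y.2 + 1) ≠ 0 := by
    intro t ht h0
    have h2 := (h.const' t ht).2.trans h1
    exact (h (t + 1) (by omega)).1 (stepN_leave h2 h0)
  by_cases hall : ∀ t, T + 1 ≤ t → state d t (y.1, y.2 + 1) ≠ 0
  · exact ⟨T + 1, fun t ht => ⟨hall t ht, hw t (by omega)⟩⟩
  · push Not at hall
    obtain ⟨t₀, ht₀, h0⟩ := hall
    -- after the east phase of cycle `t₀` the site holds an east-facing car, which never leaves
    have h2 : stepE (state d t₀) (y.1, y.2 + 1) = 1 := by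
      refine fin3 _ (hw t₀ (by omega)) ?_
      intro h3
      rw [stepE_two, h0] at h3
      exact absurd h3 (by decide)
    have key : ∀ n, stepE (state d (t₀ + n)) (y.1, y.2 + 1) = 1 := by
      intro n
      induction n with
      | zero => exact h2
      | succ n ih =>
        refine fin3 _ (hw _ (by omega)) ?_
        intro h3
        have h4 : state d (t₀ + n + 1) (y.1, y.2 + 1) = 1 := stepN_one.mpr ih
        rw [← add_assoc, stepE_two, h4] at h3
        exact absurd h3 (by decide)
    refine ⟨t₀ + 1, ?_⟩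
    intro t ht
    obtain ⟨n, rfl⟩ := Nat.exists_eq_add_of_le ht
    have h3 := key (1 + n)
    have h4 : state d (t₀ + n + 1) (y.1, y.2 + 1) = 1 := stepN_one.mpr (key n)
    rw [← add_assoc] at h3
    rw [h3, show t₀ + 1 + n = t₀ + n + 1 by ring, h4]
    exact ⟨by decide, by decide⟩

/-- a jammed east-facing car makes its site stuck -/
lemma stuck_of_jamE {d : Conf} {x : ℤ × ℤ} (hx : d x = 1) {T m : ℕ} (h : ∀ t, T ≤ t → movesE d x t = m) :
    Stuck d (x.1 + m, x.2) T ∧ state d T (x.1 + m, x.2) = 1 := by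
  constructor
  · intro t ht
    have h1 := (carE hx t).1
    have h2 := (carE hx t).2
    rw [h t ht] at h1
    rw [h (t + 1) (by omega)] at h2
    rw [h1, h2]
    exact ⟨by decide, by decide⟩
  · have h1 := (carE hx T).1
    rwa [h T le_rfl] at h1

lemma stuck_of_jamN {d : Conf} {x : ℤ × ℤ} (hx : d x = 2) {T m : ℕ} (h : ∀ t, T ≤ t → movesN d x t = m) :
    Stuck d (x.1, x.2 + m) T ∧ state d T (x.1, x.2 + m) = 2 := by
  constructor
  · intro t ht
    have h1 := (carN hx t).1
    have h2 := (carN hx t).2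
    rw [h t ht] at h1 h2
    rw [h1, h2]
    exact ⟨by decide, by decide⟩
  · have h1 := (carN hx T).1
    rwa [h T le_rfl] at h1

/-! ### Every car comes from the initial configuration -/

lemma originN {d : Conf} (t : ℕ) : ∀ y : ℤ × ℤ, state d t y = 2 → ∃ x, d x = 2 ∧ x.1 = y.1 ∧
    x.2 + movesN d x t = y.2 := by
  induction t with
  | zero => intro y hy; exact ⟨y, hy, rfl, by simp [movesN]⟩
  | succ t ih =>
    intro y hy
    have hy' : stepN (stepE (state d t)) y = 2 := hy
    -- either the car was at `y` or below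
    by_cases h2 : stepE (state d t) y = 2
    · obtain ⟨x, hx, hx1, hx2⟩ := ih y (stepE_two.mp h2)
      refine ⟨x, hx, hx1, ?_⟩
      rw [movesN, if_neg, add_zero]
      · exact hx2
      · intro h0
        have h3 : ((x.1, x.2 + movesN d x t + 1) : ℤ × ℤ) = (y.1, y.2 + 1) := by rw [hx1, hx2]
        rw [h3] at h0
        rw [stepN_leave h2 h0] at hy'
        exact absurd hy' (by decide)
    · have h3 : stepE (state d t) y = 0 ∧ stepE (state d t) (y.1, y.2 - 1) = 2 := by
        unfold stepN at hy'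
        split_ifs at hy' with h4 h5
        · exact absurd h4.1 h2
        · exact h5
        · exact absurd hy' h2
      obtain ⟨x, hx, hx1, hx2⟩ := ih _ (stepE_two.mp h3.2)
      simp only at hx1 hx2
      refine ⟨x, hx, hx1, ?_⟩
      have h4 : ((x.1, x.2 + movesN d x t + 1) : ℤ × ℤ) = y := by
        ext
        · exact hx1
        · simp only; omega
      rw [movesN, if_pos (by rw [h4]; exact h3.1)]
      push_cast
      omega

lemma originE {d : Conf} (t : ℕ) : ∀ y : ℤ × ℤ, state d t y = 1 → ∃ x, d x = 1 ∧ x.2 = y.2 ∧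
    x.1 + movesE d x t = y.1 := by
  induction t with
  | zero => intro y hy; exact ⟨y, hy, rfl, by simp [movesE]⟩
  | succ t ih =>
    intro y hy
    have hy' : stepE (state d t) y = 1 := stepN_one.mp hy
    by_cases h2 : state d t y = 1
    · obtain ⟨x, hx, hx1, hx2⟩ := ih y h2
      refine ⟨x, hx, hx1, ?_⟩
      rw [movesE, if_neg, add_zero]
      · exact hx2
      · intro h0
        have h3 : ((x.1 + movesE d x t + 1, x.2) : ℤ × ℤ) = (y.1 + 1, y.2) := by rw [hx1, hx2]
        rw [h3] at h0
        rw [stepE_leave h2 h0] at hy'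
        exact absurd hy' (by decide)
    · have h3 : state d t y = 0 ∧ state d t (y.1 - 1, y.2) = 1 := by
        unfold stepE at hy'
        split_ifs at hy' with h4 h5
        · exact absurd h4.1 h2
        · exact h5
        · exact absurd hy' h2
      obtain ⟨x, hx, hx1, hx2⟩ := ih _ h3.2
      simp only at hx1 hx2
      refine ⟨x, hx, hx1, ?_⟩
      have h4 : ((x.1 + movesE d x t + 1, x.2) : ℤ × ℤ) = y := by
        ext
        · simp only; omega
        · exact hx1
      rw [movesE, if_pos (by rw [h4]; exact h3.1)]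
      push_cast
      omega

/-- bounded number of moves -/
lemma movesE_mono (d : Conf) (x : ℤ × ℤ) : Monotone (movesE d x) :=
  monotone_nat_of_le_succ (fun t => by rw [movesE]; exact Nat.le_add_right _ _)

lemma movesN_mono (d : Conf) (x : ℤ × ℤ) : Monotone (movesN d x) :=
  monotone_nat_of_le_succ (fun t => by rw [movesN]; exact Nat.le_add_right _ _)

lemma eventually_const {f : ℕ → ℕ} (hf : Monotone f) {m : ℕ} (h : ∀ t, f t ≤ m) :
    ∃ T c, ∀ t, T ≤ t → f t = c := by
  have hfin : (Set.range f).Finite := (Set.finite_Iic m).subset (by rintro _ ⟨t, rfl⟩; exact h t)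
  obtain ⟨c, ⟨T, hT⟩, hc⟩ := hfin.exists_maximal ⟨f 0, 0, rfl⟩
  refine ⟨T, c, fun t ht => ?_⟩
  have h1 : c ≤ f t := by rw [← hT]; exact hf ht
  exact le_antisymm (hc ⟨t, rfl⟩ h1) h1

/-- a stuck north-facing car is a jammed car -/
lemma jamN_of_stuck {d : Conf} {y : ℤ × ℤ} {T : ℕ} (h : Stuck d y T) (h2 : state d T y = 2) :
    ∃ x, d x = 2 ∧ ∃ m, ∀ t, movesN d x t ≤ m := by
  obtain ⟨x, hx, hx1, hx2⟩ := originN T y h2
  refine ⟨x, hx, movesN d x T, ?_⟩
  have key : ∀ n, movesN d x (T + n) = movesN d x T := by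
    intro n
    induction n with
    | zero => rfl
    | succ n ih =>
      rw [← add_assoc, movesN, if_neg, add_zero, ih]
      intro h0
      have h3 : ((x.1, x.2 + movesN d x (T + n) + 1) : ℤ × ℤ) = (y.1, y.2 + 1) := by
        rw [ih, hx1, hx2]
      rw [h3] at h0
      have h4 : stepE (state d (T + n)) y = 2 := (h.const' (T + n) (by omega)).2.trans h2
      exact (h (T + n + 1) (by omega)).1 (stepN_leave h4 h0)
  intro t
  rcases le_total T t with ht | ht
  · obtain ⟨n, rfl⟩ := Nat.exists_eq_add_of_le ht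
    exact (key n).le
  · exact movesN_mono d x ht

lemma jamE_of_stuck {d : Conf} {y : ℤ × ℤ} {T : ℕ} (h : Stuck d y T) (h2 : state d T y = 1) :
    ∃ x, d x = 1 ∧ ∃ m, ∀ t, movesE d x t ≤ m := by
  obtain ⟨x, hx, hx1, hx2⟩ := originE T y h2
  refine ⟨x, hx, movesE d x T, ?_⟩
  have key : ∀ n, movesE d x (T + n) = movesE d x T := by
    intro n
    induction n with
    | zero => rfl
    | succ n ih =>
      rw [← add_assoc, movesE, if_neg, add_zero, ih]
      intro h0
      have h3 : ((x.1 + movesE d x (T + n) + 1, x.2) : ℤ × ℤ) = (y.1 + 1, y.2) := by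
        rw [ih, hx1, hx2]
      rw [h3] at h0
      have h4 : state d (T + n) y = 1 := (h.const' (T + n) (by omega)).1.trans h2
      exact (h (T + n) (by omega)).2 (stepE_leave h4 h0)
  intro t
  rcases le_total T t with ht | ht
  · obtain ⟨n, rfl⟩ := Nat.exists_eq_add_of_le ht
    exact (key n).le
  · exact movesE_mono d x ht

lemma count_contra (f : ℕ → ℤ) (a b : ℤ) (A : ℤ → Prop) (hf : Function.Injective f) (h1 : ∀ j, A (f j))
    (h2 : ∀ j, a ≤ f j) (h3 : ∀ j : ℕ, f j ≤ b + j) (hinf : ∀ m : ℤ, ∃ n, m ≤ n ∧ ¬ A n) : False := by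
  classical
  have hS : {n : ℤ | a ≤ n ∧ ¬ A n}.Infinite := by
    intro hfin
    obtain ⟨u, hu⟩ := hfin.bddAbove
    obtain ⟨n, hn, hA⟩ := hinf (max a (u + 1))
    have := hu ⟨(le_max_left _ _).trans hn, hA⟩
    have h4 := (le_max_right _ _).trans hn
    omega
  obtain ⟨B, hB, hBc⟩ := hS.exists_subset_card_eq ((b - a + 1).toNat)
  -- `J` with all elements of `B` at most `b + J`
  obtain ⟨J, hJ⟩ : ∃ J : ℕ, ∀ n ∈ B, n ≤ b + J := by
    obtain ⟨u, hu⟩ := B.bddAbove
    refine ⟨(u - b).toNat, fun n hn => ?_⟩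
    have := hu hn
    omega
  have hba : a ≤ b := by
    have := (h2 0).trans (h3 0)
    simpa using this
  set F : Finset ℤ := (Finset.range (J + 1)).image f with hF
  have hFc : F.card = J + 1 := by
    rw [hF, Finset.card_image_of_injective _ hf, Finset.card_range]
  have hdis : Disjoint F B := by
    rw [Finset.disjoint_left]
    intro n hn hn'
    obtain ⟨j, _, rfl⟩ := Finset.mem_image.mp hn
    exact (hB hn').2 (h1 j)
  have hsub : F ∪ B ⊆ Finset.Icc a (b + J) := by
    intro n hn
    rw [Finset.mem_Icc]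
    rcases Finset.mem_union.mp hn with h | h
    · obtain ⟨j, hj, rfl⟩ := Finset.mem_image.mp h
      rw [Finset.mem_range] at hj
      have := h3 j
      exact ⟨h2 j, by omega⟩
    · exact ⟨(hB h).1, hJ n h⟩
  have hc := Finset.card_le_card hsub
  rw [Finset.card_union_of_disjoint hdis, hFc, hBc, Int.card_Icc] at hc
  omega

lemma posE_of_stuck {d : Conf} {y : ℤ × ℤ} {T : ℕ} (h : Stuck d y T) (h2 : state d T y = 1) :
    ∃ x, d x = 1 ∧ x.2 = y.2 ∧ ∀ t, T ≤ t → x.1 + movesE d x t = y.1 := by
  obtain ⟨x, hx, hx1, hx2⟩ := originE T y h2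
  refine ⟨x, hx, hx1, ?_⟩
  have key : ∀ n, movesE d x (T + n) = movesE d x T := by
    intro n
    induction n with
    | zero => rfl
    | succ n ih =>
      rw [← add_assoc, movesE, if_neg, add_zero, ih]
      intro h0
      have h3 : ((x.1 + movesE d x (T + n) + 1, x.2) : ℤ × ℤ) = (y.1 + 1, y.2) := by
        rw [ih, hx1, hx2]
      rw [h3] at h0
      have h4 : state d (T + n) y = 1 := (h.const' (T + n) (by omega)).1.trans h2
      exact (h (T + n) (by omega)).2 (stepE_leave h4 h0)
  intro t ht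
  obtain ⟨n, rfl⟩ := Nat.exists_eq_add_of_le ht
  rw [key n, hx2]

lemma posN_of_stuck {d : Conf} {y : ℤ × ℤ} {T : ℕ} (h : Stuck d y T) (h2 : state d T y = 2) :
    ∃ x, d x = 2 ∧ x.1 = y.1 ∧ ∀ t, T ≤ t → x.2 + movesN d x t = y.2 := by
  obtain ⟨x, hx, hx1, hx2⟩ := originN T y h2
  refine ⟨x, hx, hx1, ?_⟩
  have key : ∀ n, movesN d x (T + n) = movesN d x T := by
    intro n
    induction n with
    | zero => rfl
    | succ n ih =>
      rw [← add_assoc, movesN, if_neg, add_zero, ih]
      intro h0
      have h3 : ((x.1, x.2 + movesN d x (T + n) + 1) : ℤ × ℤ) = (y.1, y.2 + 1) := by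
        rw [ih, hx1, hx2]
      rw [h3] at h0
      have h4 : stepE (state d (T + n)) y = 2 := (h.const' (T + n) (by omega)).2.trans h2
      exact (h (T + n + 1) (by omega)).1 (stepN_leave h4 h0)
  intro t ht
  obtain ⟨n, rfl⟩ := Nat.exists_eq_add_of_le ht
  rw [key n, hx2]

/-- a jammed east-facing car forces a jammed north-facing car -/
lemma jamN_exists {d : Conf} (hinf : ∀ r m : ℤ, ∃ n, m ≤ n ∧ ¬ d (n, r) = 1)
    (hE : ∃ x, d x = 1 ∧ ∃ m, ∀ t, movesE d x t ≤ m) : ∃ x, d x = 2 ∧ ∃ m, ∀ t, movesN d x t ≤ m := by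
  by_contra hcon
  obtain ⟨x₀, hx₀, m₀, hm₀⟩ := hE
  obtain ⟨T₀, c, hc⟩ := eventually_const (movesE_mono d x₀) hm₀
  obtain ⟨hs, h1⟩ := stuck_of_jamE hx₀ hc
  set y : ℤ × ℤ := (x₀.1 + c, x₀.2) with hy
  have hchain : ∀ j : ℕ, ∃ T, Stuck d (y.1 + j, y.2) T ∧ state d T (y.1 + j, y.2) = 1 := by
    intro j
    induction j with
    | zero => exact ⟨T₀, by simpa using hs, by simpa using h1⟩
    | succ j ih =>
      obtain ⟨T, hT, hT1⟩ := ih
      obtain ⟨T', hT'⟩ := stuck_east hT hT1
      have he : ((y.1 + (j + 1 : ℕ), y.2) : ℤ × ℤ) =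
          (((y.1 + j, y.2) : ℤ × ℤ).1 + 1, ((y.1 + j, y.2) : ℤ × ℤ).2) := by
        ext <;> simp; ring
      rw [he]
      refine ⟨T', hT', fin3 _ (hT' T' le_rfl).1 ?_⟩
      intro h2
      exact hcon (jamN_of_stuck hT' h2)
  choose T hT hT1 using hchain
  choose X hX hXrow hXpos using fun j => posE_of_stuck (hT j) (hT1 j)
  simp only at hXrow hXpos
  have hXj : ∀ j, X j = ((X j).1, y.2) := fun j => by
    ext
    · rfl
    · exact hXrow j
  have hlt : ∀ i j, (X i).1 < (X j).1 → i < j := by
    intro i j hij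
    obtain ⟨k, hk⟩ : ∃ k : ℕ, (X j).1 = (X i).1 + k := ⟨((X j).1 - (X i).1).toNat, by omega⟩
    have hk0 : 0 < k := by omega
    have hjj : X j = ((X i).1 + k, (X i).2) := by
      ext
      · exact hk
      · simp only; rw [hXrow i, hXrow j]
    have h5 := orderE (d := d) (x := X i) hk0 (by rw [← hjj]; exact hX j) (max (T i) (T j))
    rw [← hjj] at h5
    have h6 := hXpos i (max (T i) (T j)) (le_max_left _ _)
    have h7 := hXpos j (max (T i) (T j)) (le_max_right _ _)
    have h8 : ((movesE d (X i) (max (T i) (T j)) : ℕ) : ℤ) < movesE d (X j) (max (T i) (T j)) + k := by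
      exact_mod_cast h5
    omega
  refine count_contra (fun j => (X j).1) (X 0).1 y.1 (fun n => d (n, y.2) = 1) ?_ ?_ ?_ ?_ (hinf y.2)
  · intro i j hij
    simp only at hij
    have h5 : X i = X j := by rw [hXj i, hXj j, hij]
    have h6 := hXpos i (max (T i) (T j)) (le_max_left _ _)
    have h7 := hXpos j (max (T i) (T j)) (le_max_right _ _)
    rw [h5] at h6
    omega
  · intro j
    have := hX j
    rwa [hXj j] at this
  · intro j
    by_contra h5
    push Not at h5
    have := hlt j 0 h5
    omega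
  · intro j
    have := hXpos j (T j) le_rfl
    omega

/-- a jammed north-facing car forces a jammed east-facing car -/
lemma jamE_exists {d : Conf} (hinf : ∀ r m : ℤ, ∃ n, m ≤ n ∧ ¬ d (r, n) = 2)
    (hE : ∃ x, d x = 2 ∧ ∃ m, ∀ t, movesN d x t ≤ m) : ∃ x, d x = 1 ∧ ∃ m, ∀ t, movesE d x t ≤ m := by
  by_contra hcon
  obtain ⟨x₀, hx₀, m₀, hm₀⟩ := hE
  obtain ⟨T₀, c, hc⟩ := eventually_const (movesN_mono d x₀) hm₀
  obtain ⟨hs, h1⟩ := stuck_of_jamN hx₀ hc
  set y : ℤ × ℤ := (x₀.1, x₀.2 + c) with hy
  have hchain : ∀ j : ℕ, ∃ T, Stuck d (y.1, y.2 + j) T ∧ state d T (y.1, y.2 + j) = 2 := by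
    intro j
    induction j with
    | zero => exact ⟨T₀, by simpa using hs, by simpa using h1⟩
    | succ j ih =>
      obtain ⟨T, hT, hT1⟩ := ih
      obtain ⟨T', hT'⟩ := stuck_north hT hT1
      have he : ((y.1, y.2 + (j + 1 : ℕ)) : ℤ × ℤ) =
          (((y.1, y.2 + j) : ℤ × ℤ).1, ((y.1, y.2 + j) : ℤ × ℤ).2 + 1) := by
        ext <;> simp; ring
      rw [he]
      refine ⟨T', hT', ?_⟩
      by_contra h2
      exact hcon (jamE_of_stuck hT' (fin3 _ (hT' T' le_rfl).1 h2))
  choose T hT hT1 using hchain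
  choose X hX hXrow hXpos using fun j => posN_of_stuck (hT j) (hT1 j)
  simp only at hXrow hXpos
  have hXj : ∀ j, X j = (y.1, (X j).2) := fun j => by
    ext
    · exact hXrow j
    · rfl
  have hlt : ∀ i j, (X i).2 < (X j).2 → i < j := by
    intro i j hij
    obtain ⟨k, hk⟩ : ∃ k : ℕ, (X j).2 = (X i).2 + k := ⟨((X j).2 - (X i).2).toNat, by omega⟩
    have hk0 : 0 < k := by omega
    have hjj : X j = ((X i).1, (X i).2 + k) := by
      ext
      · simp only; rw [hXrow i, hXrow j]
      · exact hk
    have h5 := orderN (d := d) (x := X i) hk0 (by rw [← hjj]; exact hX j) (max (T i) (T j))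
    rw [← hjj] at h5
    have h6 := hXpos i (max (T i) (T j)) (le_max_left _ _)
    have h7 := hXpos j (max (T i) (T j)) (le_max_right _ _)
    have h8 : ((movesN d (X i) (max (T i) (T j)) : ℕ) : ℤ) < movesN d (X j) (max (T i) (T j)) + k := by
      exact_mod_cast h5
    omega
  refine count_contra (fun j => (X j).2) (X 0).2 y.2 (fun n => d (y.1, n) = 2) ?_ ?_ ?_ ?_ (hinf y.1)
  · intro i j hij
    simp only at hij
    have h5 : X i = X j := by rw [hXj i, hXj j, hij]
    have h6 := hXpos i (max (T i) (T j)) (le_max_left _ _)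
    have h7 := hXpos j (max (T i) (T j)) (le_max_right _ _)
    rw [h5] at h6
    omega
  · intro j
    have := hX j
    rwa [hXj j] at this
  · intro j
    by_contra h5
    push Not at h5
    have := hlt j 0 h5
    omega
  · intro j
    have := hXpos j (T j) le_rfl
    omega

end Dynamics

section Law

/-! ### The law of the initial configuration -/

variable (ν : Measure (Fin 3)) [IsProbabilityMeasure ν]

/-- the law of an independent field with marginal `ν` -/
noncomputable def law : Measure Conf := Measure.infinitePi (fun _ : ℤ × ℤ => ν)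

instance : IsProbabilityMeasure (law ν) := by unfold law; infer_instance

lemma measurable_shift (v : ℤ × ℤ) : Measurable (shift v) :=
  measurable_pi_iff.mpr (fun x => measurable_pi_apply (x + v))

lemma shift_box (v : ℤ × ℤ) (s : Finset (ℤ × ℤ)) (t : ℤ × ℤ → Set (Fin 3)) :
    shift v ⁻¹' (Set.pi s t) = Set.pi (s.map (addRightEmbedding v)) (fun x => t (x - v)) := by
  ext d
  simp only [Set.mem_preimage, Set.mem_pi, Finset.coe_map, Set.mem_image, forall_exists_index, and_imp]
  constructor
  · rintro h x y hy rfl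
    simp only [addRightEmbedding_apply, add_sub_cancel_right]
    exact h y hy
  · intro h x hx
    have := h (x + v) x hx rfl
    rw [add_sub_cancel_right] at this
    exact this

lemma law_box (s : Finset (ℤ × ℤ)) (t : ℤ × ℤ → Set (Fin 3)) : law ν (Set.pi s t) = ∏ x ∈ s, ν (t x) :=
  Measure.infinitePi_pi (fun _ : ℤ × ℤ => ν) (fun _ _ => MeasurableSet.of_discrete)

lemma map_shift (v : ℤ × ℤ) : Measure.map (shift v) (law ν) = law ν := by
  refine Measure.eq_infinitePi (fun _ : ℤ × ℤ => ν) ?_
  intro s t ht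
  rw [Measure.map_apply (measurable_shift v) (MeasurableSet.pi s.countable_toSet (fun i _ => ht i)), shift_box,
    law_box, Finset.prod_map]
  refine Finset.prod_congr rfl (fun x _ => ?_)
  show ν (t (x + v - v)) = ν (t x)
  rw [add_sub_cancel_right]

lemma law_shift (v : ℤ × ℤ) {A : Set Conf} (hA : MeasurableSet A) : law ν (shift v ⁻¹' A) = law ν A := by
  conv_rhs => rw [← map_shift ν v]
  rw [Measure.map_apply (measurable_shift v) hA]

lemma eventually_disjoint {u : ℤ × ℤ} (hu : u ≠ 0) (s s' : Finset (ℤ × ℤ)) :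
    ∀ᶠ n : ℕ in atTop, Disjoint s (s'.map (addRightEmbedding (n • u))) := by
  have hfin : {n : ℕ | ¬ Disjoint s (s'.map (addRightEmbedding (n • u)))}.Finite := by
    have hinj : ∀ b : ℤ × ℤ, Function.Injective (fun n : ℕ => b + n • u) := by
      intro b m n h
      have h1 : m • u = n • u := by simpa using h
      by_contra hmn
      apply hu
      have h2 : ((m : ℤ) - n) • u = 0 := by
        rw [sub_smul, natCast_zsmul, natCast_zsmul, h1, sub_self]
      rcases smul_eq_zero.mp h2 with h3 | h3
      · omega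
      · exact h3
    have : {n : ℕ | ¬ Disjoint s (s'.map (addRightEmbedding (n • u)))} ⊆
        ⋃ b ∈ s', (fun n : ℕ => b + n • u) ⁻¹' (s : Set (ℤ × ℤ)) := by
      intro n hn
      rw [Set.mem_ofPred_eq, Finset.not_disjoint_iff] at hn
      obtain ⟨a, ha, ha'⟩ := hn
      obtain ⟨b, hb, hab⟩ := Finset.mem_map.mp ha'
      simp only [Set.mem_iUnion, Set.mem_preimage]
      refine ⟨b, hb, ?_⟩
      rw [addRightEmbedding_apply] at hab
      rw [hab]
      exact ha
    refine Set.Finite.subset (Set.Finite.biUnion s'.finite_toSet (fun b _ => ?_)) this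
    exact Set.Finite.preimage ((hinj b).injOn) s.finite_toSet
  have h2 := hfin.eventually_cofinite_notMem
  rw [Nat.cofinite_eq_atTop] at h2
  filter_upwards [h2] with n hn
  by_contra h
  exact hn h

lemma mix_box {u : ℤ × ℤ} (hu : u ≠ 0) (s s' : Finset (ℤ × ℤ)) (t t' : ℤ × ℤ → Set (Fin 3)) :
    ∀ᶠ n : ℕ in atTop, law ν (Set.pi s t ∩ shift (n • u) ⁻¹' (Set.pi s' t')) =
      law ν (Set.pi s t) * law ν (Set.pi s' t') := by
  classical
  filter_upwards [eventually_disjoint hu s s'] with n hn
  set s'' := s'.map (addRightEmbedding (n • u)) with hs''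
  set T : ℤ × ℤ → Set (Fin 3) := fun x => if x ∈ s then t x else t' (x - n • u) with hT
  have h1 : Set.pi s t ∩ shift (n • u) ⁻¹' (Set.pi s' t') = Set.pi (s ∪ s'' : Finset (ℤ × ℤ)) T := by
    rw [shift_box]
    ext d
    simp only [Set.mem_inter_iff, Set.mem_pi, Finset.coe_union, Set.mem_union, Finset.mem_coe]
    constructor
    · rintro ⟨h1, h2⟩ x hx
      rw [hT]
      by_cases hxs : x ∈ s
      · simp only [hxs, if_true]; exact h1 x hxs
      · simp only [hxs, if_false]
        exact h2 x (hx.resolve_left hxs)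
    · intro h
      constructor
      · intro x hx
        have := h x (Or.inl hx)
        rw [hT] at this
        simpa only [hx, if_true] using this
      · intro x hx
        have hxs : x ∉ s := fun hxs => Finset.disjoint_left.mp hn hxs hx
        have := h x (Or.inr hx)
        rw [hT] at this
        simpa only [hxs, if_false] using this
  rw [h1, law_box, Finset.prod_union hn, law_box, law_box]
  congr 1
  · refine Finset.prod_congr rfl (fun x hx => ?_)
    rw [hT]; simp only [hx, if_true]
  · rw [hs'', Finset.prod_map]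
    refine Finset.prod_congr rfl (fun x hx => ?_)
    have hxs : addRightEmbedding (n • u) x ∉ s := fun hxs =>
      Finset.disjoint_left.mp hn hxs (Finset.mem_map_of_mem _ hx)
    rw [hT]
    simp only [hxs, if_false]
    simp

lemma mix {u : ℤ × ℤ} (hu : u ≠ 0) (s' : Finset (ℤ × ℤ)) (t' : ℤ × ℤ → Set (Fin 3)) :
    ∀ A : Set Conf, MeasurableSet A → Tendsto (fun n : ℕ => (law ν).real (A ∩ shift (n • u) ⁻¹' (Set.pi s' t')))
      atTop (𝓝 ((law ν).real A * (law ν).real (Set.pi s' t'))) := by
  have hB : MeasurableSet (Set.pi (s' : Set (ℤ × ℤ)) t') :=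
    MeasurableSet.pi s'.countable_toSet (fun i _ => MeasurableSet.of_discrete)
  have hBn : ∀ n : ℕ, MeasurableSet (shift (n • u) ⁻¹' (Set.pi (s' : Set (ℤ × ℤ)) t')) :=
    fun n => measurable_shift _ hB
  have hBr : ∀ n : ℕ, (law ν).real (shift (n • u) ⁻¹' (Set.pi (s' : Set (ℤ × ℤ)) t')) =
      (law ν).real (Set.pi s' t') := fun n => by
    rw [Measure.real, law_shift ν _ hB, Measure.real]
  refine MeasurableSpace.induction_on_inter generateFrom_squareCylinders.symm
    (isPiSystem_squareCylinders (fun _ => MeasurableSpace.isPiSystem_measurableSet) (by simp)) ?_ ?_ ?_ ?_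
  · simp
  · rintro - ⟨s, t, -, rfl⟩
    refine tendsto_const_nhds.congr' ?_
    filter_upwards [mix_box ν hu s s' t t'] with n hn
    rw [Measure.real, Measure.real, Measure.real, hn, ENNReal.toReal_mul]
  · intro A hA ih
    have h1 : ∀ n : ℕ, (law ν).real (Aᶜ ∩ shift (n • u) ⁻¹' (Set.pi s' t')) =
        (law ν).real (Set.pi s' t') - (law ν).real (A ∩ shift (n • u) ⁻¹' (Set.pi s' t')) := by
      intro n
      have := measureReal_inter_add_sdiff (μ := law ν) (s := shift (n • u) ⁻¹' (Set.pi (s' : Set (ℤ × ℤ)) t')) hA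
      rw [hBr n] at this
      rw [Set.inter_comm Aᶜ, Set.inter_comm A, ← this]
      have h2 : shift (n • u) ⁻¹' (Set.pi (s' : Set (ℤ × ℤ)) t') ∩ Aᶜ =
        shift (n • u) ⁻¹' (Set.pi (s' : Set (ℤ × ℤ)) t') \ A := rfl
      rw [h2]; ring
    simp_rw [h1]
    rw [probReal_compl_eq_one_sub hA, sub_mul, one_mul]
    exact ih.const_sub _
  · intro f hd hm ih
    have htsum : ∀ n : ℕ, (law ν).real ((⋃ i, f i) ∩ shift (n • u) ⁻¹' (Set.pi s' t')) =
        ∑' i, (law ν).real (f i ∩ shift (n • u) ⁻¹' (Set.pi s' t')) := by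
      intro n
      rw [Set.iUnion_inter, Measure.real, measure_iUnion (fun i j hij => (hd hij).mono Set.inter_subset_left
        Set.inter_subset_left) (fun i => (hm i).inter (hBn n)), ENNReal.tsum_toReal_eq (fun i => measure_ne_top _ _)]
      rfl
    have hU : (law ν).real (⋃ i, f i) = ∑' i, (law ν).real (f i) := by
      rw [Measure.real, measure_iUnion hd hm, ENNReal.tsum_toReal_eq (fun i => measure_ne_top _ _)]
      rfl
    have hsum : Summable (fun i => (law ν).real (f i)) := by
      apply ENNReal.summable_toReal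
      rw [← measure_iUnion hd hm]
      exact measure_ne_top _ _
    simp_rw [htsum]
    rw [hU, ← tsum_mul_right]
    refine tendsto_tsum_of_dominated_convergence hsum ih (Eventually.of_forall (fun n i => ?_))
    rw [Real.norm_of_nonneg measureReal_nonneg]
    exact measureReal_mono Set.inter_subset_left

/-- zero-one law for events invariant under a translation -/
lemma zero_one {u : ℤ × ℤ} (hu : u ≠ 0) {A : Set Conf} (hA : MeasurableSet A) (hinv : shift u ⁻¹' A = A) :
    law ν A = 0 ∨ law ν A = 1 := by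
  have hn : ∀ n : ℕ, shift (n • u) ⁻¹' A = A := by
    intro n
    induction n with
    | zero =>
      ext d
      simp only [zero_smul, Set.mem_preimage]
      have : shift 0 d = d := by funext x; simp [shift]
      rw [this]
    | succ n ih =>
      conv_rhs => rw [← hinv, ← ih]
      ext d
      simp only [Set.mem_preimage]
      have : shift (n • u) (shift u d) = shift ((n + 1) • u) d := by
        funext x
        simp only [shift]
        congr 1
        rw [add_smul, one_smul, add_assoc]
      rw [this]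
  have hbox : ∀ (s' : Finset (ℤ × ℤ)) (t' : ℤ × ℤ → Set (Fin 3)),
      (law ν).real (A ∩ Set.pi s' t') = (law ν).real A * (law ν).real (Set.pi s' t') := by
    intro s' t'
    have hB : MeasurableSet (Set.pi (s' : Set (ℤ × ℤ)) t') :=
      MeasurableSet.pi s'.countable_toSet (fun i _ => MeasurableSet.of_discrete)
    have h1 : ∀ n : ℕ, (law ν).real (A ∩ shift (n • u) ⁻¹' (Set.pi s' t')) = (law ν).real (A ∩ Set.pi s' t') := by
      intro n
      rw [Measure.real, Measure.real, ← law_shift ν (n • u) (hA.inter hB), Set.preimage_inter, hn n]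
    have h2 := mix ν hu s' t' A hA
    simp_rw [h1] at h2
    exact tendsto_nhds_unique tendsto_const_nhds h2
  -- the two measures `B ↦ μ (A ∩ B)` and `B ↦ μ A μ B` agree
  have hmeas : (law ν).restrict A = (law ν A) • (law ν) := by
    refine ext_of_generate_finite _ generateFrom_squareCylinders.symm
      (isPiSystem_squareCylinders (fun _ => MeasurableSpace.isPiSystem_measurableSet) (by simp)) ?_ ?_
    · rintro - ⟨s, t, -, rfl⟩
      have hB : MeasurableSet (Set.pi (s : Set (ℤ × ℤ)) t) :=
        MeasurableSet.pi s.countable_toSet (fun i _ => MeasurableSet.of_discrete)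
      rw [Measure.restrict_apply hB, Set.inter_comm, Measure.smul_apply, smul_eq_mul]
      have := hbox s t
      rw [Measure.real, Measure.real, Measure.real, ← ENNReal.toReal_mul,
        ENNReal.toReal_eq_toReal_iff' (measure_ne_top _ _) (ENNReal.mul_ne_top (measure_ne_top _ _)
          (measure_ne_top _ _))] at this
      exact this
    · simp
  have h3 : law ν A = law ν A * law ν A := by
    have := congrArg (fun m => m A) hmeas
    simp only [Measure.restrict_apply hA, Set.inter_self, Measure.smul_apply, smul_eq_mul] at this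
    exact this
  by_cases h0 : law ν A = 0
  · exact Or.inl h0
  · right
    have h4 : law ν A * 1 = law ν A * law ν A := by rw [mul_one]; exact h3
    exact ((ENNReal.mul_right_inj h0 (measure_ne_top _ _)).mp h4).symm

end Law

section Cars

/-! ### Measurability -/

lemma measurable_stepE : Measurable stepE := by
  refine measurable_pi_iff.mpr (fun x => ?_)
  unfold stepE
  refine Measurable.ite ?_ measurable_const (Measurable.ite ?_ measurable_const (measurable_pi_apply x))
  · exact (measurable_pi_apply x (MeasurableSet.singleton 1)).inter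
      (measurable_pi_apply _ (MeasurableSet.singleton 0))
  · exact (measurable_pi_apply x (MeasurableSet.singleton 0)).inter
      (measurable_pi_apply _ (MeasurableSet.singleton 1))

lemma measurable_stepN : Measurable stepN := by
  refine measurable_pi_iff.mpr (fun x => ?_)
  unfold stepN
  refine Measurable.ite ?_ measurable_const (Measurable.ite ?_ measurable_const (measurable_pi_apply x))
  · exact (measurable_pi_apply x (MeasurableSet.singleton 2)).inter
      (measurable_pi_apply _ (MeasurableSet.singleton 0))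
  · exact (measurable_pi_apply x (MeasurableSet.singleton 0)).inter
      (measurable_pi_apply _ (MeasurableSet.singleton 2))

lemma measurable_state (t : ℕ) : Measurable (fun d => state d t) := by
  induction t with
  | zero => exact measurable_id
  | succ t ih => exact measurable_stepN.comp (measurable_stepE.comp ih)

lemma measurable_movesE (x : ℤ × ℤ) (t : ℕ) : Measurable (fun d => movesE d x t) := by
  induction t with
  | zero => exact measurable_const
  | succ t ih =>
    have h1 : Measurable (fun q : Conf × ℕ => state q.1 t (x.1 + q.2 + 1, x.2)) :=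
      measurable_from_prod_countable_left (fun m =>
        (measurable_pi_apply ((x.1 + m + 1, x.2) : ℤ × ℤ)).comp (measurable_state t))
    have h2 : Measurable (fun d : Conf => state d t (x.1 + movesE d x t + 1, x.2)) :=
      h1.comp (measurable_id.prodMk ih)
    unfold movesE
    refine ih.add (Measurable.ite ?_ measurable_const measurable_const)
    exact h2 (MeasurableSet.singleton 0)

lemma measurable_movesN (x : ℤ × ℤ) (t : ℕ) : Measurable (fun d => movesN d x t) := by
  induction t with
  | zero => exact measurable_const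
  | succ t ih =>
    have h1 : Measurable (fun q : Conf × ℕ => stepE (state q.1 t) (x.1, x.2 + q.2 + 1)) :=
      measurable_from_prod_countable_left (fun m =>
        (measurable_pi_apply ((x.1, x.2 + m + 1) : ℤ × ℤ)).comp (measurable_stepE.comp (measurable_state t)))
    have h2 : Measurable (fun d : Conf => stepE (state d t) (x.1, x.2 + movesN d x t + 1)) :=
      h1.comp (measurable_id.prodMk ih)
    unfold movesN
    refine ih.add (Measurable.ite ?_ measurable_const measurable_const)
    exact h2 (MeasurableSet.singleton 0)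

/-! ### Zero-one law for properties of cars -/

variable (ν : Measure (Fin 3)) [IsProbabilityMeasure ν]

/-- A property `Q` of cars of type `a` that is passed on from a car to the cars behind it (in direction `-u`) holds
almost surely for all cars of this type or almost surely for none. -/
lemma zero_one_cars (a : Fin 3) {u : ℤ × ℤ} (hu : u ≠ 0) (Q : Conf → ℤ × ℤ → Prop)
    (hQm : ∀ x, MeasurableSet {d | Q d x}) (hQs : ∀ v d x, Q (shift v d) x ↔ Q d (x + v))
    (hQ : ∀ (d : Conf) (x : ℤ × ℤ) (k : ℕ), 0 < k → d x = a → d (x + k • u) = a → Q d (x + k • u) → Q d x) :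
    (∀ᵐ d ∂(law ν), ∀ x, d x = a → Q d x) ∨ (∀ᵐ d ∂(law ν), ∀ x, d x = a → ¬ Q d x) := by
  set A : ℤ × ℤ → Set Conf := fun x => {d | d x = a ∧ Q d x} with hA
  have hAm : ∀ x, MeasurableSet (A x) := fun x => by
    have h1 : MeasurableSet {d : Conf | d x = a} := measurableSet_eq_fun (measurable_pi_apply x) measurable_const
    exact h1.inter (hQm x)
  have hAs : ∀ v x, shift v ⁻¹' (A x) = A (x + v) := by
    intro v x
    ext d
    simp only [hA, Set.mem_preimage, Set.mem_ofPred_eq]
    rw [hQs]
    rfl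
  set J : Set Conf := ⋃ k : ℤ, A (k • u) with hJ
  have hJm : MeasurableSet J := MeasurableSet.iUnion (fun k => hAm _)
  have hJinv : shift u ⁻¹' J = J := by
    rw [hJ, Set.preimage_iUnion]
    simp_rw [hAs]
    ext d
    simp only [Set.mem_iUnion]
    constructor
    · rintro ⟨k, hk⟩
      refine ⟨k + 1, ?_⟩
      rwa [add_smul, one_smul]
    · rintro ⟨k, hk⟩
      refine ⟨k - 1, ?_⟩
      rwa [sub_smul, one_smul, sub_add_cancel]
  rcases zero_one ν hu hJm hJinv with h0 | h1
  · right
    have hA0 : law ν (A 0) = 0 := by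
      refine measure_mono_null ?_ h0
      intro d hd
      exact Set.mem_iUnion.mpr ⟨0, by rw [zero_smul]; exact hd⟩
    rw [ae_all_iff]
    intro x
    have hAx : law ν (A x) = 0 := by
      have := law_shift ν x (hAm 0)
      rw [hAs, zero_add] at this
      rw [this, hA0]
    have : {d | ¬ (d x = a → ¬ Q d x)} = A x := by
      ext d; simp [hA]
    rw [ae_iff, this]
    exact hAx
  · left
    -- the half lines
    set H : ℤ → Set Conf := fun n => ⋃ k : ℕ, A ((k + n) • u) with hH
    have hHm : ∀ n, MeasurableSet (H n) := fun n => MeasurableSet.iUnion (fun k => hAm _)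
    have hHs : ∀ n m : ℤ, shift (m • u) ⁻¹' (H n) = H (n + m) := by
      intro n m
      simp only [hH, Set.preimage_iUnion, hAs]
      congr 1
      funext k
      rw [← add_smul]
      congr 2
      ring
    have hHe : ∀ n : ℤ, law ν (H n) = law ν (H 0) := by
      intro n
      have := law_shift ν (n • u) (hHm 0)
      rw [hHs, zero_add] at this
      exact this
    have hmono : Monotone (fun m : ℕ => H (-(m : ℤ))) := by
      refine monotone_nat_of_le_succ (fun m => ?_)
      intro d hd
      simp only [hH, Set.mem_iUnion] at hd ⊢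
      obtain ⟨k, hk⟩ := hd
      refine ⟨k + 1, ?_⟩
      have : ((k + 1 : ℕ) : ℤ) + -((m + 1 : ℕ) : ℤ) = k + -(m : ℤ) := by push_cast; ring
      rw [this]
      exact hk
    have hJH : J = ⋃ m : ℕ, H (-(m : ℤ)) := by
      ext d
      simp only [hJ, hH, Set.mem_iUnion]
      constructor
      · rintro ⟨k, hk⟩
        refine ⟨k.natAbs, (k + k.natAbs).toNat, ?_⟩
        have : (((k + k.natAbs).toNat : ℕ) : ℤ) + -((k.natAbs : ℕ) : ℤ) = k := by omega
        rw [this]
        exact hk
      · rintro ⟨m, k, hk⟩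
        exact ⟨_, hk⟩
    have hH0 : law ν (H 0) = 1 := by
      have h2 := hmono.measure_iUnion (μ := law ν)
      rw [← hJH, h1] at h2
      simp only [hHe, ciSup_const] at h2
      exact h2.symm
    have hall : ∀ᵐ d ∂(law ν), ∀ x : ℤ × ℤ, d ∈ shift x ⁻¹' (H 1) := by
      rw [ae_all_iff]
      intro x
      have h2 : law ν (shift x ⁻¹' (H 1)) = 1 := by rw [law_shift ν x (hHm 1), hHe, hH0]
      exact (prob_compl_eq_zero_iff (measurable_shift x (hHm 1))).mpr h2
    filter_upwards [hall] with d hd x hx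
    have h3 := hd x
    rw [hH, Set.mem_preimage] at h3
    simp only [Set.mem_iUnion] at h3
    obtain ⟨k, hk⟩ := h3
    have h4 : ((k : ℤ) + 1) • u + x = x + (k + 1) • u := by
      rw [add_comm]
      congr 1
    obtain ⟨h5, h6⟩ := hk
    rw [hQs, h4] at h6
    have h7 : d (x + (k + 1) • u) = a := by rw [← h4]; exact h5
    exact hQ d x (k + 1) (by omega) hx h7 h6

end Cars

section Transport

variable (ν : Measure (Fin 3)) [IsProbabilityMeasure ν]

/-! ### Mass transport -/

lemma meas_eq (x : ℤ × ℤ) (a : Fin 3) : MeasurableSet {d : Conf | d x = a} :=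
  measurableSet_eq_fun (measurable_pi_apply x) measurable_const

/-- mass transport: the cars of type `a` counted at their starting point or at their position -/
lemma transport (a : Fin 3) (u : ℤ × ℤ) (M : Conf → ℤ × ℤ → ℕ) (hM : ∀ x, Measurable (fun d => M d x))
    (hMs : ∀ v d x, M (shift v d) x = M d (x + v))
    (hord : ∀ (d : Conf) (x : ℤ × ℤ) (k : ℕ), 0 < k → d (x + k • u) = a → M d x < M d (x + k • u) + k)
    (W : Conf → ℤ × ℤ → Prop) (hWm : ∀ x, MeasurableSet {d | W d x}) (hWs : ∀ v d x, W (shift v d) x ↔ W d (x + v)) :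
    law ν {d | d 0 = a ∧ W d (M d 0 • u)} ≤ law ν {d | W d 0} := by
  set A : ℕ → Set Conf := fun k => {d | d 0 = a ∧ M d 0 = k ∧ W d (k • u)} with hA
  set B : ℕ → Set Conf := fun k => {d | d (-(k • u)) = a ∧ M d (-(k • u)) = k ∧ W d 0} with hB
  have hAm : ∀ k, MeasurableSet (A k) := fun k =>
    (meas_eq 0 a).inter ((measurableSet_eq_fun (hM 0) measurable_const).inter (hWm _))
  have hBm : ∀ k, MeasurableSet (B k) := fun k =>
    (meas_eq _ a).inter ((measurableSet_eq_fun (hM _) measurable_const).inter (hWm _))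
  have hAB : ∀ k, law ν (A k) = law ν (B k) := by
    intro k
    rw [← law_shift ν (-(k • u)) (hAm k)]
    congr 1
    ext d
    simp only [hA, hB, Set.mem_preimage, Set.mem_ofPred_eq]
    rw [hMs, hWs, zero_add, add_neg_cancel]
    have : shift (-(k • u)) d 0 = d (-(k • u)) := by simp [shift]
    rw [this]
  have hAd : Pairwise (Function.onFun Disjoint A) := by
    intro i j hij
    rw [Function.onFun, Set.disjoint_left]
    rintro d ⟨_, h1, _⟩ ⟨_, h2, _⟩
    exact hij (h1.symm.trans h2)
  have hBd : ∀ i j : ℕ, i < j → Disjoint (B i) (B j) := by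
    intro i j hij
    rw [Set.disjoint_left]
    rintro d ⟨h1, h2, _⟩ ⟨h3, h4, _⟩
    have he : -(j • u) + (j - i) • u = -(i • u) := by
      have : j • u = i • u + (j - i) • u := by rw [← add_smul]; congr 1; omega
      rw [this]; abel
    have h5 := hord d (-(j • u)) (j - i) (by omega) (by rw [he]; exact h1)
    rw [he, h2, h4] at h5
    omega
  have hBd' : Pairwise (Function.onFun Disjoint B) := by
    intro i j hij
    rcases lt_or_gt_of_ne hij with h | h
    · exact hBd i j h
    · exact (hBd j i h).symm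
  have hU : {d | d 0 = a ∧ W d (M d 0 • u)} = ⋃ k, A k := by
    ext d
    simp only [hA, Set.mem_ofPred_eq, Set.mem_iUnion]
    constructor
    · rintro ⟨h1, h2⟩; exact ⟨_, h1, rfl, h2⟩
    · rintro ⟨k, h1, h2, h3⟩; exact ⟨h1, by rw [h2]; exact h3⟩
  rw [hU, measure_iUnion hAd hAm]
  simp_rw [hAB]
  rw [← measure_iUnion hBd' hBm]
  refine measure_mono ?_
  intro d hd
  obtain ⟨k, _, _, h⟩ := Set.mem_iUnion.mp hd
  exact h

/-! ### The two kinds of cars -/

lemma orderE' (d : Conf) (x : ℤ × ℤ) (k : ℕ) (hk : 0 < k) (h : d (x + k • ((1, 0) : ℤ × ℤ)) = 1) (t : ℕ) :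
    movesE d x t < movesE d (x + k • ((1, 0) : ℤ × ℤ)) t + k := by
  have he : x + k • ((1, 0) : ℤ × ℤ) = (x.1 + k, x.2) := by ext <;> simp
  rw [he] at h ⊢
  exact orderE hk h t

lemma orderN' (d : Conf) (x : ℤ × ℤ) (k : ℕ) (hk : 0 < k) (h : d (x + k • ((0, 1) : ℤ × ℤ)) = 2) (t : ℕ) :
    movesN d x t < movesN d (x + k • ((0, 1) : ℤ × ℤ)) t + k := by
  have he : x + k • ((0, 1) : ℤ × ℤ) = (x.1, x.2 + k) := by ext <;> simp
  rw [he] at h ⊢
  exact orderN hk h t

lemma meas_state (t : ℕ) (x : ℤ × ℤ) (a : Fin 3) : MeasurableSet {d : Conf | state d t x = a} :=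
  measurableSet_eq_fun ((measurable_pi_apply x).comp (measurable_state t)) measurable_const

lemma meas_stateE (t : ℕ) (x : ℤ × ℤ) (a : Fin 3) : MeasurableSet {d : Conf | stepE (state d t) x = a} :=
  measurableSet_eq_fun ((measurable_pi_apply x).comp (measurable_stepE.comp (measurable_state t)))
    measurable_const

lemma law_one (x : ℤ × ℤ) (a : Fin 3) : law ν {d | d x = a} = ν {a} := by
  have := law_box ν {x} (fun _ => {a})
  rw [Finset.prod_singleton] at this
  rw [← this]
  congr 1
  ext d
  simp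

/-- density of the two kinds of cars before and after an east phase -/
lemma density (t : ℕ) : (ν {1} ≤ law ν {d | state d t 0 = 1} ∧ ν {2} ≤ law ν {d | state d t 0 = 2}) ∧
    (ν {1} ≤ law ν {d | stepE (state d t) 0 = 1} ∧ ν {2} ≤ law ν {d | stepE (state d t) 0 = 2}) := by
  refine ⟨⟨?_, ?_⟩, ?_, ?_⟩
  · have h := transport ν 1 (1, 0) (fun d x => movesE d x t) (fun x => measurable_movesE x t)
      (fun v d x => movesE_shift v d x t) (fun d x k hk h => orderE' d x k hk h t)
      (fun d y => state d t y = 1) (fun x => meas_state t x 1) (fun v d x => by rw [state_shift]; rfl)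
    refine le_trans (le_of_eq ?_) h
    rw [← law_one ν 0 1]
    congr 1
    ext d
    simp only [Set.mem_ofPred_eq]
    refine ⟨fun h1 => ⟨h1, ?_⟩, fun h1 => h1.1⟩
    have := (carE h1 t).1
    have he : movesE d 0 t • ((1, 0) : ℤ × ℤ) = ((0 : ℤ × ℤ).1 + movesE d 0 t, (0 : ℤ × ℤ).2) := by
      ext <;> simp
    rw [he]; exact this
  · have h := transport ν 2 (0, 1) (fun d x => movesN d x t) (fun x => measurable_movesN x t)
      (fun v d x => movesN_shift v d x t) (fun d x k hk h => orderN' d x k hk h t)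
      (fun d y => state d t y = 2) (fun x => meas_state t x 2) (fun v d x => by rw [state_shift]; rfl)
    refine le_trans (le_of_eq ?_) h
    rw [← law_one ν 0 2]
    congr 1
    ext d
    simp only [Set.mem_ofPred_eq]
    refine ⟨fun h1 => ⟨h1, ?_⟩, fun h1 => h1.1⟩
    have := (carN h1 t).1
    have he : movesN d 0 t • ((0, 1) : ℤ × ℤ) = ((0 : ℤ × ℤ).1, (0 : ℤ × ℤ).2 + movesN d 0 t) := by
      ext <;> simp
    rw [he]; exact this
  · have h := transport ν 1 (1, 0) (fun d x => movesE d x (t + 1)) (fun x => measurable_movesE x (t + 1))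
      (fun v d x => movesE_shift v d x (t + 1)) (fun d x k hk h => orderE' d x k hk h (t + 1))
      (fun d y => stepE (state d t) y = 1) (fun x => meas_stateE t x 1)
      (fun v d x => by rw [state_shift, stepE_shift]; rfl)
    refine le_trans (le_of_eq ?_) h
    rw [← law_one ν 0 1]
    congr 1
    ext d
    simp only [Set.mem_ofPred_eq]
    refine ⟨fun h1 => ⟨h1, ?_⟩, fun h1 => h1.1⟩
    have := (carE h1 t).2
    have he : movesE d 0 (t + 1) • ((1, 0) : ℤ × ℤ) = ((0 : ℤ × ℤ).1 + movesE d 0 (t + 1), (0 : ℤ × ℤ).2) := by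
      ext <;> simp
    rw [he]; exact this
  · have h := transport ν 2 (0, 1) (fun d x => movesN d x t) (fun x => measurable_movesN x t)
      (fun v d x => movesN_shift v d x t) (fun d x k hk h => orderN' d x k hk h t)
      (fun d y => stepE (state d t) y = 2) (fun x => meas_stateE t x 2)
      (fun v d x => by rw [state_shift, stepE_shift]; rfl)
    refine le_trans (le_of_eq ?_) h
    rw [← law_one ν 0 2]
    congr 1
    ext d
    simp only [Set.mem_ofPred_eq]
    refine ⟨fun h1 => ⟨h1, ?_⟩, fun h1 => h1.1⟩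
    have := (carN h1 t).2
    have he : movesN d 0 t • ((0, 1) : ℤ × ℤ) = ((0 : ℤ × ℤ).1, (0 : ℤ × ℤ).2 + movesN d 0 t) := by
      ext <;> simp
    rw [he]; exact this

lemma ne_cases (a : Fin 3) : a = 0 ∨ a = 1 ∨ a = 2 := by fin_cases a <;> simp

/-- the density of empty sites does not increase -/
lemma empty_le (F : Conf → Fin 3) (hF : Measurable F) (h1 : ν {1} ≤ law ν {d | F d = 1})
    (h2 : ν {2} ≤ law ν {d | F d = 2}) : law ν {d | F d = 0} ≤ ν {0} := by
  have hm : ∀ a : Fin 3, MeasurableSet {d | F d = a} := fun a => measurableSet_eq_fun hF measurable_const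
  have hsum : law ν {d | F d = 0} + law ν {d | F d = 1} + law ν {d | F d = 2} = 1 := by
    rw [← measure_union _ (hm 1), ← measure_union _ (hm 2)]
    · have : {d | F d = 0} ∪ {d | F d = 1} ∪ {d | F d = 2} = Set.univ := by
        ext d
        simp only [Set.mem_union, Set.mem_ofPred_eq, Set.mem_univ, iff_true]
        rcases ne_cases (F d) with h | h | h <;> simp [h]
      rw [this, measure_univ]
    · rw [Set.disjoint_left]
      rintro d (h | h) h' <;> simp only [Set.mem_ofPred_eq] at h h' <;> rw [h] at h' <;> exact absurd h' (by decide)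
    · rw [Set.disjoint_left]
      intro d h h'
      simp only [Set.mem_ofPred_eq] at h h'
      rw [h] at h'
      exact absurd h' (by decide)
  have hsum' : ν {0} + ν {1} + ν {2} = 1 := by
    have h3 : (Set.univ : Set (Fin 3)) = {0} ∪ {1} ∪ {2} := by
      ext a
      simp only [Set.mem_univ, Set.mem_union, Set.mem_singleton_iff, true_iff]
      rcases ne_cases a with h | h | h <;> simp [h]
    rw [← measure_union _ (MeasurableSet.singleton 1), ← measure_union _ (MeasurableSet.singleton 2), ← h3,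
      measure_univ]
    · rw [Set.disjoint_left]
      rintro d (h | h) h' <;> rw [Set.mem_singleton_iff] at h h' <;> rw [h] at h' <;> exact absurd h' (by decide)
    · rw [Set.disjoint_left]
      intro d h h'
      rw [Set.mem_singleton_iff] at h h'
      rw [h] at h'
      exact absurd h' (by decide)
  have h3 : law ν {d | F d = 0} + (ν {1} + ν {2}) ≤ ν {0} + (ν {1} + ν {2}) := by
    calc law ν {d | F d = 0} + (ν {1} + ν {2})
        ≤ law ν {d | F d = 0} + (law ν {d | F d = 1} + law ν {d | F d = 2}) := by gcongr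
      _ = 1 := by rw [← add_assoc, hsum]
      _ = ν {0} + (ν {1} + ν {2}) := by rw [← add_assoc, hsum']
  exact (ENNReal.add_le_add_iff_right (ENNReal.add_ne_top.mpr ⟨measure_ne_top _ _, measure_ne_top _ _⟩)).mp h3

/-- the probability that the origin holds a car that moves in cycle `t` -/
lemma move_prob (t : ℕ) :
    law ν {d | d 0 = 1 ∧ movesE d 0 (t + 1) = movesE d 0 t + 1} ≤ ν {0} ∧
    law ν {d | d 0 = 2 ∧ movesN d 0 (t + 1) = movesN d 0 t + 1} ≤ ν {0} := by
  constructor
  · have h := transport ν 1 (1, 0) (fun d x => movesE d x t) (fun x => measurable_movesE x t)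
      (fun v d x => movesE_shift v d x t) (fun d x k hk h => orderE' d x k hk h t)
      (fun d y => state d t (y + (1, 0)) = 0) (fun x => meas_state t _ 0)
      (fun v d x => by
        rw [state_shift]
        have : x + v + (1, 0) = x + (1, 0) + v := by abel
        rw [this]; rfl)
    refine le_trans (measure_mono ?_) (h.trans ?_)
    · intro d hd
      refine ⟨hd.1, ?_⟩
      have h1 := hd.2
      have he : movesE d 0 t • ((1, 0) : ℤ × ℤ) + (1, 0) = ((0 : ℤ × ℤ).1 + movesE d 0 t + 1, (0 : ℤ × ℤ).2) := by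
        ext <;> simp
      rw [he]
      by_contra hcon
      rw [movesE, if_neg hcon] at h1
      omega
    · have h1 : law ν {d | state d t (0 + (1, 0)) = 0} = law ν {d | state d t 0 = 0} := by
        rw [← law_shift ν (1, 0) (meas_state t 0 0)]
        congr 1
        ext d
        simp only [Set.mem_preimage, Set.mem_ofPred_eq]
        rw [state_shift]
        rfl
      rw [h1]
      exact empty_le ν _ ((measurable_pi_apply 0).comp (measurable_state t)) (density ν t).1.1 (density ν t).1.2
  · have h := transport ν 2 (0, 1) (fun d x => movesN d x t) (fun x => measurable_movesN x t)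
      (fun v d x => movesN_shift v d x t) (fun d x k hk h => orderN' d x k hk h t)
      (fun d y => stepE (state d t) (y + (0, 1)) = 0) (fun x => meas_stateE t _ 0)
      (fun v d x => by
        rw [state_shift, stepE_shift]
        have : x + v + (0, 1) = x + (0, 1) + v := by abel
        rw [this]; rfl)
    refine le_trans (measure_mono ?_) (h.trans ?_)
    · intro d hd
      refine ⟨hd.1, ?_⟩
      have h1 := hd.2
      have he : movesN d 0 t • ((0, 1) : ℤ × ℤ) + (0, 1) = ((0 : ℤ × ℤ).1, (0 : ℤ × ℤ).2 + movesN d 0 t + 1) := by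
        ext <;> simp
      rw [he]
      by_contra hcon
      rw [movesN, if_neg hcon] at h1
      omega
    · have h1 : law ν {d | stepE (state d t) (0 + (0, 1)) = 0} = law ν {d | stepE (state d t) 0 = 0} := by
        rw [← law_shift ν (0, 1) (meas_stateE t 0 0)]
        congr 1
        ext d
        simp only [Set.mem_preimage, Set.mem_ofPred_eq]
        rw [state_shift, stepE_shift]
        rfl
      rw [h1]
      exact empty_le ν _ ((measurable_pi_apply 0).comp (measurable_stepE.comp (measurable_state t)))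
        (density ν t).2.1 (density ν t).2.2

end Transport

section Kinds

variable (ν : Measure (Fin 3)) [IsProbabilityMeasure ν]

/-- cars of type `a`, moving in direction `u`, with numbers of moves `M` -/
structure Kind (a : Fin 3) (u : ℤ × ℤ) (M : Conf → ℤ × ℤ → ℕ → ℕ) : Prop where
  ne : u ≠ 0
  meas : ∀ x t, Measurable (fun d => M d x t)
  shift : ∀ v d x t, M (shift v d) x t = M d (x + v) t
  order : ∀ (d : Conf) (x : ℤ × ℤ) (k : ℕ), 0 < k → d (x + k • u) = a → ∀ t, M d x t < M d (x + k • u) t + k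
  zero : ∀ d x, M d x 0 = 0
  succ : ∀ d x t, M d x (t + 1) = M d x t ∨ M d x (t + 1) = M d x t + 1

lemma kindE : Kind 1 (1, 0) movesE where
  ne := by decide
  meas := measurable_movesE
  shift := movesE_shift
  order := orderE'
  zero := fun _ _ => rfl
  succ := fun d x t => by
    rw [movesE]
    split_ifs
    · right; rfl
    · left; rfl

lemma kindN : Kind 2 (0, 1) movesN where
  ne := by decide
  meas := measurable_movesN
  shift := movesN_shift
  order := orderN'
  zero := fun _ _ => rfl
  succ := fun d x t => by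
    rw [movesN]
    split_ifs
    · right; rfl
    · left; rfl

variable {a : Fin 3} {u : ℤ × ℤ} {M : Conf → ℤ × ℤ → ℕ → ℕ}

/-- zero-one law: upper bounds -/
lemma zo_up (hK : Kind a u M) (g : ℕ → ℝ) :
    (∀ᵐ d ∂(law ν), ∀ x, d x = a → ∃ C : ℕ, ∀ t, (M d x t : ℝ) ≤ g t + C) ∨
    (∀ᵐ d ∂(law ν), ∀ x, d x = a → ¬ ∃ C : ℕ, ∀ t, (M d x t : ℝ) ≤ g t + C) := by
  refine zero_one_cars ν a hK.ne (fun d x => ∃ C : ℕ, ∀ t, (M d x t : ℝ) ≤ g t + C) ?_ ?_ ?_
  · intro x
    have : {d : Conf | ∃ C : ℕ, ∀ t, (M d x t : ℝ) ≤ g t + C} = ⋃ C : ℕ, ⋂ t, {d | (M d x t : ℝ) ≤ g t + C} := by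
      ext d; simp
    rw [this]
    exact MeasurableSet.iUnion fun C => MeasurableSet.iInter fun t =>
      measurableSet_le (measurable_from_nat.comp (hK.meas x t)) measurable_const
  · intro v d x
    simp only [hK.shift]
  · rintro d x k hk - h ⟨C, hC⟩
    refine ⟨C + k, fun t => ?_⟩
    have h1 := hK.order d x k hk h t
    have h2 : (M d x t : ℝ) < M d (x + k • u) t + k := by exact_mod_cast h1
    have h3 := hC t
    push_cast
    linarith

/-- zero-one law: lower bounds -/
lemma zo_lo (hK : Kind a u M) (g : ℕ → ℝ) :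
    (∀ᵐ d ∂(law ν), ∀ x, d x = a → ∃ C : ℕ, ∀ t, g t ≤ (M d x t : ℝ) + C) ∨
    (∀ᵐ d ∂(law ν), ∀ x, d x = a → ¬ ∃ C : ℕ, ∀ t, g t ≤ (M d x t : ℝ) + C) := by
  refine zero_one_cars ν a (neg_ne_zero.mpr hK.ne) (fun d x => ∃ C : ℕ, ∀ t, g t ≤ (M d x t : ℝ) + C) ?_ ?_ ?_
  · intro x
    have : {d : Conf | ∃ C : ℕ, ∀ t, g t ≤ (M d x t : ℝ) + C} = ⋃ C : ℕ, ⋂ t, {d | g t ≤ (M d x t : ℝ) + C} := by
      ext d; simp
    rw [this]
    exact MeasurableSet.iUnion fun C => MeasurableSet.iInter fun t =>
      measurableSet_le measurable_const ((measurable_from_nat.comp (hK.meas x t)).add measurable_const)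
  · intro v d x
    simp only [hK.shift]
  · rintro d x k hk hx - ⟨C, hC⟩
    refine ⟨C + k, fun t => ?_⟩
    have he : x + k • (-u) + k • u = x := by rw [smul_neg]; abel
    have h1 := hK.order d (x + k • (-u)) k hk (by rw [he]; exact hx) t
    rw [he] at h1
    have h2 : (M d (x + k • (-u)) t : ℝ) < M d x t + k := by exact_mod_cast h1
    have h3 := hC t
    push_cast
    linarith

/-- mean number of moves -/
lemma lintegral_le (hK : Kind a u M)
    (hmove : ∀ t, law ν {d | d 0 = a ∧ M d 0 (t + 1) = M d 0 t + 1} ≤ ν {0}) (t : ℕ) :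
    ∫⁻ d, Set.indicator {d : Conf | d 0 = a} (fun d => (M d 0 t : ℝ≥0∞)) d ∂(law ν) ≤ t * ν {0} := by
  induction t with
  | zero =>
    have : ∀ d : Conf, Set.indicator {d : Conf | d 0 = a} (fun d => (M d 0 0 : ℝ≥0∞)) d = 0 := by
      intro d
      by_cases h : d ∈ {d : Conf | d 0 = a}
      · rw [Set.indicator_of_mem h, hK.zero]; simp
      · rw [Set.indicator_of_notMem h]
    simp [this]
  | succ t ih =>
    set S : Set Conf := {d | d 0 = a ∧ M d 0 (t + 1) = M d 0 t + 1} with hS
    have hSm : MeasurableSet S :=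
      (meas_eq 0 a).inter (measurableSet_eq_fun (hK.meas 0 (t + 1)) ((hK.meas 0 t).add measurable_const))
    have h1 : ∀ d : Conf, Set.indicator {d : Conf | d 0 = a} (fun d => (M d 0 (t + 1) : ℝ≥0∞)) d ≤
        Set.indicator {d : Conf | d 0 = a} (fun d => (M d 0 t : ℝ≥0∞)) d + S.indicator 1 d := by
      intro d
      by_cases h : d ∈ {d : Conf | d 0 = a}
      · rw [Set.indicator_of_mem h, Set.indicator_of_mem h]
        rcases hK.succ d 0 t with h2 | h2
        · rw [h2]; exact le_self_add
        · have h3 : d ∈ S := ⟨h, h2⟩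
          rw [Set.indicator_of_mem h3, h2]
          simp
      · rw [Set.indicator_of_notMem h]; exact zero_le
    calc ∫⁻ d, Set.indicator {d : Conf | d 0 = a} (fun d => (M d 0 (t + 1) : ℝ≥0∞)) d ∂(law ν)
        ≤ ∫⁻ d, (Set.indicator {d : Conf | d 0 = a} (fun d => (M d 0 t : ℝ≥0∞)) d + S.indicator 1 d) ∂(law ν) :=
          lintegral_mono h1
      _ = ∫⁻ d, Set.indicator {d : Conf | d 0 = a} (fun d => (M d 0 t : ℝ≥0∞)) d ∂(law ν) + law ν S := by
          rw [lintegral_add_right _ (measurable_one.indicator hSm), lintegral_indicator_one hSm]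
      _ ≤ t * ν {0} + ν {0} := add_le_add ih (hmove t)
      _ = ((t + 1 : ℕ) : ℝ≥0∞) * ν {0} := by push_cast; ring

lemma real_bound {q C m z : ℝ} (h : ∀ t : ℕ, (q * t - C) * m ≤ t * z) : q * m ≤ z := by
  by_contra hcon
  push Not at hcon
  obtain ⟨t, ht⟩ := exists_nat_gt (C * m / (q * m - z))
  have h1 : 0 < q * m - z := by linarith
  rw [div_lt_iff₀ h1] at ht
  have := h t
  nlinarith

/-- speed bound on the event that a lower bound holds for the car at the origin -/
lemma speed_C (hK : Kind a u M)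
    (hmove : ∀ t, law ν {d | d 0 = a ∧ M d 0 (t + 1) = M d 0 t + 1} ≤ ν {0}) (q : ℝ) (C : ℕ) :
    q * (law ν).real {d | d 0 = a ∧ ∀ t : ℕ, q * t ≤ M d 0 t + C} ≤ (ν {0}).toReal := by
  set D : Set Conf := {d | d 0 = a ∧ ∀ t : ℕ, q * t ≤ M d 0 t + C} with hD
  refine real_bound (C := C) (fun t => ?_)
  by_cases hpos : q * t - C ≤ 0
  · have h1 : 0 ≤ (law ν).real D := measureReal_nonneg
    have h2 : (0 : ℝ) ≤ t * (ν {0}).toReal := by positivity
    nlinarith
  · push Not at hpos
    have h1 := lintegral_le ν hK hmove t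
    have hmeas : Measurable (Set.indicator {d : Conf | d 0 = a} (fun d => (M d 0 t : ℝ≥0∞))) :=
      (measurable_from_nat.comp (hK.meas 0 t)).indicator (meas_eq 0 a)
    have h2 := mul_meas_ge_le_lintegral (μ := law ν) hmeas (ENNReal.ofReal (q * t - C))
    have h3 : law ν D ≤ law ν {d | ENNReal.ofReal (q * t - C) ≤
        Set.indicator {d : Conf | d 0 = a} (fun d => (M d 0 t : ℝ≥0∞)) d} := by
      refine measure_mono (fun d hd => ?_)
      have hd1 : d ∈ {d : Conf | d 0 = a} := hd.1
      rw [Set.mem_ofPred_eq, Set.indicator_of_mem hd1]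
      have hd2 := hd.2 t
      have : ENNReal.ofReal (q * t - C) ≤ ENNReal.ofReal (M d 0 t : ℝ) := ENNReal.ofReal_le_ofReal (by linarith)
      rwa [ENNReal.ofReal_natCast] at this
    have h4 : ENNReal.ofReal (q * t - C) * law ν D ≤ t * ν {0} :=
      (mul_le_mul_of_nonneg_left h3 zero_le).trans (h2.trans h1)
    have h5 := ENNReal.toReal_mono (ENNReal.mul_ne_top (ENNReal.natCast_ne_top t) (measure_ne_top _ _)) h4
    rw [ENNReal.toReal_mul, ENNReal.toReal_mul, ENNReal.toReal_ofReal hpos.le, ENNReal.toReal_natCast] at h5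
    exact h5

/-- almost sure lower bounds on the speed are at most (density of holes) / (density of cars of this type) -/
lemma speed_bound (hK : Kind a u M)
    (hmove : ∀ t, law ν {d | d 0 = a ∧ M d 0 (t + 1) = M d 0 t + 1} ≤ ν {0}) (q : ℝ)
    (h : ∀ᵐ d ∂(law ν), ∀ x, d x = a → ∃ C : ℕ, ∀ t : ℕ, q * t ≤ (M d x t : ℝ) + C) :
    q * (ν {a}).toReal ≤ (ν {0}).toReal := by
  set D : ℕ → Set Conf := fun C => {d | d 0 = a ∧ ∀ t : ℕ, q * t ≤ M d 0 t + C} with hD
  have hmono : Monotone D := by
    intro C C' hC d hd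
    refine ⟨hd.1, fun t => (hd.2 t).trans ?_⟩
    have : (C : ℝ) ≤ C' := by exact_mod_cast hC
    linarith
  have hlim := tendsto_measure_iUnion_atTop (μ := law ν) hmono
  have hU : law ν (⋃ C, D C) = ν {a} := by
    rw [← law_one ν 0 a]
    refine measure_congr ?_
    filter_upwards [h] with d hd
    apply propext
    constructor
    · intro h1
      obtain ⟨C, hC⟩ := Set.mem_iUnion.mp h1
      exact hC.1
    · intro h1
      obtain ⟨C, hC⟩ := hd 0 h1
      exact Set.mem_iUnion.mpr ⟨C, h1, hC⟩
  rw [hU] at hlim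
  have hlim2 : Tendsto (fun C => q * (law ν).real (D C)) atTop (𝓝 (q * (ν {a}).toReal)) :=
    ((ENNReal.tendsto_toReal (measure_ne_top ν _)).comp hlim).const_mul q
  exact le_of_tendsto hlim2 (Eventually.of_forall (fun C => speed_C ν hK hmove q C))

/-- rows and columns contain infinitely many sites that are not of a given type -/
lemma infinitely_many (hν : ν {a} < 1) (y : ℤ × ℤ) (hu : u ≠ 0) :
    ∀ᵐ d ∂(law ν), ∀ m : ℤ, ∃ n : ℤ, m ≤ n ∧ ¬ d (y + n • u) = a := by
  rw [ae_all_iff]
  intro m
  have hinj : Function.Injective (fun n : ℕ => y + (m + n) • u) := by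
    intro i j hij
    simp only [add_right_inj] at hij
    by_contra hne
    apply hu
    have h2 : (((m + i : ℤ)) - (m + j)) • u = 0 := by rw [sub_smul, hij, sub_self]
    rcases smul_eq_zero.mp h2 with h3 | h3
    · omega
    · exact h3
  have hle : ∀ N : ℕ, law ν {d | ¬ ∃ n : ℤ, m ≤ n ∧ ¬ d (y + n • u) = a} ≤ (ν {a}) ^ N := by
    intro N
    have h1 := law_box ν ((Finset.range N).map ⟨_, hinj⟩) (fun _ => {a})
    rw [Finset.prod_const, Finset.card_map, Finset.card_range] at h1
    rw [← h1]
    refine measure_mono (fun d hd => ?_)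
    rw [Set.mem_pi]
    intro x hx
    rw [Finset.coe_map, Set.mem_image] at hx
    obtain ⟨n, _, rfl⟩ := hx
    by_contra hcon
    apply hd
    exact ⟨m + n, by omega, hcon⟩
  have hlim := ENNReal.tendsto_pow_atTop_nhds_zero_of_lt_one hν
  rw [ae_iff]
  exact le_antisymm (ge_of_tendsto' hlim hle) zero_le

end Kinds

section Transfer

lemma moves_le (d : Conf) (x : ℤ × ℤ) (t : ℕ) : moves d x t ≤ t := by
  have hE : ∀ t, movesE d x t ≤ t := by
    intro t
    induction t with
    | zero => exact le_rfl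
    | succ t ih => rcases kindE.succ d x t with h | h <;> omega
  have hN : ∀ t, movesN d x t ≤ t := by
    intro t
    induction t with
    | zero => exact le_rfl
    | succ t ih => rcases kindN.succ d x t with h | h <;> omega
  have h1 := hE t
  have h2 := hN t
  unfold moves
  split_ifs <;> omega

lemma freeFlow_iff {d : Conf} {x : ℤ × ℤ} :
    FreeFlow d x ↔ ∀ n : ℕ, AtLeast (fun t => (1 - 1 / ((n : ℝ) + 1)) * t) d x := by
  constructor
  · intro h n
    have hn : (0 : ℝ) < 1 / ((n : ℝ) + 1) := by positivity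
    have h1 := h.eventually (lt_mem_nhds (show 1 - 1 / ((n : ℝ) + 1) < 1 by linarith))
    obtain ⟨T, hT⟩ := eventually_atTop.mp h1
    refine ⟨T, fun t => ?_⟩
    have hq : 1 - 1 / ((n : ℝ) + 1) ≤ 1 := by linarith
    have hq0 : 0 ≤ 1 - 1 / ((n : ℝ) + 1) := by
      rw [sub_nonneg, div_le_one (by positivity)]
      have : (0 : ℝ) ≤ n := by positivity
      linarith
    have hM : (0 : ℝ) ≤ moves d x t := by positivity
    by_cases ht : T ≤ t
    · by_cases ht0 : t = 0
      · subst ht0
        have hT0 : (0 : ℝ) ≤ T := by positivity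
        simp only [Nat.cast_zero, mul_zero]
        linarith
      · have h2 := hT t ht
        have ht1 : (0 : ℝ) < t := by exact_mod_cast Nat.pos_of_ne_zero ht0
        rw [lt_div_iff₀ ht1] at h2
        have hT0 : (0 : ℝ) ≤ T := by positivity
        simp only
        linarith
    · have h3 : (t : ℝ) ≤ T := by exact_mod_cast (by omega : t ≤ T)
      simp only
      nlinarith
  · intro h
    unfold FreeFlow
    rw [Metric.tendsto_atTop]
    intro ε hε
    obtain ⟨n, hn⟩ := exists_nat_one_div_lt (half_pos hε)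
    obtain ⟨C, hC⟩ := h n
    obtain ⟨T, hT⟩ := exists_nat_gt (C / (ε / 2))
    refine ⟨T + 1, fun t ht => ?_⟩
    have ht1 : (0 : ℝ) < t := by exact_mod_cast (by omega : 0 < t)
    have h1 := hC t
    have h2 : (moves d x t : ℝ) ≤ t := by exact_mod_cast moves_le d x t
    have h3 : (T : ℝ) ≤ t := by exact_mod_cast (by omega : T ≤ t)
    rw [div_lt_iff₀ (half_pos hε)] at hT
    rw [Real.dist_eq, abs_sub_comm, abs_of_nonneg]
    · rw [sub_lt_iff_lt_add, ← sub_lt_iff_lt_add', lt_div_iff₀ ht1]
      simp only at h1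
      nlinarith
    · rw [sub_nonneg, div_le_one ht1]
      exact h2

/-! ### Transfer to the probability space of the question -/

lemma ext_fin3 {ν ν' : Measure (Fin 3)} [IsProbabilityMeasure ν] [IsProbabilityMeasure ν']
    (h1 : ν {1} = ν' {1}) (h2 : ν {2} = ν' {2}) : ν = ν' := by
  have hsum : ∀ (κ : Measure (Fin 3)) [IsProbabilityMeasure κ], κ {0} + (κ {1} + κ {2}) = 1 := by
    intro κ _
    have h3 : (Set.univ : Set (Fin 3)) = {0} ∪ {1} ∪ {2} := by
      ext a
      simp only [Set.mem_univ, Set.mem_union, Set.mem_singleton_iff, true_iff]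
      rcases ne_cases a with h | h | h <;> simp [h]
    rw [← add_assoc, ← measure_union _ (MeasurableSet.singleton 1), ← measure_union _ (MeasurableSet.singleton 2),
      ← h3, measure_univ]
    · rw [Set.disjoint_left]
      rintro d (h | h) h' <;> rw [Set.mem_singleton_iff] at h h' <;> rw [h] at h' <;> exact absurd h' (by decide)
    · rw [Set.disjoint_left]
      intro d h h'
      rw [Set.mem_singleton_iff] at h h'
      rw [h] at h'
      exact absurd h' (by decide)
  refine Measure.ext_of_singleton (fun a => ?_)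
  rcases ne_cases a with h | h | h
  · rw [h]
    have h3 := hsum ν
    have h4 := hsum ν'
    rw [← h4, ← h1, ← h2] at h3
    exact (ENNReal.add_left_inj (ENNReal.add_ne_top.mpr ⟨measure_ne_top _ _, measure_ne_top _ _⟩)).mp h3
  · rw [h, h1]
  · rw [h, h2]

variable {p : ℝ} {Ω : Type} [MeasurableSpace Ω] {P : Measure Ω} [IsProbabilityMeasure P]
  {c : ℤ × ℤ → Ω → Fin 3}

lemma Setting.map_apply (h : Setting p Ω P c) (x : ℤ × ℤ) (a : Fin 3) : P.map (c x) {a} = P {ω | c x ω = a} := by
  rw [Measure.map_apply (h.meas x) (MeasurableSet.singleton a)]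
  rfl

lemma Setting.isProb (h : Setting p Ω P c) (x : ℤ × ℤ) : IsProbabilityMeasure (P.map (c x)) :=
  Measure.isProbabilityMeasure_map (h.meas x).aemeasurable

lemma Setting.map_eq (h : Setting p Ω P c) : P.map (fun ω x => c x ω) = law (P.map (c 0)) := by
  rw [h.indep.map_fun_eq_infinitePi_map h.meas, law]
  congr 1
  funext x
  have := h.isProb x
  have := h.isProb 0
  apply ext_fin3
  · rw [h.map_apply, h.map_apply, (h.prob x).1, (h.prob 0).1]
  · rw [h.map_apply, h.map_apply, (h.prob x).2, (h.prob 0).2]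

lemma Setting.measD (h : Setting p Ω P c) : Measurable (fun ω x => c x ω) := measurable_pi_iff.mpr h.meas

lemma Setting.ae (h : Setting p Ω P c) {q : Conf → Prop} (hq : ∀ᵐ d ∂(law (P.map (c 0))), q d) :
    ∀ᵐ ω ∂P, q (fun x => c x ω) := by
  rw [← h.map_eq] at hq
  exact ae_of_ae_map h.measD.aemeasurable hq

lemma Setting.nu_a (h : Setting p Ω P c) : ((P.map (c 0)) {1}).toReal = p / 2 ∧ ((P.map (c 0)) {2}).toReal = p / 2 := by
  have := h.pos
  rw [h.map_apply, h.map_apply, (h.prob 0).1, (h.prob 0).2, ENNReal.toReal_ofReal (by positivity)]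
  exact ⟨rfl, rfl⟩

lemma Setting.nu_lt (h : Setting p Ω P c) : (P.map (c 0)) {1} < 1 ∧ (P.map (c 0)) {2} < 1 := by
  have h1 := h.pos
  have h2 := h.lt_one
  rw [h.map_apply, h.map_apply, (h.prob 0).1, (h.prob 0).2]
  have : ENNReal.ofReal (p / 2) < 1 := by
    rw [← ENNReal.ofReal_one]
    exact (ENNReal.ofReal_lt_ofReal_iff one_pos).mpr (by linarith)
  exact ⟨this, this⟩

lemma Setting.nu_zero (h : Setting p Ω P c) : ((P.map (c 0)) {0}).toReal = 1 - p := by
  have := h.isProb 0
  have h3 : (Set.univ : Set (Fin 3)) = {0} ∪ {1} ∪ {2} := by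
    ext a
    simp only [Set.mem_univ, Set.mem_union, Set.mem_singleton_iff, true_iff]
    rcases ne_cases a with h | h | h <;> simp [h]
  have h4 : (P.map (c 0)) {0} + (P.map (c 0)) {1} + (P.map (c 0)) {2} = 1 := by
    rw [← measure_union _ (MeasurableSet.singleton 1), ← measure_union _ (MeasurableSet.singleton 2),
      ← h3, measure_univ]
    · rw [Set.disjoint_left]
      rintro d (h | h) h' <;> rw [Set.mem_singleton_iff] at h h' <;> rw [h] at h' <;> exact absurd h' (by decide)
    · rw [Set.disjoint_left]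
      intro d h h'
      rw [Set.mem_singleton_iff] at h h'
      rw [h] at h'
      exact absurd h' (by decide)
  have h5 := congrArg ENNReal.toReal h4
  rw [ENNReal.toReal_add (ENNReal.add_ne_top.mpr ⟨measure_ne_top _ _, measure_ne_top _ _⟩) (measure_ne_top _ _),
    ENNReal.toReal_add (measure_ne_top _ _) (measure_ne_top _ _), h.nu_a.1, h.nu_a.2, ENNReal.toReal_one] at h5
  linarith

lemma moves_one {d : Conf} {x : ℤ × ℤ} (h : d x = 1) (t : ℕ) : moves d x t = movesE d x t := by
  unfold moves; rw [if_pos h]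

lemma moves_two {d : Conf} {x : ℤ × ℤ} (h : d x = 2) (t : ℕ) : moves d x t = movesN d x t := by
  unfold moves; rw [if_neg (by rw [h]; decide), if_pos h]

/-- zero-one law for the number of moves -/
lemma Setting.zero_one_moves (h : Setting p Ω P c) (a : Fin 3) (ha : a ≠ 0) (g : ℕ → ℝ) :
    ((∀ᵐ ω ∂P, ∀ x, c x ω = a → AtMost g (fun x => c x ω) x) ∨
      (∀ᵐ ω ∂P, ∀ x, c x ω = a → ¬ AtMost g (fun x => c x ω) x)) ∧
    ((∀ᵐ ω ∂P, ∀ x, c x ω = a → AtLeast g (fun x => c x ω) x) ∨
      (∀ᵐ ω ∂P, ∀ x, c x ω = a → ¬ AtLeast g (fun x => c x ω) x)) := by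
  have := h.isProb 0
  rcases ne_cases a with h0 | h1 | h2
  · exact absurd h0 ha
  · subst h1
    constructor
    · rcases zo_up (P.map (c 0)) kindE g with h3 | h3
      · left
        filter_upwards [h.ae h3] with ω hω x hx
        obtain ⟨C, hC⟩ := hω x hx
        exact ⟨C, fun t => by rw [moves_one hx]; exact hC t⟩
      · right
        filter_upwards [h.ae h3] with ω hω x hx
        rintro ⟨C, hC⟩
        exact hω x hx ⟨C, fun t => by have := hC t; rwa [moves_one hx] at this⟩
    · rcases zo_lo (P.map (c 0)) kindE g with h3 | h3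
      · left
        filter_upwards [h.ae h3] with ω hω x hx
        obtain ⟨C, hC⟩ := hω x hx
        exact ⟨C, fun t => by rw [moves_one hx]; exact hC t⟩
      · right
        filter_upwards [h.ae h3] with ω hω x hx
        rintro ⟨C, hC⟩
        exact hω x hx ⟨C, fun t => by have := hC t; rwa [moves_one hx] at this⟩
  · subst h2
    constructor
    · rcases zo_up (P.map (c 0)) kindN g with h3 | h3
      · left
        filter_upwards [h.ae h3] with ω hω x hx
        obtain ⟨C, hC⟩ := hω x hx
        exact ⟨C, fun t => by rw [moves_two hx]; exact hC t⟩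
      · right
        filter_upwards [h.ae h3] with ω hω x hx
        rintro ⟨C, hC⟩
        exact hω x hx ⟨C, fun t => by have := hC t; rwa [moves_two hx] at this⟩
    · rcases zo_lo (P.map (c 0)) kindN g with h3 | h3
      · left
        filter_upwards [h.ae h3] with ω hω x hx
        obtain ⟨C, hC⟩ := hω x hx
        exact ⟨C, fun t => by rw [moves_two hx]; exact hC t⟩
      · right
        filter_upwards [h.ae h3] with ω hω x hx
        rintro ⟨C, hC⟩
        exact hω x hx ⟨C, fun t => by have := hC t; rwa [moves_two hx] at this⟩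

/-- zero-one law for free flow -/
lemma Setting.zero_one_free (h : Setting p Ω P c) (a : Fin 3) (ha : a ≠ 0) :
    (∀ᵐ ω ∂P, ∀ x, c x ω = a → FreeFlow (fun x => c x ω) x) ∨
      (∀ᵐ ω ∂P, ∀ x, c x ω = a → ¬ FreeFlow (fun x => c x ω) x) := by
  by_cases hall : ∀ n : ℕ, ∀ᵐ ω ∂P, ∀ x, c x ω = a →
      AtLeast (fun t => (1 - 1 / ((n : ℝ) + 1)) * t) (fun x => c x ω) x
  · left
    filter_upwards [ae_all_iff.mpr hall] with ω hω x hx
    rw [freeFlow_iff]
    exact fun n => hω n x hx
  · right
    obtain ⟨n, hn⟩ := not_forall.mp hall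
    rcases (h.zero_one_moves a ha (fun t => (1 - 1 / ((n : ℝ) + 1)) * t)).2 with h1 | h1
    · exact absurd h1 hn
    · filter_upwards [h1] with ω hω x hx hf
      exact hω x hx (freeFlow_iff.mp hf n)

lemma jammed_iff {d : Conf} {x : ℤ × ℤ} : Jammed d x ↔ AtMost (fun _ => 0) d x := by
  constructor
  · rintro ⟨m, hm⟩
    exact ⟨m, fun t => by rw [zero_add]; exact_mod_cast hm t⟩
  · rintro ⟨m, hm⟩
    exact ⟨m, fun t => by have := hm t; rw [zero_add] at this; exact_mod_cast this⟩

/-- zero-one law for jamming, for all cars together -/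
lemma Setting.zero_one_jam (h : Setting p Ω P c) :
    (∀ᵐ ω ∂P, ∀ x, c x ω ≠ 0 → Jammed (fun x => c x ω) x) ∨
      (∀ᵐ ω ∂P, ∀ x, c x ω ≠ 0 → ¬ Jammed (fun x => c x ω) x) := by
  have := h.isProb 0
  have hinf1 : ∀ᵐ ω ∂P, ∀ r m : ℤ, ∃ n, m ≤ n ∧ ¬ c (n, r) ω = 1 := by
    have h1 : ∀ᵐ d ∂(law (P.map (c 0))), ∀ r m : ℤ, ∃ n : ℤ, m ≤ n ∧ ¬ d (n, r) = 1 := by
      rw [ae_all_iff]
      intro r
      filter_upwards [infinitely_many (P.map (c 0)) h.nu_lt.1 ((0, r) : ℤ × ℤ) (by decide : ((1, 0) : ℤ × ℤ) ≠ 0)]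
        with d hd m
      obtain ⟨n, hn, hne⟩ := hd m
      refine ⟨n, hn, ?_⟩
      have he : ((0, r) : ℤ × ℤ) + n • ((1, 0) : ℤ × ℤ) = (n, r) := by ext <;> simp
      rwa [he] at hne
    exact h.ae h1
  have hinf2 : ∀ᵐ ω ∂P, ∀ r m : ℤ, ∃ n, m ≤ n ∧ ¬ c (r, n) ω = 2 := by
    have h1 : ∀ᵐ d ∂(law (P.map (c 0))), ∀ r m : ℤ, ∃ n : ℤ, m ≤ n ∧ ¬ d (r, n) = 2 := by
      rw [ae_all_iff]
      intro r
      filter_upwards [infinitely_many (P.map (c 0)) h.nu_lt.2 ((r, 0) : ℤ × ℤ) (by decide : ((0, 1) : ℤ × ℤ) ≠ 0)]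
        with d hd m
      obtain ⟨n, hn, hne⟩ := hd m
      refine ⟨n, hn, ?_⟩
      have he : ((r, 0) : ℤ × ℤ) + n • ((0, 1) : ℤ × ℤ) = (r, n) := by ext <;> simp
      rwa [he] at hne
    exact h.ae h1
  -- a jammed car of one type gives one of the other type
  have hEN : ∀ᵐ ω ∂P, (∃ x, c x ω = 1 ∧ Jammed (fun x => c x ω) x) → ∃ x, c x ω = 2 ∧ Jammed (fun x => c x ω) x := by
    filter_upwards [hinf1] with ω hω
    rintro ⟨x, hx, m, hm⟩
    obtain ⟨y, hy, m', hm'⟩ := jamN_exists (d := fun x => c x ω) hω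
      ⟨x, hx, m, fun t => by have := hm t; rwa [moves_one (d := fun x => c x ω) hx] at this⟩
    exact ⟨y, hy, m', fun t => by rw [moves_two (d := fun x => c x ω) hy]; exact hm' t⟩
  have hNE : ∀ᵐ ω ∂P, (∃ x, c x ω = 2 ∧ Jammed (fun x => c x ω) x) → ∃ x, c x ω = 1 ∧ Jammed (fun x => c x ω) x := by
    filter_upwards [hinf2] with ω hω
    rintro ⟨x, hx, m, hm⟩
    obtain ⟨y, hy, m', hm'⟩ := jamE_exists (d := fun x => c x ω) hω
      ⟨x, hx, m, fun t => by have := hm t; rwa [moves_two (d := fun x => c x ω) hx] at this⟩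
    exact ⟨y, hy, m', fun t => by rw [moves_one (d := fun x => c x ω) hy]; exact hm' t⟩
  have hz : ∀ a : Fin 3, a ≠ 0 → (∀ᵐ ω ∂P, ∀ x, c x ω = a → Jammed (fun x => c x ω) x) ∨
      (∀ᵐ ω ∂P, ∀ x, c x ω = a → ¬ Jammed (fun x => c x ω) x) := by
    intro a ha
    simp_rw [jammed_iff]
    exact (h.zero_one_moves a ha (fun _ => 0)).1
  -- existence of cars
  have hex : ∀ a : Fin 3, a ≠ 0 → ¬ ∀ᵐ ω ∂P, ∀ x, ¬ c x ω = a := by
    intro a ha hcon
    have h1 : P {ω | c 0 ω = a} = 0 := by
      have : {ω | ¬ ∀ x, ¬ c x ω = a} ⊇ {ω | c 0 ω = a} := by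
        intro ω hω
        simp only [Set.mem_ofPred_eq, not_forall, not_not] at hω ⊢
        exact ⟨0, hω⟩
      exact measure_mono_null this (ae_iff.mp hcon)
    have h2 := h.pos
    have h3 : ENNReal.ofReal (p / 2) ≠ 0 := by
      rw [Ne, ENNReal.ofReal_eq_zero, not_le]; positivity
    rcases ne_cases a with h0 | h0 | h0
    · exact ha h0
    · rw [h0, (h.prob 0).1] at h1; exact h3 h1
    · rw [h0, (h.prob 0).2] at h1; exact h3 h1
  rcases hz 1 (by decide) with h1 | h1 <;> rcases hz 2 (by decide) with h2 | h2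
  · left
    filter_upwards [h1, h2] with ω hω1 hω2 x hx
    rcases ne_cases (c x ω) with h0 | h0 | h0
    · exact absurd h0 hx
    · exact hω1 x h0
    · exact hω2 x h0
  · exfalso
    apply hex 1 (by decide)
    filter_upwards [h1, h2, hEN] with ω hω1 hω2 hω3 x hx
    obtain ⟨y, hy, hj⟩ := hω3 ⟨x, hx, hω1 x hx⟩
    exact hω2 y hy hj
  · exfalso
    apply hex 2 (by decide)
    filter_upwards [h1, h2, hNE] with ω hω1 hω2 hω3 x hx
    obtain ⟨y, hy, hj⟩ := hω3 ⟨x, hx, hω2 x hx⟩
    exact hω1 y hy hj
  · right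
    filter_upwards [h1, h2] with ω hω1 hω2 x hx
    rcases ne_cases (c x ω) with h0 | h0 | h0
    · exact absurd h0 hx
    · exact hω1 x h0
    · exact hω2 x h0

/-- no lower bound on the speed above `2 (1 - p) / p` -/
lemma Setting.slow (h : Setting p Ω P c) (a : Fin 3) (ha : a ≠ 0) (q : ℝ) (hq : 2 * (1 - p) / p < q) :
    ∀ᵐ ω ∂P, ∀ x, c x ω = a → ¬ AtLeast (fun t => q * t) (fun x => c x ω) x := by
  have := h.isProb 0
  have hp := h.pos
  have hq' : 1 - p < q * (p / 2) := by
    rw [div_lt_iff₀ hp] at hq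
    linarith
  rcases ne_cases a with h0 | h1 | h2
  · exact absurd h0 ha
  · subst h1
    rcases zo_lo (P.map (c 0)) kindE (fun t => q * t) with h3 | h3
    · exfalso
      have h4 := speed_bound (P.map (c 0)) kindE (fun t => (move_prob (P.map (c 0)) t).1) q h3
      rw [h.nu_a.1, h.nu_zero] at h4
      linarith
    · filter_upwards [h.ae h3] with ω hω x hx
      rintro ⟨C, hC⟩
      exact hω x hx ⟨C, fun t => by have := hC t; rwa [moves_one (d := fun x => c x ω) hx] at this⟩
  · subst h2
    rcases zo_lo (P.map (c 0)) kindN (fun t => q * t) with h3 | h3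
    · exfalso
      have h4 := speed_bound (P.map (c 0)) kindN (fun t => (move_prob (P.map (c 0)) t).2) q h3
      rw [h.nu_a.2, h.nu_zero] at h4
      linarith
    · filter_upwards [h.ae h3] with ω hω x hx
      rintro ⟨C, hC⟩
      exact hω x hx ⟨C, fun t => by have := hC t; rwa [moves_two (d := fun x => c x ω) hx] at this⟩

end Transfer

section Speed

variable {p : ℝ} {Ω : Type} [MeasurableSpace Ω] {P : Measure Ω} [IsProbabilityMeasure P]
  {c : ℤ × ℤ → Ω → Fin 3}

lemma mean_law (ν : Measure (Fin 3)) [IsProbabilityMeasure ν] {a : Fin 3} {u : ℤ × ℤ}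
    {M : Conf → ℤ × ℤ → ℕ → ℕ} (hK : Kind a u M)
    (hmove : ∀ t, law ν {d | d 0 = a ∧ M d 0 (t + 1) = M d 0 t + 1} ≤ ν {0}) (x : ℤ × ℤ) (t : ℕ) :
    ∫⁻ d, Set.indicator {d : Conf | d x = a} (fun d => (M d x t : ℝ≥0∞)) d ∂(law ν) ≤ t * ν {0} := by
  refine le_trans (le_of_eq ?_) (lintegral_le ν hK hmove t)
  conv_rhs => rw [← map_shift ν x]
  rw [lintegral_map _ (measurable_shift x)]
  · refine lintegral_congr (fun d => ?_)
    by_cases h : d x = a
    · have h1 : d ∈ {d : Conf | d x = a} := h
      have h2 : shift x d ∈ {d : Conf | d 0 = a} := by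
        show d (0 + x) = a
        rw [zero_add]; exact h
      rw [Set.indicator_of_mem h1, Set.indicator_of_mem h2, hK.shift, zero_add]
    · have h1 : d ∉ {d : Conf | d x = a} := h
      have h2 : shift x d ∉ {d : Conf | d 0 = a} := by
        show ¬ d (0 + x) = a
        rw [zero_add]; exact h
      rw [Set.indicator_of_notMem h1, Set.indicator_of_notMem h2]
  · exact (measurable_from_nat.comp (hK.meas 0 t)).indicator (meas_eq 0 a)

/-- the mean number of moves of a car of type `a` -/
lemma Setting.mean (h : Setting p Ω P c) (a : Fin 3) (ha : a ≠ 0) (x : ℤ × ℤ) (t : ℕ) :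
    ∫⁻ ω in {ω | c x ω = a}, (moves (fun x => c x ω) x t : ℝ≥0∞) ∂P ≤ ENNReal.ofReal ((1 - p) * t) := by
  have := h.isProb 0
  have hp := h.lt_one
  have hz : (P.map (c 0)) {0} = ENNReal.ofReal (1 - p) := by
    rw [← h.nu_zero, ENNReal.ofReal_toReal (measure_ne_top _ _)]
  have hset : MeasurableSet {ω | c x ω = a} := measurableSet_eq_fun (h.meas x) measurable_const
  have key : ∀ (u : ℤ × ℤ) (M : Conf → ℤ × ℤ → ℕ → ℕ) (hK : Kind a u M)
      (hmove : ∀ t, law (P.map (c 0)) {d | d 0 = a ∧ M d 0 (t + 1) = M d 0 t + 1} ≤ (P.map (c 0)) {0})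
      (hmv : ∀ (d : Conf), d x = a → moves d x t = M d x t),
      ∫⁻ ω in {ω | c x ω = a}, (moves (fun x => c x ω) x t : ℝ≥0∞) ∂P ≤ ENNReal.ofReal ((1 - p) * t) := by
    intro u M hK hmove hmv
    have h1 := mean_law (P.map (c 0)) hK hmove x t
    have hmM : Measurable (fun d => (M d x t : ℝ≥0∞)) := measurable_from_nat.comp (hK.meas x t)
    rw [← h.map_eq, lintegral_map (hmM.indicator (meas_eq x a)) h.measD] at h1
    rw [← lintegral_indicator hset]
    refine le_trans (le_of_eq ?_) (h1.trans ?_)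
    · refine lintegral_congr (fun ω => ?_)
      by_cases hx : c x ω = a
      · have h2 : ω ∈ {ω | c x ω = a} := hx
        have h3 : (fun x => c x ω) ∈ {d : Conf | d x = a} := hx
        rw [Set.indicator_of_mem h2, Set.indicator_of_mem h3, hmv _ hx]
      · have h2 : ω ∉ {ω | c x ω = a} := hx
        have h3 : (fun x => c x ω) ∉ {d : Conf | d x = a} := hx
        rw [Set.indicator_of_notMem h2, Set.indicator_of_notMem h3]
    · rw [hz, mul_comm (1 - p), ENNReal.ofReal_mul (by positivity), ENNReal.ofReal_natCast]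
  rcases ne_cases a with h0 | h1 | h2
  · exact absurd h0 ha
  · subst h1
    exact key _ _ kindE (fun t => (move_prob (P.map (c 0)) t).1) (fun d hd => moves_one hd t)
  · subst h2
    exact key _ _ kindN (fun t => (move_prob (P.map (c 0)) t).2) (fun d hd => moves_two hd t)

/-- almost surely no car has a speed above `2 (1 - p) / p`, even as a lower bound -/
lemma Setting.slow_all (h : Setting p Ω P c) : ∀ᵐ ω ∂P, ∀ x, c x ω ≠ 0 → ∀ q : ℝ, 2 * (1 - p) / p < q →
    ∀ C : ℝ, ∃ t : ℕ, (moves (fun x => c x ω) x t : ℝ) < q * t - C := by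
  have h1 : ∀ᵐ ω ∂P, ∀ (a : Fin 3) (q : ℚ), a ≠ 0 → 2 * (1 - p) / p < q → ∀ x, c x ω = a →
      ¬ AtLeast (fun t => (q : ℝ) * t) (fun x => c x ω) x := by
    rw [ae_all_iff]
    intro a
    rw [ae_all_iff]
    intro q
    by_cases ha : a = 0
    · exact Eventually.of_forall (fun ω h0 => absurd ha h0)
    · by_cases hq : 2 * (1 - p) / p < q
      · filter_upwards [h.slow a ha q hq] with ω hω _ _
        exact hω
      · exact Eventually.of_forall (fun ω _ h0 => absurd h0 hq)
  filter_upwards [h1] with ω hω x hx q hq C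
  obtain ⟨r, hr1, hr2⟩ := exists_rat_btwn hq
  by_contra hcon
  push Not at hcon
  apply hω (c x ω) r hx hr1 x rfl
  obtain ⟨n, hn⟩ := exists_nat_ge C
  refine ⟨n, fun t => ?_⟩
  have h2 := hcon t
  have h3 : (r : ℝ) * t ≤ q * t := mul_le_mul_of_nonneg_right hr2.le (by positivity)
  simp only
  linarith

/-- no free flow for `p > 2/3` -/
lemma Setting.no_free (h : Setting p Ω P c) (hp : 2 / 3 < p) :
    ∀ᵐ ω ∂P, ∀ x, c x ω ≠ 0 → ¬ FreeFlow (fun x => c x ω) x := by
  have hp1 := h.lt_one
  have hp0 := h.pos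
  have hq : 2 * (1 - p) / p < 1 := by
    rw [div_lt_one hp0]; linarith
  obtain ⟨q, hq1, hq2⟩ := exists_between hq
  filter_upwards [h.slow_all] with ω hω x hx hf
  unfold FreeFlow at hf
  have h1 := hf.eventually (lt_mem_nhds hq2)
  obtain ⟨T, hT⟩ := eventually_atTop.mp h1
  have hq0 : 0 ≤ q := by
    have : 0 ≤ 2 * (1 - p) / p := div_nonneg (by linarith) hp0.le
    linarith
  obtain ⟨t, ht⟩ := hω x hx q hq1 (q * T)
  by_cases htT : T ≤ t
  · by_cases ht0 : t = 0
    · subst ht0
      have h2 : (0 : ℝ) ≤ moves (fun x => c x ω) x 0 := by positivity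
      have h3 : 0 ≤ q * (T : ℝ) := by positivity
      simp only [Nat.cast_zero, mul_zero] at ht
      linarith
    · have h2 := hT t htT
      have h3 : (0 : ℝ) < t := by exact_mod_cast Nat.pos_of_ne_zero ht0
      rw [lt_div_iff₀ h3] at h2
      have h4 : 0 ≤ q * (T : ℝ) := by positivity
      linarith
  · have h2 : (t : ℝ) ≤ T := by exact_mod_cast (by omega : t ≤ T)
    have h3 : (0 : ℝ) ≤ moves (fun x => c x ω) x t := by positivity
    nlinarith

end Speed

end Pool.Agent.Lib.MP_64a6bd_pr
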