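import Mathlib

/-!
# The traffic model: definitions
-/

open MeasureTheory Filter ProbabilityTheory
open scoped Topology

namespace Pool.Agent.Lib.MP_64a6bd_pr

/-- Configurations: `0` empty, `1` an east-facing car, `2` a north-facing car. -/
abbrev Conf : Type := ℤ × ℤ → Fin 3

/-- The east phase. -/
def stepE (d : Conf) : Conf := fun x =>
  if d x = 1 ∧ d (x.1 + 1, x.2) = 0 then 0
  else if d x = 0 ∧ d (x.1 - 1, x.2) = 1 then 1 else d x

/-- The north phase. -/
def stepN (d : Conf) : Conf := fun x =>
  if d x = 2 ∧ d (x.1, x.2 + 1) = 0 then 0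
  else if d x = 0 ∧ d (x.1, x.2 - 1) = 2 then 2 else d x

/-- The configuration after `t` cycles, started from `d`. -/
def state (d : Conf) : ℕ → Conf
  | 0 => d
  | t + 1 => stepN (stepE (state d t))

/-- The number of moves of an east-facing car started at `x` during the first `t` cycles. -/
def movesE (d : Conf) (x : ℤ × ℤ) : ℕ → ℕ
  | 0 => 0
  | t + 1 => movesE d x t + if state d t (x.1 + movesE d x t + 1, x.2) = 0 then 1 else 0

/-- The number of moves of a north-facing car started at `x` during the first `t` cycles. -/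
def movesN (d : Conf) (x : ℤ × ℤ) : ℕ → ℕ
  | 0 => 0
  | t + 1 => movesN d x t + if stepE (state d t) (x.1, x.2 + movesN d x t + 1) = 0 then 1 else 0

/-- The number of moves of the car started at `x` during the first `t` cycles (`0` if there is no car at `x`). -/
def moves (d : Conf) (x : ℤ × ℤ) (t : ℕ) : ℕ :=
  if d x = 1 then movesE d x t else if d x = 2 then movesN d x t else 0

/-- The car started at `x` makes only finitely many moves. -/
def Jammed (d : Conf) (x : ℤ × ℤ) : Prop := ∃ m : ℕ, ∀ t, moves d x t ≤ m

/-- The car started at `x` has the free-flow limiting velocity. -/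
def FreeFlow (d : Conf) (x : ℤ × ℤ) : Prop := Tendsto (fun t : ℕ => (moves d x t : ℝ) / t) atTop (𝓝 1)

/-- The car started at `x` makes at most `g t + C` moves in `t` cycles, for some `C`. -/
def AtMost (g : ℕ → ℝ) (d : Conf) (x : ℤ × ℤ) : Prop := ∃ C : ℕ, ∀ t, (moves d x t : ℝ) ≤ g t + C

/-- The car started at `x` makes at least `g t - C` moves in `t` cycles, for some `C`. -/
def AtLeast (g : ℕ → ℝ) (d : Conf) (x : ℤ × ℤ) : Prop := ∃ C : ℕ, ∀ t, g t ≤ (moves d x t : ℝ) + C

/-- The setting of the question: the sites are occupied independently with probability `p`, and a car faces east (`1`)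
or north (`2`) with probability `1/2` each. -/
structure Setting (p : ℝ) (Ω : Type) [MeasurableSpace Ω] (P : Measure Ω) (c : ℤ × ℤ → Ω → Fin 3) : Prop where
  pos : 0 < p
  lt_one : p < 1
  meas : ∀ x, Measurable (c x)
  indep : iIndepFun c P
  prob : ∀ x, P {ω | c x ω = 1} = ENNReal.ofReal (p / 2) ∧ P {ω | c x ω = 2} = ENNReal.ofReal (p / 2)

end Pool.Agent.Lib.MP_64a6bd_pr
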