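import Pool.Agent.Lib.MP_64a6bd_pr.Core

/-!
# The traffic model: logarithmic delays
-/

open MeasureTheory Filter ProbabilityTheory
open scoped ENNReal Topology

namespace Pool.Agent.Lib.MP_64a6bd_pr

section Follow

/-! ### Restarting the dynamics -/

lemma state_add (d : Conf) (t s : ℕ) : state d (t + s) = state (state d t) s := by
  induction s with
  | zero => rfl
  | succ s ih => rw [← add_assoc, state, state, ih]

lemma addE (x : ℤ × ℤ) (k : ℕ) : x + k • ((1, 0) : ℤ × ℤ) = (x.1 + k, x.2) := by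
  ext <;> simp

lemma addN (x : ℤ × ℤ) (k : ℕ) : x + k • ((0, 1) : ℤ × ℤ) = (x.1, x.2 + k) := by
  ext <;> simp

lemma movesE_add (d : Conf) (x : ℤ × ℤ) (t s : ℕ) : movesE d x (t + s) =
    movesE d x t + movesE (state d t) (x + movesE d x t • ((1, 0) : ℤ × ℤ)) s := by
  rw [addE]
  induction s with
  | zero => simp [movesE]
  | succ s ih =>
    rw [← add_assoc, movesE, movesE, ih, state_add, add_assoc]
    congr 3
    have h1 : ((x.1 + ((movesE d x t + movesE (state d t) (x.1 + movesE d x t, x.2) s : ℕ) : ℤ) + 1,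
        x.2) : ℤ × ℤ) = (x.1 + movesE d x t + (movesE (state d t) (x.1 + movesE d x t, x.2) s : ℤ) + 1, x.2) := by
      ext
      · simp only; push_cast; ring
      · rfl
    rw [h1]

lemma movesN_add (d : Conf) (x : ℤ × ℤ) (t s : ℕ) : movesN d x (t + s) =
    movesN d x t + movesN (state d t) (x + movesN d x t • ((0, 1) : ℤ × ℤ)) s := by
  rw [addN]
  induction s with
  | zero => simp [movesN]
  | succ s ih =>
    rw [← add_assoc, movesN, movesN, ih, state_add, add_assoc]
    congr 3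
    have h1 : ((x.1, x.2 + ((movesN d x t + movesN (state d t) (x.1, x.2 + movesN d x t) s : ℕ) : ℤ) + 1) :
        ℤ × ℤ) = (x.1, x.2 + movesN d x t + (movesN (state d t) (x.1, x.2 + movesN d x t) s : ℤ) + 1) := by
      ext
      · rfl
      · simp only; push_cast; ring
    rw [h1]

/-- a kind of cars that can be followed in both directions of time -/
structure Track (a : Fin 3) (u : ℤ × ℤ) (M : Conf → ℤ × ℤ → ℕ → ℕ) : Prop extends Kind a u M where
  pos : ∀ (d : Conf) (x : ℤ × ℤ), d x = a → ∀ t, state d t (x + M d x t • u) = a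
  origin : ∀ (d : Conf) (t : ℕ) (y : ℤ × ℤ), state d t y = a → ∃ x, d x = a ∧ x + M d x t • u = y
  add : ∀ d x t s, M d x (t + s) = M d x t + M (state d t) (x + M d x t • u) s

lemma trackE : Track 1 (1, 0) movesE where
  toKind := kindE
  pos := fun d x hx t => by
    have h1 := (carE hx t).1
    have h2 : ((x.1 + movesE d x t, x.2) : ℤ × ℤ) = x + movesE d x t • ((1, 0) : ℤ × ℤ) := by
      ext <;> simp
    rwa [h2] at h1
  origin := fun d t y hy => by
    obtain ⟨x, hx, h1, h2⟩ := originE t y hy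
    refine ⟨x, hx, ?_⟩
    ext
    · simpa using h2
    · simpa using h1
  add := movesE_add

lemma trackN : Track 2 (0, 1) movesN where
  toKind := kindN
  pos := fun d x hx t => by
    have h1 := (carN hx t).1
    have h2 : ((x.1, x.2 + movesN d x t) : ℤ × ℤ) = x + movesN d x t • ((0, 1) : ℤ × ℤ) := by
      ext <;> simp
    rwa [h2] at h1
  origin := fun d t y hy => by
    obtain ⟨x, hx, h1, h2⟩ := originN t y hy
    refine ⟨x, hx, ?_⟩
    ext
    · simpa using h1
    · simpa using h2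
  add := movesN_add

lemma Kind.add_le {a : Fin 3} {u : ℤ × ℤ} {M : Conf → ℤ × ℤ → ℕ → ℕ} (hK : Kind a u M) (d : Conf) (x : ℤ × ℤ)
    (t s : ℕ) : M d x t ≤ M d x (t + s) ∧ M d x (t + s) ≤ M d x t + s := by
  induction s with
  | zero => simp
  | succ s ih =>
    rw [← add_assoc]
    rcases hK.succ d x (t + s) with h | h <;> omega

lemma Kind.le {a : Fin 3} {u : ℤ × ℤ} {M : Conf → ℤ × ℤ → ℕ → ℕ} (hK : Kind a u M) (d : Conf) (x : ℤ × ℤ)
    (t : ℕ) : M d x t ≤ t := by
  have h1 := (hK.add_le d x 0 t).2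
  rw [hK.zero, zero_add] at h1
  omega

/-- a car that is not blocked during `k` cycles is not blocked earlier -/
lemma Kind.early {a : Fin 3} {u : ℤ × ℤ} {M : Conf → ℤ × ℤ → ℕ → ℕ} (hK : Kind a u M) {d : Conf} {x : ℤ × ℤ}
    {k i : ℕ} (h : M d x k = k) (hi : i ≤ k) : M d x i = i := by
  obtain ⟨j, rfl⟩ := Nat.exists_eq_add_of_le hi
  have h1 := (hK.add_le d x i j).2
  have h2 := hK.le d x i
  omega

/-! ### Two cars of different kinds on an antidiagonal -/

lemma collide (d : Conf) (x : ℤ × ℤ) (k : ℕ) (hk : 0 < k) (hx : d x = 1) (hy : d (x + k • ((1, -1) : ℤ × ℤ)) = 2)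
    (h1 : movesE d x k = k) (h2 : movesN d (x + k • ((1, -1) : ℤ × ℤ)) k = k) : False := by
  obtain ⟨m, rfl⟩ : ∃ m, k = m + 1 := ⟨k - 1, by omega⟩
  have h3 : movesN d (x + (m + 1) • ((1, -1) : ℤ × ℤ)) m = m := kindN.early h2 (by omega)
  have h4 := (carE hx m).2
  rw [h1] at h4
  rw [movesN, if_neg, h3] at h2
  · omega
  · rw [h3]
    have h5 : (((x + (m + 1) • ((1, -1) : ℤ × ℤ)).1, (x + (m + 1) • ((1, -1) : ℤ × ℤ)).2 + m + 1) : ℤ × ℤ) =
        (x.1 + ((m + 1 : ℕ) : ℤ), x.2) := by
      ext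
      · simp
      · simp; ring
    rw [h5, h4]
    decide

/-- a car of kind `a` at `x` and a car of kind `b` at `x + k w` cannot both be unblocked for `k` cycles -/
def Meet (a b : Fin 3) (M M' : Conf → ℤ × ℤ → ℕ → ℕ) (w : ℤ × ℤ) : Prop :=
  ∀ (d : Conf) (x : ℤ × ℤ) (k : ℕ), 0 < k → d x = a → d (x + k • w) = b → M d x k = k → M' d (x + k • w) k = k → False

lemma meetEN : Meet 1 2 movesE movesN (1, -1) := fun d x k hk hx hy h1 h2 => collide d x k hk hx hy h1 h2

lemma meetNE : Meet 2 1 movesN movesE (-1, 1) := by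
  intro d x k hk hx hy h1 h2
  have he : x + k • ((-1, 1) : ℤ × ℤ) + k • ((1, -1) : ℤ × ℤ) = x := by
    rw [add_assoc, ← smul_add]
    simp
  exact collide d (x + k • ((-1, 1) : ℤ × ℤ)) k hk hy (by rw [he]; exact hx) h2 (by rw [he]; exact h1)

/-! ### Finite range -/

/-- the box of radius `t` around `x` -/
noncomputable def box (x : ℤ × ℤ) (t : ℕ) : Finset (ℤ × ℤ) := Finset.Icc (x.1 - t) (x.1 + t) ×ˢ Finset.Icc (x.2 - t) (x.2 + t)

lemma mem_box {x y : ℤ × ℤ} {t : ℕ} : y ∈ box x t ↔ (x.1 - t ≤ y.1 ∧ y.1 ≤ x.1 + t) ∧ (x.2 - t ≤ y.2 ∧ y.2 ≤ x.2 + t) := by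
  unfold box
  rw [Finset.mem_product, Finset.mem_Icc, Finset.mem_Icc]

lemma stepE_congr {d d' : Conf} {x : ℤ × ℤ} (h0 : d x = d' x) (h1 : d (x.1 + 1, x.2) = d' (x.1 + 1, x.2))
    (h2 : d (x.1 - 1, x.2) = d' (x.1 - 1, x.2)) : stepE d x = stepE d' x := by
  unfold stepE
  rw [h0, h1, h2]

lemma stepN_congr {d d' : Conf} {x : ℤ × ℤ} (h0 : d x = d' x) (h1 : d (x.1, x.2 + 1) = d' (x.1, x.2 + 1))
    (h2 : d (x.1, x.2 - 1) = d' (x.1, x.2 - 1)) : stepN d x = stepN d' x := by
  unfold stepN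
  rw [h0, h1, h2]

lemma state_local (d d' : Conf) (t : ℕ) : ∀ x, (∀ y ∈ box x t, d y = d' y) → state d t x = state d' t x := by
  induction t with
  | zero =>
    intro x h
    exact h x (mem_box.mpr (by simp))
  | succ t ih =>
    intro x h
    have key : ∀ e : ℤ × ℤ, (x.1 - 1 ≤ e.1 ∧ e.1 ≤ x.1 + 1) ∧ (x.2 - 1 ≤ e.2 ∧ e.2 ≤ x.2 + 1) →
        state d t e = state d' t e := by
      intro e he
      refine ih e (fun y hy => h y ?_)
      rw [mem_box] at hy ⊢
      push_cast
      omega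
    have key2 : ∀ e : ℤ × ℤ, e.1 = x.1 ∧ (x.2 - 1 ≤ e.2 ∧ e.2 ≤ x.2 + 1) →
        stepE (state d t) e = stepE (state d' t) e := by
      intro e he
      exact stepE_congr (key e (by omega)) (key _ (by simp only; omega)) (key _ (by simp only; omega))
    have a1 : x.2 - 1 ≤ x.2 + 1 := by omega
    have a2 : x.2 - 1 ≤ x.2 ∧ x.2 ≤ x.2 + 1 := by omega
    exact stepN_congr (key2 x ⟨rfl, a2⟩) (key2 (x.1, x.2 + 1) ⟨rfl, a1, le_rfl⟩) (key2 (x.1, x.2 - 1) ⟨rfl, le_rfl, a1⟩)

end Follow

section Indep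

variable (ν : Measure (Fin 3)) [IsProbabilityMeasure ν]

/-! ### Independence at a distance -/

/-- extension by empty sites -/
noncomputable def fill (S : Finset (ℤ × ℤ)) (e : S → Fin 3) : Conf := by
  classical
  exact fun x => if h : x ∈ S then e ⟨x, h⟩ else 0

lemma state_ext (d : Conf) (t : ℕ) (x : ℤ × ℤ) : state d t x = state (fill (box x t) (fun i => d i)) t x := by
  refine state_local _ _ t x (fun y hy => ?_)
  simp only [fill, hy, dif_pos]

lemma indep_state (t : ℕ) (x y : ℤ × ℤ) (a b : Fin 3) (hxy : Disjoint (box x t) (box y t)) :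
    law ν ({d | state d t x = a} ∩ {d | state d t y = b}) = law ν {d | state d t x = a} * law ν {d | state d t y = b} := by
  have h0 : iIndepFun (fun (i : ℤ × ℤ) (d : Conf) => d i) (law ν) := by
    have := iIndepFun_infinitePi (P := fun _ : ℤ × ℤ => ν) (X := fun _ a => a) (fun _ => measurable_id)
    exact this
  have h1 := h0.indepFun_finset (box x t) (box y t) hxy (fun i => measurable_pi_apply i)
  have h2 := h1.measure_inter_preimage_eq_mul {e | state (fill (box x t) e) t x = a}
    {e | state (fill (box y t) e) t y = b} (Set.toFinite _).measurableSet (Set.toFinite _).measurableSet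
  have h3 : ∀ (z : ℤ × ℤ) (c : Fin 3), (fun (d : Conf) (i : box z t) => d i) ⁻¹' {e | state (fill (box z t) e) t z = c} =
      {d | state d t z = c} := by
    intro z c
    ext d
    simp only [Set.mem_preimage, Set.mem_ofPred_eq]
    rw [state_ext d t z]
  rwa [h3, h3] at h2

end Indep

section Blocks

variable (ν : Measure (Fin 3)) [IsProbabilityMeasure ν] {a : Fin 3} {u : ℤ × ℤ} {M : Conf → ℤ × ℤ → ℕ → ℕ}

/-! ### Blocked cars at a site and along the cars -/

/-- mass transport in the other direction: every car at the origin comes from somewhere -/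
lemma transport_ge (hK : Track a u M) (t : ℕ) (W : Conf → ℤ × ℤ → Prop) (hWm : ∀ x, MeasurableSet {d | W d x})
    (hWs : ∀ v d x, W (shift v d) x ↔ W d (x + v)) (hW : ∀ d, W d 0 → state d t 0 = a) :
    law ν {d | W d 0} ≤ law ν {d | d 0 = a ∧ W d (M d 0 t • u)} := by
  set A : ℕ → Set Conf := fun k => {d | d 0 = a ∧ M d 0 t = k ∧ W d (k • u)} with hA
  set B : ℕ → Set Conf := fun k => {d | d (-(k • u)) = a ∧ M d (-(k • u)) t = k ∧ W d 0} with hB
  have hAm : ∀ k, MeasurableSet (A k) := fun k =>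
    (meas_eq 0 a).inter ((measurableSet_eq_fun (hK.meas 0 t) measurable_const).inter (hWm _))
  have hAB : ∀ k, law ν (A k) = law ν (B k) := by
    intro k
    rw [← law_shift ν (-(k • u)) (hAm k)]
    congr 1
    ext d
    simp only [hA, hB, Set.mem_preimage, Set.mem_ofPred_eq]
    rw [hK.shift, hWs, zero_add, add_neg_cancel]
    have : shift (-(k • u)) d 0 = d (-(k • u)) := by simp [shift]
    rw [this]
  have hAd : Pairwise (Function.onFun Disjoint A) := by
    intro i j hij
    rw [Function.onFun, Set.disjoint_left]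
    rintro d ⟨_, h1, _⟩ ⟨_, h2, _⟩
    exact hij (h1.symm.trans h2)
  have hU : {d | d 0 = a ∧ W d (M d 0 t • u)} = ⋃ k, A k := by
    ext d
    simp only [hA, Set.mem_ofPred_eq, Set.mem_iUnion]
    constructor
    · rintro ⟨h1, h2⟩; exact ⟨_, h1, rfl, h2⟩
    · rintro ⟨k, h1, h2, h3⟩; exact ⟨h1, by rw [h2]; exact h3⟩
  rw [hU, measure_iUnion hAd hAm]
  simp_rw [hAB]
  refine le_trans (measure_mono ?_) (measure_iUnion_le B)
  intro d hd
  obtain ⟨x, hx, h1⟩ := hK.origin d t 0 (hW d hd)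
  have h2 : x = -(M d x t • u) := eq_neg_of_add_eq_zero_left h1
  refine Set.mem_iUnion.mpr ⟨M d x t, ?_, ?_, hd⟩
  · rw [← h2]; exact hx
  · rw [← h2]

lemma meas_movesAt (hK : Kind a u M) (t : ℕ) (x : ℤ × ℤ) (k m : ℕ) :
    MeasurableSet {d : Conf | M (state d t) x k = m} :=
  measurableSet_eq_fun ((hK.meas x k).comp (measurable_state t)) measurable_const

lemma meas_density (hK : Track a u M) (t : ℕ) : ν {a} ≤ law ν {d | state d t 0 = a} := by
  have h := transport ν a u (fun d x => M d x t) (fun x => hK.meas x t) (fun v d x => hK.shift v d x t)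
    (fun d x k hk h => hK.order d x k hk h t) (fun d y => state d t y = a) (fun x => meas_state t x a)
    (fun v d x => by rw [state_shift]; rfl)
  refine le_trans (le_of_eq ?_) h
  rw [← law_one ν 0 a]
  congr 1
  ext d
  simp only [Set.mem_ofPred_eq]
  refine ⟨fun h1 => ⟨h1, ?_⟩, fun h1 => h1.1⟩
  have := hK.pos d 0 h1 t
  rwa [zero_add] at this

/-- the event that the car at the origin is of kind `a` and is blocked between times `t` and `t + k` -/
def Blk (a : Fin 3) (M : Conf → ℤ × ℤ → ℕ → ℕ) (t k : ℕ) : Set Conf := {d | d 0 = a ∧ M d 0 (t + k) ≠ M d 0 t + k}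

lemma meas_Blk (hK : Kind a u M) (t k : ℕ) : MeasurableSet (Blk a M t k) :=
  (meas_eq 0 a).inter (measurableSet_eq_fun (hK.meas 0 (t + k)) ((hK.meas 0 t).add measurable_const)).compl

/-- blocked cars at a site are not more frequent than blocked cars along the cars -/
lemma blk_ge (hK : Track a u M) (t k : ℕ) :
    law ν {d | state d t 0 = a ∧ M (state d t) 0 k ≠ k} ≤ law ν (Blk a M t k) := by
  have h := transport_ge ν hK t (fun d y => state d t y = a ∧ M (state d t) y k ≠ k)
    (fun x => (meas_state t x a).inter (meas_movesAt hK.toKind t x k k).compl)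
    (fun v d x => by
      rw [state_shift, hK.shift]
      rfl)
    (fun d hd => hd.1)
  refine h.trans (measure_mono ?_)
  rintro d ⟨h1, h2, h3⟩
  refine ⟨h1, fun h4 => h3 ?_⟩
  have h5 := hK.add d 0 t k
  rw [zero_add] at h5
  omega

/-- the two kinds of cars meet -/
lemma blk_meet {b : Fin 3} {u' w : ℤ × ℤ} {M' : Conf → ℤ × ℤ → ℕ → ℕ} (hK : Track a u M) (hK' : Track b u' M')
    (hm : Meet a b M M' w) (t k : ℕ) (hk : 0 < k) (hd : Disjoint (box 0 t) (box (k • w) t)) :
    (ν {a}).toReal * (ν {b}).toReal ≤ (law ν).real (Blk a M t k) + (law ν).real (Blk b M' t k) := by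
  have h1 := indep_state ν t 0 (k • w) a b hd
  have h2 : law ν {d | state d t (k • w) = b} = law ν {d | state d t 0 = b} := by
    rw [← law_shift ν (k • w) (meas_state t 0 b)]
    congr 1
    ext d
    simp only [Set.mem_preimage, Set.mem_ofPred_eq]
    rw [state_shift]
    simp [shift]
  have h3 : law ν {d | state d t (k • w) = b ∧ M' (state d t) (k • w) k ≠ k} =
      law ν {d | state d t 0 = b ∧ M' (state d t) 0 k ≠ k} := by
    have hmm : MeasurableSet {d | state d t 0 = b ∧ M' (state d t) 0 k ≠ k} :=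
      (meas_state t 0 b).inter (meas_movesAt hK'.toKind t 0 k k).compl
    rw [← law_shift ν (k • w) hmm]
    congr 1
    ext d
    simp only [Set.mem_preimage, Set.mem_ofPred_eq]
    rw [state_shift, hK'.shift, zero_add]
    simp [shift]
  have h4 : {d | state d t 0 = a} ∩ {d | state d t (k • w) = b} ⊆
      {d | state d t 0 = a ∧ M (state d t) 0 k ≠ k} ∪
        {d | state d t (k • w) = b ∧ M' (state d t) (k • w) k ≠ k} := by
    rintro d ⟨ha, hb⟩
    simp only [Set.mem_ofPred_eq] at ha hb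
    by_contra hcon
    simp only [Set.mem_union, Set.mem_ofPred_eq, not_or, not_and, not_not] at hcon
    have h5 := hcon.1 ha
    have h6 := hcon.2 hb
    refine hm (state d t) 0 k hk ha ?_ h5 ?_
    · rw [zero_add]; exact hb
    · rw [zero_add]; exact h6
  have h5 : ν {a} * ν {b} ≤ law ν (Blk a M t k) + law ν (Blk b M' t k) := by
    calc ν {a} * ν {b} ≤ law ν {d | state d t 0 = a} * law ν {d | state d t 0 = b} :=
          mul_le_mul' (meas_density ν hK t) (meas_density ν hK' t)
      _ = law ν ({d | state d t 0 = a} ∩ {d | state d t (k • w) = b}) := by rw [h1, h2]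
      _ ≤ law ν {d | state d t 0 = a ∧ M (state d t) 0 k ≠ k} +
          law ν {d | state d t (k • w) = b ∧ M' (state d t) (k • w) k ≠ k} :=
          (measure_mono h4).trans (measure_union_le _ _)
      _ ≤ law ν (Blk a M t k) + law ν (Blk b M' t k) := by
          rw [h3]
          exact add_le_add (blk_ge ν hK t k) (blk_ge ν hK' t k)
  have h6 := ENNReal.toReal_mono (ENNReal.add_ne_top.mpr ⟨measure_ne_top _ _, measure_ne_top _ _⟩) h5
  rw [ENNReal.toReal_mul, ENNReal.toReal_add (measure_ne_top _ _) (measure_ne_top _ _)] at h6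
  exact h6

/-- the density of the cars of kind `a` at a site does not change -/
lemma density_eq (hK : Track a u M) (t : ℕ) (x : ℤ × ℤ) : law ν {d | state d t x = a} = ν {a} := by
  have h0 : law ν {d | state d t x = a} = law ν {d | state d t 0 = a} := by
    rw [← law_shift ν x (meas_state t 0 a)]
    congr 1
    ext d
    simp only [Set.mem_preimage, Set.mem_ofPred_eq]
    rw [state_shift]
    simp [shift]
  rw [h0]
  refine le_antisymm ?_ (meas_density ν hK t)
  refine (transport_ge ν hK t (fun d y => state d t y = a) (fun x => meas_state t x a)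
    (fun v d x => by rw [state_shift]; rfl) (fun d hd => hd)).trans ?_
  rw [← law_one ν 0 a]
  exact measure_mono (fun d hd => hd.1)

/-- blocked cars at a site are not more frequent than blocked cars along the cars -/
lemma blk_at (hK : Track a u M) (t k : ℕ) (x : ℤ × ℤ) :
    law ν {d | state d t x = a ∧ M (state d t) x k ≠ k} ≤ law ν (Blk a M t k) := by
  refine le_trans (le_of_eq ?_) (blk_ge ν hK t k)
  have hmm : MeasurableSet {d | state d t 0 = a ∧ M (state d t) 0 k ≠ k} :=
    (meas_state t 0 a).inter (meas_movesAt hK.toKind t 0 k k).compl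
  rw [← law_shift ν x hmm]
  congr 1
  ext d
  simp only [Set.mem_preimage, Set.mem_ofPred_eq]
  rw [state_shift, hK.shift, zero_add]
  simp [shift]

/-- indicator of a car of kind `a` at `x` at time `t` -/
noncomputable def one (t : ℕ) (x : ℤ × ℤ) (a : Fin 3) (d : Conf) : ℝ :=
  Set.indicator {d | state d t x = a} (fun _ => (1 : ℝ)) d

/-- indicator of a car of kind `a` at `x` at time `t` that is blocked in one of the next `k` cycles -/
noncomputable def blo (M : Conf → ℤ × ℤ → ℕ → ℕ) (t k : ℕ) (x : ℤ × ℤ) (a : Fin 3) (d : Conf) : ℝ :=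
  Set.indicator {d | state d t x = a ∧ M (state d t) x k ≠ k} (fun _ => (1 : ℝ)) d

lemma int_ind {S : Set Conf} (hS : MeasurableSet S) :
    Integrable (S.indicator (fun _ => (1 : ℝ))) (law ν) ∧ ∫ d, S.indicator (fun _ => (1 : ℝ)) d ∂(law ν) = (law ν).real S := by
  refine ⟨(integrable_const (1 : ℝ)).indicator hS, ?_⟩
  rw [integral_indicator hS, setIntegral_const, smul_eq_mul, mul_one]

lemma one_int (hK : Track a u M) (t : ℕ) (x : ℤ × ℤ) :
    Integrable (one t x a) (law ν) ∧ ∫ d, one t x a d ∂(law ν) = (ν {a}).toReal := by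
  have h := int_ind ν (meas_state t x a)
  refine ⟨h.1, ?_⟩
  unfold one
  rw [h.2, Measure.real, density_eq ν hK]

lemma blo_int (hK : Track a u M) (t k : ℕ) (x : ℤ × ℤ) :
    Integrable (blo M t k x a) (law ν) ∧ ∫ d, blo M t k x a d ∂(law ν) ≤ (law ν).real (Blk a M t k) := by
  have hmm : MeasurableSet {d | state d t x = a ∧ M (state d t) x k ≠ k} :=
    (meas_state t x a).inter (meas_movesAt hK.toKind t x k k).compl
  have h := int_ind ν hmm
  refine ⟨h.1, ?_⟩
  unfold blo
  rw [h.2]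
  exact ENNReal.toReal_mono (measure_ne_top _ _) (blk_at ν hK t k x)

lemma one_mul_int {b : Fin 3} {u' : ℤ × ℤ} {M' : Conf → ℤ × ℤ → ℕ → ℕ} (hK : Track a u M) (hK' : Track b u' M')
    (t : ℕ) (x y : ℤ × ℤ) (hxy : Disjoint (box x t) (box y t)) :
    Integrable (fun d => one t x a d * one t y b d) (law ν) ∧
      ∫ d, one t x a d * one t y b d ∂(law ν) = (ν {a}).toReal * (ν {b}).toReal := by
  have h := int_ind ν ((meas_state t x a).inter (meas_state t y b))
  have h1 : (fun d => one t x a d * one t y b d) =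
      ({d | state d t x = a} ∩ {d | state d t y = b}).indicator (fun _ => (1 : ℝ)) := by
    funext d
    unfold one
    simp only [Set.indicator, Set.mem_inter_iff, Set.mem_ofPred_eq]
    by_cases ha : state d t x = a <;> by_cases hb : state d t y = b <;> simp [ha, hb]
  rw [h1]
  refine ⟨h.1, ?_⟩
  rw [h.2, Measure.real, indep_state ν t x y a b hxy, density_eq ν hK, density_eq ν hK', ENNReal.toReal_mul]

/-- among the cars of the two kinds at `r + 1` sites each, all of one kind are blocked -/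
lemma blk_min {b : Fin 3} {w : ℤ × ℤ} {M' : Conf → ℤ × ℤ → ℕ → ℕ} {u' : ℤ × ℤ} (hK : Track a u M)
    (hK' : Track b u' M') (hm : Meet a b M M' w) (t r : ℕ) (d : Conf) :
    min (∑ i ∈ Finset.range (r + 1), one t ((i * (2 * t + 1)) • w) a d)
        (∑ i ∈ Finset.range (r + 1), one t (((r + 1 + i) * (2 * t + 1)) • w) b d) ≤
      ∑ i ∈ Finset.range (r + 1), blo M t ((2 * r + 1) * (2 * t + 1)) ((i * (2 * t + 1)) • w) a d +
        ∑ i ∈ Finset.range (r + 1), blo M' t ((2 * r + 1) * (2 * t + 1)) (((r + 1 + i) * (2 * t + 1)) • w) b d := by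
  set K := (2 * r + 1) * (2 * t + 1) with hKdef
  have hnn : ∀ (N : Conf → ℤ × ℤ → ℕ → ℕ) (x : ℤ × ℤ) (e : Fin 3), 0 ≤ blo N t K x e d := fun N x e =>
    Set.indicator_nonneg (fun _ _ => zero_le_one) d
  by_cases hcase : ∃ i ∈ Finset.range (r + 1), state d t ((i * (2 * t + 1)) • w) = a ∧
      M (state d t) ((i * (2 * t + 1)) • w) K = K
  · obtain ⟨i, hi, h1, h2⟩ := hcase
    rw [Finset.mem_range] at hi
    refine (min_le_right _ _).trans (le_trans (Finset.sum_le_sum (fun j hj => ?_)) (le_add_of_nonneg_left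
      (Finset.sum_nonneg (fun j _ => hnn M _ a))))
    rw [Finset.mem_range] at hj
    by_cases h3 : state d t (((r + 1 + j) * (2 * t + 1)) • w) = b
    · have h4 : M' (state d t) (((r + 1 + j) * (2 * t + 1)) • w) K ≠ K := by
        intro h4
        have h5 : (i * (2 * t + 1)) • w + ((r + 1 + j - i) * (2 * t + 1)) • w = ((r + 1 + j) * (2 * t + 1)) • w := by
          rw [← add_smul, ← add_mul]
          congr 2
          omega
        have h6 : (r + 1 + j - i) * (2 * t + 1) ≤ K := Nat.mul_le_mul_right _ (by omega)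
        have h7 : 0 < (r + 1 + j - i) * (2 * t + 1) := Nat.mul_pos (by omega) (by omega)
        refine hm (state d t) ((i * (2 * t + 1)) • w) _ h7 h1 ?_ (hK.toKind.early h2 h6) ?_
        · rw [h5]; exact h3
        · rw [h5]; exact hK'.toKind.early h4 h6
      unfold one blo
      have h5 : d ∈ {d | state d t (((r + 1 + j) * (2 * t + 1)) • w) = b} := h3
      have h6 : d ∈ {d | state d t (((r + 1 + j) * (2 * t + 1)) • w) = b ∧
        M' (state d t) (((r + 1 + j) * (2 * t + 1)) • w) K ≠ K} := ⟨h3, h4⟩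
      rw [Set.indicator_of_mem h5, Set.indicator_of_mem h6]
    · have h5 : d ∉ {d | state d t (((r + 1 + j) * (2 * t + 1)) • w) = b} := h3
      unfold one
      rw [Set.indicator_of_notMem h5]
      exact hnn M' _ b
  · push Not at hcase
    refine (min_le_left _ _).trans (le_trans (Finset.sum_le_sum (fun j hj => ?_)) (le_add_of_nonneg_right
      (Finset.sum_nonneg (fun j _ => hnn M' _ b))))
    by_cases h3 : state d t ((j * (2 * t + 1)) • w) = a
    · have h4 := hcase j hj h3
      unfold one blo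
      have h5 : d ∈ {d | state d t ((j * (2 * t + 1)) • w) = a} := h3
      have h6 : d ∈ {d | state d t ((j * (2 * t + 1)) • w) = a ∧
        M (state d t) ((j * (2 * t + 1)) • w) K ≠ K} := ⟨h3, h4⟩
      rw [Set.indicator_of_mem h5, Set.indicator_of_mem h6]
    · have h5 : d ∉ {d | state d t ((j * (2 * t + 1)) • w) = a} := h3
      unfold one
      rw [Set.indicator_of_notMem h5]
      exact hnn M _ a

lemma one_cases (t : ℕ) (x : ℤ × ℤ) (e : Fin 3) (d : Conf) : one t x e d = 0 ∨ one t x e d = 1 := by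
  unfold one
  by_cases h : d ∈ {d | state d t x = e}
  · right; rw [Set.indicator_of_mem h]
  · left; rw [Set.indicator_of_notMem h]

/-- the difference of the numbers of cars of the two kinds has small variance -/
lemma second_moment {b : Fin 3} {u' w : ℤ × ℤ} {M' : Conf → ℤ × ℤ → ℕ → ℕ} (hK : Track a u M) (hK' : Track b u' M')
    (t r : ℕ)
    (hd : ∀ i j : ℕ, i ≠ j → Disjoint (box ((i * (2 * t + 1)) • w) t) (box ((j * (2 * t + 1)) • w) t))
    {q : ℝ} (ha : (ν {a}).toReal = q) (hb : (ν {b}).toReal = q) :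
    Integrable (fun d => (∑ i ∈ Finset.range (r + 1), (one t ((i * (2 * t + 1)) • w) a d -
      one t (((r + 1 + i) * (2 * t + 1)) • w) b d)) ^ 2) (law ν) ∧
    ∫ d, (∑ i ∈ Finset.range (r + 1), (one t ((i * (2 * t + 1)) • w) a d -
      one t (((r + 1 + i) * (2 * t + 1)) • w) b d)) ^ 2 ∂(law ν) ≤ (r + 1) * (2 * q) := by
  set f : ℕ → Conf → ℝ := fun i d => one t ((i * (2 * t + 1)) • w) a d -
    one t (((r + 1 + i) * (2 * t + 1)) • w) b d with hf
  have hcross : ∀ i ∈ Finset.range (r + 1), ∀ j ∈ Finset.range (r + 1), i ≠ j →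
      Integrable (fun d => f i d * f j d) (law ν) ∧ ∫ d, f i d * f j d ∂(law ν) = 0 := by
    intro i hi j hj hij
    rw [Finset.mem_range] at hi hj
    have h1 := one_mul_int ν hK hK t _ _ (hd i j hij)
    have h2 := one_mul_int ν hK hK' t _ _ (hd i (r + 1 + j) (by omega))
    have h3 := one_mul_int ν hK' hK t _ _ (hd (r + 1 + i) j (by omega))
    have h4 := one_mul_int ν hK' hK' t _ _ (hd (r + 1 + i) (r + 1 + j) (by omega))
    have h5 : (fun d => f i d * f j d) = fun d =>
        one t ((i * (2 * t + 1)) • w) a d * one t ((j * (2 * t + 1)) • w) a d -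
        one t ((i * (2 * t + 1)) • w) a d * one t (((r + 1 + j) * (2 * t + 1)) • w) b d -
        (one t (((r + 1 + i) * (2 * t + 1)) • w) b d * one t ((j * (2 * t + 1)) • w) a d -
        one t (((r + 1 + i) * (2 * t + 1)) • w) b d * one t (((r + 1 + j) * (2 * t + 1)) • w) b d) := by
      funext d
      simp only [hf]
      ring
    rw [h5]
    refine ⟨(h1.1.sub h2.1).sub (h3.1.sub h4.1), ?_⟩
    have h6 := integral_sub (h1.1.sub h2.1) (h3.1.sub h4.1)
    simp only [Pi.sub_apply] at h6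
    rw [h6, integral_sub h1.1 h2.1, integral_sub h3.1 h4.1, h1.2, h2.2, h3.2, h4.2, ha, hb]
    ring
  have hdiag : ∀ i ∈ Finset.range (r + 1), Integrable (fun d => f i d * f i d) (law ν) ∧
      ∫ d, f i d * f i d ∂(law ν) ≤ 2 * q := by
    intro i hi
    rw [Finset.mem_range] at hi
    have h1 := one_int ν hK t ((i * (2 * t + 1)) • w)
    have h2 := one_int ν hK' t (((r + 1 + i) * (2 * t + 1)) • w)
    have h3 := one_mul_int ν hK hK' t _ _ (hd i (r + 1 + i) (by omega))
    have h5 : (fun d => f i d * f i d) = fun d =>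
        (one t ((i * (2 * t + 1)) • w) a d + one t (((r + 1 + i) * (2 * t + 1)) • w) b d) -
        2 * (one t ((i * (2 * t + 1)) • w) a d * one t (((r + 1 + i) * (2 * t + 1)) • w) b d) := by
      funext d
      simp only [hf]
      rcases one_cases t ((i * (2 * t + 1)) • w) a d with h6 | h6 <;>
        rcases one_cases t (((r + 1 + i) * (2 * t + 1)) • w) b d with h7 | h7 <;> rw [h6, h7] <;> norm_num
    rw [h5]
    refine ⟨(h1.1.add h2.1).sub (h3.1.const_mul 2), ?_⟩
    have h6 := integral_sub (h1.1.add h2.1) (h3.1.const_mul 2)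
    simp only [Pi.add_apply] at h6
    rw [h6, integral_add h1.1 h2.1, integral_const_mul, h1.2, h2.2, h3.2, ha, hb]
    have hq : 0 ≤ q := by rw [← ha]; exact ENNReal.toReal_nonneg
    nlinarith [mul_nonneg hq hq]
  have hexp : (fun d => (∑ i ∈ Finset.range (r + 1), f i d) ^ 2) =
      fun d => ∑ i ∈ Finset.range (r + 1), ∑ j ∈ Finset.range (r + 1), f i d * f j d := by
    funext d
    rw [sq, Finset.sum_mul_sum]
  have hint : ∀ i ∈ Finset.range (r + 1), ∀ j ∈ Finset.range (r + 1), Integrable (fun d => f i d * f j d) (law ν) := by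
    intro i hi j hj
    by_cases hij : i = j
    · rw [← hij]; exact (hdiag i hi).1
    · exact (hcross i hi j hj hij).1
  show Integrable (fun d => (∑ i ∈ Finset.range (r + 1), f i d) ^ 2) (law ν) ∧
    ∫ d, (∑ i ∈ Finset.range (r + 1), f i d) ^ 2 ∂(law ν) ≤ _
  rw [hexp]
  refine ⟨integrable_finsetSum _ (fun i hi => integrable_finsetSum _ (fun j hj => hint i hi j hj)), ?_⟩
  rw [integral_finsetSum _ (fun i hi => integrable_finsetSum _ (fun j hj => hint i hi j hj))]
  have hrow : ∀ i ∈ Finset.range (r + 1), ∫ d, ∑ j ∈ Finset.range (r + 1), f i d * f j d ∂(law ν) ≤ 2 * q := by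
    intro i hi
    rw [integral_finsetSum _ (fun j hj => hint i hi j hj), Finset.sum_eq_single_of_mem i hi
      (fun j hj hji => (hcross i hi j hj hji.symm).2)]
    exact (hdiag i hi).2
  refine (Finset.sum_le_sum hrow).trans (le_of_eq ?_)
  rw [Finset.sum_const, Finset.card_range, nsmul_eq_mul]
  push_cast
  ring

/-- many independent sites: nearly all cars of one kind are blocked -/
lemma blk_many {b : Fin 3} {u' w : ℤ × ℤ} {M' : Conf → ℤ × ℤ → ℕ → ℕ} (hK : Track a u M) (hK' : Track b u' M')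
    (hm : Meet a b M M' w) (t r : ℕ)
    (hd : ∀ i j : ℕ, i ≠ j → Disjoint (box ((i * (2 * t + 1)) • w) t) (box ((j * (2 * t + 1)) • w) t))
    {q : ℝ} (ha : (ν {a}).toReal = q) (hb : (ν {b}).toReal = q) {lam : ℝ} (hlam : 0 < lam) :
    q - q / (2 * lam) - lam / (4 * (r + 1)) ≤
      (law ν).real (Blk a M t ((2 * r + 1) * (2 * t + 1))) + (law ν).real (Blk b M' t ((2 * r + 1) * (2 * t + 1))) := by
  obtain ⟨hS1, hS2⟩ := second_moment ν hK hK' t r hd ha hb
  set K := (2 * r + 1) * (2 * t + 1) with hKdef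
  set X : Conf → ℝ := fun d => ∑ i ∈ Finset.range (r + 1), one t ((i * (2 * t + 1)) • w) a d with hX
  set Y : Conf → ℝ := fun d => ∑ i ∈ Finset.range (r + 1), one t (((r + 1 + i) * (2 * t + 1)) • w) b d with hY
  set A : Conf → ℝ := fun d => ∑ i ∈ Finset.range (r + 1), blo M t K ((i * (2 * t + 1)) • w) a d with hA
  set B : Conf → ℝ := fun d => ∑ i ∈ Finset.range (r + 1), blo M' t K (((r + 1 + i) * (2 * t + 1)) • w) b d with hB
  set S : Conf → ℝ := fun d => (∑ i ∈ Finset.range (r + 1), (one t ((i * (2 * t + 1)) • w) a d -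
      one t (((r + 1 + i) * (2 * t + 1)) • w) b d)) ^ 2 with hS
  have hXi : Integrable X (law ν) ∧ ∫ d, X d ∂(law ν) = (r + 1) * q := by
    have h1 : ∀ i ∈ Finset.range (r + 1), Integrable (one t ((i * (2 * t + 1)) • w) a) (law ν) :=
      fun i _ => (one_int ν hK t _).1
    refine ⟨integrable_finsetSum _ h1, ?_⟩
    rw [hX, integral_finsetSum _ h1]
    simp only [(one_int ν hK t _).2, ha, Finset.sum_const, Finset.card_range, nsmul_eq_mul]
    push_cast
    ring
  have hYi : Integrable Y (law ν) ∧ ∫ d, Y d ∂(law ν) = (r + 1) * q := by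
    have h1 : ∀ i ∈ Finset.range (r + 1), Integrable (one t (((r + 1 + i) * (2 * t + 1)) • w) b) (law ν) :=
      fun i _ => (one_int ν hK' t _).1
    refine ⟨integrable_finsetSum _ h1, ?_⟩
    rw [hY, integral_finsetSum _ h1]
    simp only [(one_int ν hK' t _).2, hb, Finset.sum_const, Finset.card_range, nsmul_eq_mul]
    push_cast
    ring
  have hAi : Integrable A (law ν) ∧ ∫ d, A d ∂(law ν) ≤ (r + 1) * (law ν).real (Blk a M t K) := by
    have h1 : ∀ i ∈ Finset.range (r + 1), Integrable (blo M t K ((i * (2 * t + 1)) • w) a) (law ν) :=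
      fun i _ => (blo_int ν hK t K _).1
    refine ⟨integrable_finsetSum _ h1, ?_⟩
    rw [hA, integral_finsetSum _ h1]
    refine (Finset.sum_le_sum (fun i _ => (blo_int ν hK t K _).2)).trans (le_of_eq ?_)
    rw [Finset.sum_const, Finset.card_range, nsmul_eq_mul]
    push_cast
    ring
  have hBi : Integrable B (law ν) ∧ ∫ d, B d ∂(law ν) ≤ (r + 1) * (law ν).real (Blk b M' t K) := by
    have h1 : ∀ i ∈ Finset.range (r + 1), Integrable (blo M' t K (((r + 1 + i) * (2 * t + 1)) • w) b) (law ν) :=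
      fun i _ => (blo_int ν hK' t K _).1
    refine ⟨integrable_finsetSum _ h1, ?_⟩
    rw [hB, integral_finsetSum _ h1]
    refine (Finset.sum_le_sum (fun i _ => (blo_int ν hK' t K _).2)).trans (le_of_eq ?_)
    rw [Finset.sum_const, Finset.card_range, nsmul_eq_mul]
    push_cast
    ring
  have hpt : ∀ d, (X d + Y d) / 2 - (S d / (4 * lam) + lam / 4) ≤ A d + B d := by
    intro d
    have h1 := blk_min hK hK' hm t r d
    refine le_trans ?_ h1
    have h2 : S d = (X d - Y d) ^ 2 := by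
      simp only [hS, hX, hY, Finset.sum_sub_distrib]
    have h3 : |X d - Y d| ≤ S d / (2 * lam) + lam / 2 := by
      rw [h2, ← sq_abs]
      have h4 : 0 ≤ (|X d - Y d| - lam) ^ 2 := sq_nonneg _
      have h5 : |X d - Y d| ^ 2 / (2 * lam) + lam / 2 - |X d - Y d| = (|X d - Y d| - lam) ^ 2 / (2 * lam) := by
        field_simp
        ring
      have h6 : 0 ≤ (|X d - Y d| - lam) ^ 2 / (2 * lam) := by positivity
      linarith
    have h4 : min (X d) (Y d) = (X d + Y d - |X d - Y d|) / 2 := by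
      rcases le_total (X d) (Y d) with h5 | h5
      · rw [min_eq_left h5, abs_of_nonpos (by linarith)]; ring
      · rw [min_eq_right h5, abs_of_nonneg (by linarith)]; ring
    have h5 : S d / (4 * lam) = S d / (2 * lam) / 2 := by
      field_simp
      ring
    show _ ≤ min (X d) (Y d)
    rw [h4, h5]
    linarith
  have hL1 : Integrable (fun d => (X d + Y d) / 2) (law ν) := (hXi.1.add hYi.1).div_const 2
  have hL3 : Integrable (fun d => S d / (4 * lam)) (law ν) := hS1.div_const (4 * lam)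
  have hL2 : Integrable (fun d => S d / (4 * lam) + lam / 4) (law ν) := hL3.add (integrable_const _)
  have hL : Integrable (fun d => (X d + Y d) / 2 - (S d / (4 * lam) + lam / 4)) (law ν) := hL1.sub hL2
  have h1 := integral_mono hL (hAi.1.add hBi.1) hpt
  have h2 : ∫ d, ((X d + Y d) / 2 - (S d / (4 * lam) + lam / 4)) ∂(law ν) =
      ((r + 1) * q + (r + 1) * q) / 2 - ((∫ d, S d ∂(law ν)) / (4 * lam) + lam / 4) := by
    rw [integral_sub hL1 hL2, integral_div, integral_add hXi.1 hYi.1, integral_add hL3 (integrable_const _),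
      integral_div, integral_const, hXi.2, hYi.2]
    simp
  have h3 : ∫ d, (A + B) d ∂(law ν) = ∫ d, A d ∂(law ν) + ∫ d, B d ∂(law ν) := integral_add hAi.1 hBi.1
  rw [h2, h3] at h1
  have h4 : (∫ d, S d ∂(law ν)) / (4 * lam) ≤ (r + 1) * (2 * q) / (4 * lam) :=
    div_le_div_of_nonneg_right hS2 (by positivity)
  have hr : (0 : ℝ) < r + 1 := by positivity
  have h5 : (r + 1) * (q - q / (2 * lam) - lam / (4 * (r + 1))) ≤
      (r + 1) * ((law ν).real (Blk a M t K) + (law ν).real (Blk b M' t K)) := by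
    have h6 : (r + 1) * (q - q / (2 * lam) - lam / (4 * (r + 1))) =
        ((r + 1) * q + (r + 1) * q) / 2 - ((r + 1) * (2 * q) / (4 * lam) + lam / 4) := by
      field_simp
      ring
    rw [h6, mul_add]
    linarith [hAi.2, hBi.2]
  exact le_of_mul_le_mul_left h5 hr

end Blocks

section Budget

variable (ν : Measure (Fin 3)) [IsProbabilityMeasure ν] {a : Fin 3} {u : ℤ × ℤ} {M : Conf → ℤ × ℤ → ℕ → ℕ}

/-! ### Blocked windows add up -/

/-- the delay of the car at the origin -/
def delay (M : Conf → ℤ × ℤ → ℕ → ℕ) (t : ℕ) (d : Conf) : ℝ := (t : ℝ) - M d 0 t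

lemma delay_nonneg (hK : Kind a u M) (t : ℕ) (d : Conf) : 0 ≤ delay M t d := by
  have h1 : (M d 0 t : ℝ) ≤ t := by exact_mod_cast hK.le d 0 t
  unfold delay
  linarith

lemma delay_le (t : ℕ) (d : Conf) : delay M t d ≤ t := by
  have h1 : (0 : ℝ) ≤ M d 0 t := by positivity
  unfold delay
  linarith

lemma delay_meas (hK : Kind a u M) (t : ℕ) : Measurable (delay M t) := by
  unfold delay
  exact measurable_const.sub (measurable_from_nat.comp (hK.meas 0 t))

lemma delay_int (hK : Kind a u M) (t : ℕ) (G : Set Conf) : IntegrableOn (delay M t) G (law ν) := by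
  refine Integrable.of_bound (delay_meas hK t).aestronglyMeasurable t (Eventually.of_forall (fun d => ?_))
  rw [Real.norm_of_nonneg (delay_nonneg hK t d)]
  exact delay_le t d

/-- the blocked windows of the cars in `G` are at most the total delay of these cars -/
lemma sum_blk (hK : Kind a u M) {G : Set Conf} (hG : MeasurableSet G) (s k : ℕ → ℕ) (hs : ∀ j, s (j + 1) = s j + k j)
    (J : ℕ) : ∑ j ∈ Finset.range J, (law ν).real (G ∩ Blk a M (s j) (k j)) ≤ ∫ d in G, delay M (s J) d ∂(law ν) := by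
  induction J with
  | zero =>
    rw [Finset.sum_range_zero]
    exact setIntegral_nonneg hG (fun d _ => delay_nonneg hK _ d)
  | succ J ih =>
    rw [Finset.sum_range_succ]
    have h1 : (law ν).real (G ∩ Blk a M (s J) (k J)) =
        ∫ d in G, (Blk a M (s J) (k J)).indicator (fun _ => (1 : ℝ)) d ∂(law ν) := by
      rw [setIntegral_indicator (meas_Blk hK _ _), setIntegral_const, smul_eq_mul, mul_one]
    have hi : IntegrableOn ((Blk a M (s J) (k J)).indicator (fun _ => (1 : ℝ))) G (law ν) :=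
      (integrable_const (1 : ℝ)).indicator (meas_Blk hK _ _) |>.integrableOn
    calc ∑ j ∈ Finset.range J, (law ν).real (G ∩ Blk a M (s j) (k j)) + (law ν).real (G ∩ Blk a M (s J) (k J))
        ≤ ∫ d in G, delay M (s J) d ∂(law ν) +
          ∫ d in G, (Blk a M (s J) (k J)).indicator (fun _ => (1 : ℝ)) d ∂(law ν) := by
          rw [← h1]; linarith
      _ = ∫ d in G, (delay M (s J) d + (Blk a M (s J) (k J)).indicator (fun _ => (1 : ℝ)) d) ∂(law ν) :=
          (integral_add (delay_int ν hK _ G) hi).symm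
      _ ≤ ∫ d in G, delay M (s (J + 1)) d ∂(law ν) := by
          refine setIntegral_mono_on ((delay_int ν hK _ G).add hi) (delay_int ν hK _ G) hG (fun d _ => ?_)
          rw [hs J]
          have h2 := (hK.add_le d 0 (s J) (k J)).2
          by_cases hd : d ∈ Blk a M (s J) (k J)
          · rw [Set.indicator_of_mem hd]
            have h3 : M d 0 (s J + k J) + 1 ≤ M d 0 (s J) + k J := by
              have := hd.2
              omega
            have h4 : (M d 0 (s J + k J) : ℝ) + 1 ≤ M d 0 (s J) + k J := by exact_mod_cast h3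
            unfold delay
            push_cast
            linarith
          · rw [Set.indicator_of_notMem hd]
            have h4 : (M d 0 (s J + k J) : ℝ) ≤ M d 0 (s J) + k J := by exact_mod_cast h2
            unfold delay
            push_cast
            linarith

/-- If the cars of kind `a` satisfy the lower bound `g`, then they are rarely blocked. -/
lemma budget (hK : Kind a u M) (g : ℕ → ℝ) (hg : ∀ t, g t ≤ t)
    (hlo : ∀ᵐ d ∂(law ν), ∀ x, d x = a → ∃ C : ℕ, ∀ t, g t ≤ (M d x t : ℝ) + C) {δ : ℝ} (hδ : 0 < δ) :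
    ∃ C : ℕ, ∀ (s k : ℕ → ℕ), (∀ j, s (j + 1) = s j + k j) → ∀ J : ℕ,
      ∑ j ∈ Finset.range J, (law ν).real (Blk a M (s j) (k j)) ≤ (s J - g (s J) + C) * (ν {a}).toReal + J * δ := by
  set D : ℕ → Set Conf := fun C => {d | d 0 = a ∧ ∀ t : ℕ, g t ≤ M d 0 t + C} with hD
  have hDm : ∀ C, MeasurableSet (D C) := by
    intro C
    have : D C = {d : Conf | d 0 = a} ∩ ⋂ t, {d | g t ≤ (M d 0 t : ℝ) + C} := by
      ext d; simp [hD]
    rw [this]
    exact (meas_eq 0 a).inter (MeasurableSet.iInter fun t =>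
      measurableSet_le measurable_const ((measurable_from_nat.comp (hK.meas 0 t)).add measurable_const))
  have hmono : Monotone D := by
    intro C C' hC d hd
    refine ⟨hd.1, fun t => (hd.2 t).trans ?_⟩
    have : (C : ℝ) ≤ C' := by exact_mod_cast hC
    linarith
  have hlim := tendsto_measure_iUnion_atTop (μ := law ν) hmono
  have hU : law ν (⋃ C, D C) = ν {a} := by
    rw [← law_one ν 0 a]
    refine measure_congr ?_
    filter_upwards [hlo] with d hd
    apply propext
    constructor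
    · intro h1
      obtain ⟨C, hC⟩ := Set.mem_iUnion.mp h1
      exact hC.1
    · intro h1
      obtain ⟨C, hC⟩ := hd 0 h1
      exact Set.mem_iUnion.mpr ⟨C, h1, hC⟩
  rw [hU] at hlim
  have hlim2 : Tendsto (fun C => (law ν).real (D C)) atTop (𝓝 ((ν {a}).toReal)) :=
    (ENNReal.tendsto_toReal (measure_ne_top ν _)).comp hlim
  obtain ⟨C, hC⟩ := (hlim2.eventually (lt_mem_nhds (show (ν {a}).toReal - δ < (ν {a}).toReal by linarith))).exists
  refine ⟨C, fun s k hs J => ?_⟩
  have hsub : D C ⊆ {d : Conf | d 0 = a} := fun d hd => hd.1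
  have hle : (law ν).real (D C) ≤ (ν {a}).toReal := by
    have h1 := measure_mono (μ := law ν) hsub
    rw [law_one ν 0 a] at h1
    exact ENNReal.toReal_mono (measure_ne_top _ _) h1
  have h1 : ∀ j, (law ν).real (Blk a M (s j) (k j)) ≤ (law ν).real (D C ∩ Blk a M (s j) (k j)) + δ := by
    intro j
    have h2 : Blk a M (s j) (k j) ⊆ (D C ∩ Blk a M (s j) (k j)) ∪ ({d : Conf | d 0 = a} \ D C) := by
      intro d hd
      by_cases h3 : d ∈ D C
      · exact Or.inl ⟨h3, hd⟩
      · exact Or.inr ⟨hd.1, h3⟩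
    have h4 : (law ν).real ({d : Conf | d 0 = a} \ D C) ≤ δ := by
      rw [measureReal_sdiff hsub (hDm C)]
      have h5 : (law ν).real {d : Conf | d 0 = a} = (ν {a}).toReal := by
        rw [Measure.real, law_one]
      rw [h5]
      linarith
    calc (law ν).real (Blk a M (s j) (k j)) ≤ (law ν).real ((D C ∩ Blk a M (s j) (k j)) ∪ ({d : Conf | d 0 = a} \ D C)) :=
          measureReal_mono h2
      _ ≤ (law ν).real (D C ∩ Blk a M (s j) (k j)) + (law ν).real ({d : Conf | d 0 = a} \ D C) :=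
          measureReal_union_le _ _
      _ ≤ _ := by linarith
  have h2 : ∑ j ∈ Finset.range J, (law ν).real (Blk a M (s j) (k j)) ≤
      ∑ j ∈ Finset.range J, (law ν).real (D C ∩ Blk a M (s j) (k j)) + J * δ := by
    calc ∑ j ∈ Finset.range J, (law ν).real (Blk a M (s j) (k j))
        ≤ ∑ j ∈ Finset.range J, ((law ν).real (D C ∩ Blk a M (s j) (k j)) + δ) :=
          Finset.sum_le_sum (fun j _ => h1 j)
      _ = _ := by rw [Finset.sum_add_distrib, Finset.sum_const, Finset.card_range, nsmul_eq_mul]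
  have h3 := sum_blk ν hK (hDm C) s k hs J
  have h4 : ∫ d in D C, delay M (s J) d ∂(law ν) ≤ (s J - g (s J) + C) * (law ν).real (D C) := by
    have h5 : ∫ _ in D C, ((s J : ℝ) - g (s J) + C) ∂(law ν) = (s J - g (s J) + C) * (law ν).real (D C) := by
      rw [setIntegral_const, smul_eq_mul, mul_comm]
    rw [← h5]
    refine setIntegral_mono_on (delay_int ν hK _ _) (integrable_const _).integrableOn (hDm C) (fun d hd => ?_)
    have := hd.2 (s J)
    unfold delay
    linarith
  have h5 : (s J - g (s J) + C) * (law ν).real (D C) ≤ (s J - g (s J) + C) * (ν {a}).toReal := by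
    refine mul_le_mul_of_nonneg_left hle ?_
    have h6 := hg (s J)
    have h7 : (0 : ℝ) ≤ C := by positivity
    linarith
  linarith

end Budget

section Windows

/-! ### The windows -/

/-- the times `((4 r + 3) ^ j - 1) / 2` -/
def win (r : ℕ) : ℕ → ℕ
  | 0 => 0
  | j + 1 => win r j + (2 * r + 1) * (2 * win r j + 1)

lemma win_eq (r j : ℕ) : 2 * win r j + 1 = (4 * r + 3) ^ j := by
  induction j with
  | zero => rfl
  | succ j ih =>
    rw [win, pow_succ, ← ih]
    ring

lemma win_exists (r t : ℕ) : ∃ J, win r J ≤ t ∧ t < win r (J + 1) := by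
  classical
  have h1 : ∃ J, t < win r (J + 1) := by
    refine ⟨t, ?_⟩
    have h2 := win_eq r (t + 1)
    have h4 : 2 * t + 1 < 3 ^ (t + 1) := by
      clear h2
      induction t with
      | zero => norm_num
      | succ t ih => rw [pow_succ]; omega
    have h5 : 3 ^ (t + 1) ≤ (4 * r + 3) ^ (t + 1) := Nat.pow_le_pow_left (by omega) _
    omega
  refine ⟨Nat.find h1, ?_, Nat.find_spec h1⟩
  by_contra hcon
  push Not at hcon
  have h2 : Nat.find h1 ≠ 0 := by
    intro h0
    rw [h0] at hcon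
    simp [win] at hcon
  obtain ⟨m, hm⟩ := Nat.exists_eq_succ_of_ne_zero h2
  have h3 := Nat.find_min h1 (show m < Nat.find h1 by omega)
  rw [hm] at hcon
  exact h3 hcon

lemma log_three_lt : Real.log 3 < 1.1 := by
  rw [Real.log_lt_iff_lt_exp (by norm_num)]
  have h1 : (2.7182818283 : ℝ) < Real.exp 1 := Real.exp_one_gt_d9
  have h2 : Real.exp 1.1 ^ 10 = Real.exp 1 ^ 11 := by
    rw [← Real.exp_nat_mul, ← Real.exp_nat_mul]
    norm_num
  by_contra hcon
  push Not at hcon
  have h3 : Real.exp 1.1 ^ 10 ≤ 3 ^ 10 := pow_le_pow_left₀ (Real.exp_pos _).le hcon 10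
  have h4 : (2.7182818283 : ℝ) ^ 11 ≤ Real.exp 1 ^ 11 := pow_le_pow_left₀ (by norm_num) h1.le 11
  rw [h2] at h3
  have h5 : (3 : ℝ) ^ 10 < 2.7182818283 ^ 11 := by norm_num
  linarith

lemma log_win (t J : ℕ) (h : t < win 0 (J + 1)) : 4 / 5 * Real.log t ≤ J := by
  have h3 := log_three_lt
  have h3' : 0 ≤ Real.log 3 := Real.log_nonneg (by norm_num)
  have h2 := Real.log_two_gt_d9
  have h2' := Real.log_two_lt_d9
  rcases Nat.eq_zero_or_pos t with h0 | h0
  · subst h0
    simp
  have ht : (0 : ℝ) < t := by exact_mod_cast h0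
  match J, h with
  | 0, h =>
    simp [win] at h
    omega
  | 1, h =>
    have h4 : t ≤ 3 := by simp [win] at h; omega
    have h5 : Real.log t ≤ Real.log 3 := Real.log_le_log ht (by exact_mod_cast h4)
    push_cast
    linarith
  | 2, h =>
    have h4 : t ≤ 12 := by simp [win] at h; omega
    have h5 : Real.log t ≤ Real.log 12 := Real.log_le_log ht (by exact_mod_cast h4)
    have h6 : Real.log 12 = 2 * Real.log 2 + Real.log 3 := by
      rw [show (12 : ℝ) = 2 ^ 2 * 3 by norm_num, Real.log_mul (by norm_num) (by norm_num), Real.log_pow]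
      norm_num
    push_cast
    linarith
  | n + 3, h =>
    have h4 := win_eq 0 (n + 3 + 1)
    have h5 : 2 * t ≤ 3 ^ (n + 4) := by
      have h6 : (4 * 0 + 3) ^ (n + 3 + 1) = 3 ^ (n + 4) := by norm_num
      rw [h6] at h4
      omega
    have h6 : (2 : ℝ) * t ≤ 3 ^ (n + 4) := by exact_mod_cast h5
    have h7 : Real.log (2 * t) ≤ Real.log (3 ^ (n + 4)) := Real.log_le_log (by positivity) h6
    rw [Real.log_mul (by norm_num) ht.ne', Real.log_pow] at h7
    push_cast at h7 ⊢
    have h8 : ((n : ℝ) + 4) * Real.log 3 ≤ (n + 4) * 1.1 := mul_le_mul_of_nonneg_left h3.le (by positivity)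
    have h9 : (0 : ℝ) ≤ n := by positivity
    linarith

lemma log_win_lt (r t J : ℕ) (h : t < win r (J + 1)) : Real.log t ≤ (J + 1) * Real.log (4 * r + 3) := by
  rcases Nat.eq_zero_or_pos t with h0 | h0
  · subst h0
    have h1 : 0 ≤ Real.log (4 * r + 3) := Real.log_nonneg (by
      have : (0 : ℝ) ≤ r := by positivity
      linarith)
    rw [Nat.cast_zero, Real.log_zero]
    positivity
  · have ht : (0 : ℝ) < t := by exact_mod_cast h0
    have h1 : t ≤ (4 * r + 3) ^ (J + 1) := by rw [← win_eq]; omega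
    have h2 : (t : ℝ) ≤ (4 * r + 3) ^ (J + 1) := by exact_mod_cast h1
    have h4 := Real.log_le_log ht h2
    rw [Real.log_pow] at h4
    push_cast at h4
    exact h4

lemma log_win_le (r J : ℕ) : Real.log (win r J) ≤ J * Real.log (4 * r + 3) := by
  rcases Nat.eq_zero_or_pos (win r J) with h0 | h0
  · have h1 : 0 ≤ Real.log (4 * r + 3) := Real.log_nonneg (by
      have : (0 : ℝ) ≤ r := by positivity
      linarith)
    rw [h0, Nat.cast_zero, Real.log_zero]
    positivity
  · have ht : (0 : ℝ) < win r J := by exact_mod_cast h0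
    have h1 : win r J ≤ (4 * r + 3) ^ J := by rw [← win_eq]; omega
    have h2 : (win r J : ℝ) ≤ (4 * r + 3) ^ J := by exact_mod_cast h1
    have h4 := Real.log_le_log ht h2
    rw [Real.log_pow] at h4
    exact h4

variable (ν : Measure (Fin 3)) [IsProbabilityMeasure ν]

lemma box_disjoint (t i j : ℕ) (hij : i ≠ j) :
    Disjoint (box ((i * (2 * t + 1)) • ((1, -1) : ℤ × ℤ)) t) (box ((j * (2 * t + 1)) • ((1, -1) : ℤ × ℤ)) t) := by
  have key : ∀ i j : ℕ, i < j →
      Disjoint (box ((i * (2 * t + 1)) • ((1, -1) : ℤ × ℤ)) t) (box ((j * (2 * t + 1)) • ((1, -1) : ℤ × ℤ)) t) := by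
    intro i j hij
    obtain ⟨l, rfl⟩ := Nat.exists_eq_add_of_lt hij
    have h1 : (i + l + 1) * (2 * t + 1) = i * (2 * t + 1) + l * (2 * t + 1) + (2 * t + 1) := by ring
    rw [Finset.disjoint_left]
    intro y hy hy'
    rw [mem_box] at hy hy'
    rw [h1] at hy'
    generalize i * (2 * t + 1) = A at hy hy'
    generalize l * (2 * t + 1) = B at hy'
    simp at hy hy'
    omega
  rcases lt_or_gt_of_ne hij with h | h
  · exact key i j h
  · exact (key j i h).symm

/-- in every window of ratio `4 r + 3` cars of the two kinds are blocked with total probability at least `v` -/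
def Both (v : ℝ) (r : ℕ) : Prop := ∀ t, v ≤ (law ν).real (Blk 1 movesE t ((2 * r + 1) * (2 * t + 1))) +
  (law ν).real (Blk 2 movesN t ((2 * r + 1) * (2 * t + 1)))

lemma both_zero : Both ν ((ν {1}).toReal * (ν {2}).toReal) 0 := by
  intro t
  rw [mul_zero, zero_add, one_mul]
  refine blk_meet ν trackE trackN meetEN t (2 * t + 1) (by omega) ?_
  have h := box_disjoint t 0 1 (by omega)
  rwa [zero_mul, zero_smul, one_mul] at h

lemma both_many {q : ℝ} (ha : (ν {1}).toReal = q) (hb : (ν {2}).toReal = q) {lam : ℝ} (hlam : 0 < lam) (r : ℕ) :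
    Both ν (q - q / (2 * lam) - lam / (4 * (r + 1))) r :=
  fun t => blk_many ν trackE trackN meetEN t r (box_disjoint t) ha hb hlam

/-- the mean delays at the origin -/
lemma mean_delay {v : ℝ} {r : ℕ} (hv : Both ν v r) (t J : ℕ) (hJ : win r J ≤ t) : J * v ≤
    ∫ d in {d : Conf | d 0 = 1}, delay movesE t d ∂(law ν) + ∫ d in {d : Conf | d 0 = 2}, delay movesN t d ∂(law ν) := by
  have key : ∀ {a : Fin 3} {u : ℤ × ℤ} {M : Conf → ℤ × ℤ → ℕ → ℕ} (hK : Kind a u M),
      ∑ j ∈ Finset.range J, (law ν).real (Blk a M (win r j) ((2 * r + 1) * (2 * win r j + 1))) ≤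
        ∫ d in {d : Conf | d 0 = a}, delay M t d ∂(law ν) := by
    intro a u M hK
    have h1 := sum_blk ν hK (meas_eq 0 a) (win r) (fun j => (2 * r + 1) * (2 * win r j + 1)) (fun j => rfl) J
    have h2 : ∀ j, {d : Conf | d 0 = a} ∩ Blk a M (win r j) ((2 * r + 1) * (2 * win r j + 1)) =
        Blk a M (win r j) ((2 * r + 1) * (2 * win r j + 1)) := by
      intro j
      exact Set.inter_eq_right.mpr (fun d hd => hd.1)
    simp only [h2] at h1
    refine h1.trans (setIntegral_mono_on (delay_int ν hK _ _) (delay_int ν hK _ _) (meas_eq 0 a) (fun d _ => ?_))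
    obtain ⟨l, rfl⟩ := Nat.exists_eq_add_of_le hJ
    have h3 := (hK.add_le d 0 (win r J) l).2
    have h4 : (M d 0 (win r J + l) : ℝ) ≤ M d 0 (win r J) + l := by exact_mod_cast h3
    unfold delay
    push_cast
    linarith
  have h1 : ∑ j ∈ Finset.range J, v ≤
      ∑ j ∈ Finset.range J, ((law ν).real (Blk 1 movesE (win r j) ((2 * r + 1) * (2 * win r j + 1))) +
        (law ν).real (Blk 2 movesN (win r j) ((2 * r + 1) * (2 * win r j + 1)))) :=
    Finset.sum_le_sum (fun j _ => hv (win r j))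
  rw [Finset.sum_const, Finset.card_range, nsmul_eq_mul, Finset.sum_add_distrib] at h1
  linarith [key kindE, key kindN]

/-- both kinds of cars cannot have small logarithmic delays -/
lemma not_both {v : ℝ} {r : ℕ} (hv : Both ν v r) {κ m : ℝ} (hκ : 0 ≤ κ) (hm : 0 < m) (h1 : (ν {1}).toReal = m / 2)
    (h2 : (ν {2}).toReal = m / 2) (hlt : κ * m * Real.log (4 * r + 3) < v)
    (hE : ∀ᵐ d ∂(law ν), ∀ x, d x = 1 → ∃ C : ℕ, ∀ t : ℕ, (t : ℝ) - κ * Real.log t ≤ (movesE d x t : ℝ) + C)
    (hN : ∀ᵐ d ∂(law ν), ∀ x, d x = 2 → ∃ C : ℕ, ∀ t : ℕ, (t : ℝ) - κ * Real.log t ≤ (movesN d x t : ℝ) + C) :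
    False := by
  have hg : ∀ t : ℕ, (t : ℝ) - κ * Real.log t ≤ t := by
    intro t
    have h3 : 0 ≤ Real.log t := Real.log_natCast_nonneg t
    have h4 : 0 ≤ κ * Real.log t := by positivity
    linarith
  obtain ⟨δ, hδ, hδ4⟩ : ∃ δ : ℝ, 0 < δ ∧ κ * m * Real.log (4 * r + 3) + 4 * δ = v :=
    ⟨(v - κ * m * Real.log (4 * r + 3)) / 4, by linarith, by ring⟩
  obtain ⟨C, hC⟩ := budget ν kindE (fun t : ℕ => (t : ℝ) - κ * Real.log t) hg hE hδ
  obtain ⟨C', hC'⟩ := budget ν kindN (fun t : ℕ => (t : ℝ) - κ * Real.log t) hg hN hδ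
  obtain ⟨J, hJ⟩ := exists_nat_gt ((C + C') * (m / 2) / δ)
  have h3 := hC (win r) (fun j => (2 * r + 1) * (2 * win r j + 1)) (fun j => rfl) J
  have h4 := hC' (win r) (fun j => (2 * r + 1) * (2 * win r j + 1)) (fun j => rfl) J
  have h5 : ∑ j ∈ Finset.range J, v ≤
      ∑ j ∈ Finset.range J, ((law ν).real (Blk 1 movesE (win r j) ((2 * r + 1) * (2 * win r j + 1))) +
        (law ν).real (Blk 2 movesN (win r j) ((2 * r + 1) * (2 * win r j + 1)))) :=
    Finset.sum_le_sum (fun j _ => hv (win r j))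
  rw [Finset.sum_const, Finset.card_range, nsmul_eq_mul, Finset.sum_add_distrib] at h5
  rw [h1] at h3
  rw [h2] at h4
  have h6 := log_win_le r J
  rw [div_lt_iff₀ hδ] at hJ
  have h7 : κ * m * Real.log (win r J) ≤ κ * m * (J * Real.log (4 * r + 3)) :=
    mul_le_mul_of_nonneg_left h6 (by positivity)
  have h8 : (J : ℝ) * v = κ * m * (J * Real.log (4 * r + 3)) + 4 * (J * δ) := by rw [← hδ4]; ring
  have h9 : 0 ≤ (J : ℝ) * δ := by positivity
  have h10 : ((win r J : ℝ) - (win r J - κ * Real.log (win r J)) + C) * (m / 2) =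
      κ * m * Real.log (win r J) / 2 + C * (m / 2) := by ring
  have h11 : ((win r J : ℝ) - (win r J - κ * Real.log (win r J)) + C') * (m / 2) =
      κ * m * Real.log (win r J) / 2 + C' * (m / 2) := by ring
  rw [h10] at h3
  rw [h11] at h4
  linarith

/-- the choice of the number of sites -/
lemma both_eps {p ε : ℝ} (hp : 0 < p) (h1 : (ν {1}).toReal = p / 2) (h2 : (ν {2}).toReal = p / 2) (hε : 0 < ε) :
    ∃ r : ℕ, (4 * (r : ℝ) + 3) < 4 / (ε ^ 2 * p) + 3 ∧ ∃ v, (1 - ε) * (p / 2) ≤ v ∧ Both ν v r := by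
  have hpos : 0 < 1 / (ε ^ 2 * p) := by positivity
  have h3 : 0 < ⌈1 / (ε ^ 2 * p)⌉₊ := Nat.ceil_pos.mpr hpos
  obtain ⟨r, hr⟩ := Nat.exists_eq_succ_of_ne_zero h3.ne'
  have h4 : 1 / (ε ^ 2 * p) ≤ (r : ℝ) + 1 := by
    have := Nat.le_ceil (1 / (ε ^ 2 * p))
    rw [hr] at this
    push_cast at this
    exact this
  have h5 : (r : ℝ) + 1 < 1 / (ε ^ 2 * p) + 1 := by
    have := Nat.ceil_lt_add_one hpos.le
    rw [hr] at this
    push_cast at this
    exact this
  refine ⟨r, ?_, _, ?_, both_many ν h1 h2 (show 0 < 1 / ε by positivity) r⟩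
  · have h6 : 4 / (ε ^ 2 * p) = 4 * (1 / (ε ^ 2 * p)) := by ring
    rw [h6]
    linarith
  · have h6 : p / 2 / (2 * (1 / ε)) = ε * p / 4 := by
      field_simp
      ring
    have h7 : 1 / ε / (4 * ((r : ℝ) + 1)) ≤ ε * p / 4 := by
      rw [div_le_iff₀ (by positivity), div_le_iff₀ hε]
      have h8 : 1 ≤ (ε ^ 2 * p) * (r + 1) := by
        rwa [div_le_iff₀ (by positivity), mul_comm] at h4
      nlinarith
    rw [h6]
    linarith

end Windows

section Frozen

variable (ν : Measure (Fin 3)) [IsProbabilityMeasure ν] {a b : Fin 3} {u u' w : ℤ × ℤ}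
  {M M' : Conf → ℤ × ℤ → ℕ → ℕ}

/-! ### Cars that are never blocked again -/

/-- at time `T` there is a car of kind `a` at `x` that is never blocked again -/
def Fro (a : Fin 3) (M : Conf → ℤ × ℤ → ℕ → ℕ) (T : ℕ) (x : ℤ × ℤ) : Set Conf :=
  {d | state d T x = a ∧ ∀ s, M (state d T) x s = s}

lemma meas_Fro (hK : Kind a u M) (T : ℕ) (x : ℤ × ℤ) : MeasurableSet (Fro a M T x) := by
  have h1 : Fro a M T x = {d | state d T x = a} ∩ ⋂ s, {d | M (state d T) x s = s} := by
    ext d; simp [Fro]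
  rw [h1]
  exact (meas_state T x a).inter (MeasurableSet.iInter fun s => meas_movesAt hK T x s s)

lemma shift_Fro (hK : Kind a u M) (T : ℕ) (v x : ℤ × ℤ) : shift v ⁻¹' (Fro a M T x) = Fro a M T (x + v) := by
  ext d
  simp only [Fro, Set.mem_preimage, Set.mem_ofPred_eq, state_shift, hK.shift]
  rfl

/-- if cars of kind `a` are blocked finitely often, then some are not blocked after a fixed time -/
lemma exists_frozen (hK : Track a u M) (ha : ν {a} ≠ 0)
    (h : ∀ᵐ d ∂(law ν), ∀ x, d x = a → ∃ C : ℕ, ∀ t : ℕ, (t : ℝ) ≤ (M d x t : ℝ) + C) :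
    ∃ T, law ν (Fro a M T 0) ≠ 0 := by
  by_contra hcon
  push Not at hcon
  have h1 : ∀ T, law ν {d | d 0 = a ∧ d ∈ Fro a M T (M d 0 T • u)} = 0 := by
    intro T
    have h2 := transport ν a u (fun d x => M d x T) (fun x => hK.meas x T) (fun v d x => hK.shift v d x T)
      (fun d x k hk h => hK.order d x k hk h T) (fun d y => d ∈ Fro a M T y) (fun x => meas_Fro hK.toKind T x)
      (fun v d x => by
        have := shift_Fro hK.toKind T v x
        rw [← this]
        rfl)
    refine le_antisymm (h2.trans (le_of_eq ?_)) zero_le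
    exact hcon T
  have h2 : ∀ᵐ d ∂(law ν), ∀ T, ¬ (d 0 = a ∧ d ∈ Fro a M T (M d 0 T • u)) := by
    rw [ae_all_iff]
    intro T
    rw [ae_iff]
    simp only [not_not]
    exact h1 T
  apply ha
  rw [← law_one ν 0 a]
  have h3 : ∀ᵐ d ∂(law ν), ¬ d 0 = a := by
    filter_upwards [h, h2] with d hd hd2 h0
    obtain ⟨C, hC⟩ := hd 0 h0
    have hle := hK.toKind.le d 0
    have hmono : Monotone (fun t => t - M d 0 t) := by
      refine monotone_nat_of_le_succ (fun t => ?_)
      rcases hK.succ d 0 t with h4 | h4 <;> omega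
    obtain ⟨T, c, hT⟩ := eventually_const hmono (m := C) (fun t => by
      have h4 := hC t
      have h5 : t ≤ M d 0 t + C := by exact_mod_cast h4
      omega)
    apply hd2 T
    refine ⟨h0, ?_, fun s => ?_⟩
    · have h5 := hK.pos d 0 h0 T
      rwa [zero_add] at h5
    · have h4 := hT T le_rfl
      have h5 := hT (T + s) (by omega)
      have h6 := hK.add d 0 T s
      have h7 := hle T
      have h8 := hle (T + s)
      rw [zero_add] at h6
      omega
  have h4 := ae_iff.mp h3
  simpa only [not_not] using h4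

/-- far away in a fixed direction there are cars of kind `a` that are never blocked again; they block the cars of kind
`b` -/
lemma frozen_half (hK : Track a u M) (hK' : Track b u' M') (hm : Meet a b M M' w) (hw : w ≠ 0) (T : ℕ)
    (hA : law ν (Fro a M T 0) ≠ 0) {ε : ℝ} (hε : 0 < ε) :
    ∃ R, ∀ r, (law ν).real {d | state d (T + r) 0 = b ∧ M' (state d (T + r)) 0 R = R} ≤ ε := by
  set A : ℤ × ℤ → Set Conf := fun x => Fro a M T x with hAdef
  have hAm : ∀ x, MeasurableSet (A x) := fun x => meas_Fro hK.toKind T x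
  have hAs : ∀ v x, shift v ⁻¹' (A x) = A (x + v) := fun v x => shift_Fro hK.toKind T v x
  set J : Set Conf := ⋃ k : ℤ, A (k • w) with hJ
  have hJm : MeasurableSet J := MeasurableSet.iUnion (fun k => hAm _)
  have hJinv : shift w ⁻¹' J = J := by
    rw [hJ, Set.preimage_iUnion]
    simp_rw [hAs]
    ext d
    simp only [Set.mem_iUnion]
    constructor
    · rintro ⟨k, hk⟩
      refine ⟨k + 1, ?_⟩
      rwa [add_smul, one_smul]
    · rintro ⟨k, hk⟩
      refine ⟨k - 1, ?_⟩
      rwa [sub_smul, one_smul, sub_add_cancel]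
  have hJ0 : law ν J ≠ 0 := by
    intro h0
    apply hA
    refine measure_mono_null ?_ h0
    intro d hd
    refine Set.mem_iUnion.mpr ⟨0, ?_⟩
    rw [zero_smul]
    exact hd
  have hJ1 : law ν J = 1 := (zero_one ν hw hJm hJinv).resolve_left hJ0
  set H : ℤ → Set Conf := fun n => ⋃ k : ℕ, A ((-((k : ℤ) + n)) • w) with hH
  have hHm : ∀ n, MeasurableSet (H n) := fun n => MeasurableSet.iUnion (fun k => hAm _)
  have hHs : ∀ n m : ℤ, shift (m • w) ⁻¹' (H n) = H (n - m) := by
    intro n m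
    simp only [hH, Set.preimage_iUnion, hAs]
    congr 1
    funext k
    rw [← add_smul]
    congr 2
    ring
  have hHe : ∀ n : ℤ, law ν (H n) = law ν (H 0) := by
    intro n
    have := law_shift ν ((-n) • w) (hHm 0)
    rw [hHs, zero_sub, neg_neg] at this
    exact this
  have hmono : Monotone (fun m : ℕ => H (-(m : ℤ))) := by
    refine monotone_nat_of_le_succ (fun m => ?_)
    intro d hd
    simp only [hH, Set.mem_iUnion] at hd ⊢
    obtain ⟨k, hk⟩ := hd
    refine ⟨k + 1, ?_⟩
    have : -(((k + 1 : ℕ) : ℤ) + -((m + 1 : ℕ) : ℤ)) = -((k : ℤ) + -(m : ℤ)) := by push_cast; ring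
    rw [this]
    exact hk
  have hJH : J = ⋃ m : ℕ, H (-(m : ℤ)) := by
    ext d
    simp only [hJ, hH, Set.mem_iUnion]
    constructor
    · rintro ⟨k, hk⟩
      refine ⟨k.natAbs, (k.natAbs - k).toNat, ?_⟩
      have : -((((k.natAbs - k).toNat : ℕ) : ℤ) + -((k.natAbs : ℕ) : ℤ)) = k := by omega
      rw [this]
      exact hk
    · rintro ⟨m, k, hk⟩
      exact ⟨_, hk⟩
  have hH1 : law ν (H 1) = 1 := by
    have h2 := hmono.measure_iUnion (μ := law ν)
    rw [← hJH, hJ1] at h2
    simp only [hHe, ciSup_const] at h2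
    rw [hHe]
    exact h2.symm
  set G : ℕ → Set Conf := fun R => ⋃ i ∈ Finset.range R, A ((-((i : ℤ) + 1)) • w) with hG
  have hGm : ∀ R, MeasurableSet (G R) := fun R => Finset.measurableSet_biUnion _ (fun i _ => hAm _)
  have hGmono : Monotone G := by
    intro R R' hR d hd
    simp only [hG, Set.mem_iUnion, Finset.mem_range, exists_prop] at hd ⊢
    obtain ⟨i, hi, hd⟩ := hd
    exact ⟨i, by omega, hd⟩
  have hGU : ⋃ R, G R = H 1 := by
    ext d
    simp only [hG, hH, Set.mem_iUnion, Finset.mem_range, exists_prop]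
    constructor
    · rintro ⟨R, i, _, hd⟩
      exact ⟨i, hd⟩
    · rintro ⟨i, hd⟩
      exact ⟨i + 1, i, by omega, hd⟩
  have hlim := tendsto_measure_iUnion_atTop (μ := law ν) hGmono
  rw [hGU, hH1] at hlim
  have hlim2 : Tendsto (fun R => (law ν).real (G R)) atTop (𝓝 (1 : ℝ)) := by
    have := (ENNReal.tendsto_toReal ENNReal.one_ne_top).comp hlim
    rwa [ENNReal.toReal_one] at this
  obtain ⟨R, hR⟩ := (hlim2.eventually (lt_mem_nhds (show (1 : ℝ) - ε < 1 by linarith))).exists
  refine ⟨R, fun r => ?_⟩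
  have hsub : {d | state d (T + r) 0 = b ∧ M' (state d (T + r)) 0 R = R} ⊆ shift (-(r • u)) ⁻¹' (G R)ᶜ := by
    rintro d ⟨hb, hR'⟩ hcon
    simp only [hG, Set.mem_iUnion, Finset.mem_range, exists_prop] at hcon
    obtain ⟨i, hi, hd⟩ := hcon
    have hd' : d ∈ A ((-((i : ℤ) + 1)) • w + -(r • u)) := by
      rw [← hAs]
      exact hd
    set y : ℤ × ℤ := (-((i : ℤ) + 1)) • w + -(r • u) with hy
    obtain ⟨h1, h2⟩ := hd'
    have h3 := hK.pos (state d T) y h1 r
    rw [h2 r, ← state_add] at h3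
    have h4 : y + r • u = (-((i : ℤ) + 1)) • w := by rw [hy]; abel
    rw [h4] at h3
    have h5 := hK.add (state d T) y r (i + 1)
    rw [h2, h2 r, ← state_add, h4] at h5
    have h6 : (-((i : ℤ) + 1)) • w + (i + 1) • w = 0 := by
      have : (i + 1) • w = ((i : ℤ) + 1) • w := by
        rw [← natCast_zsmul]
        push_cast
        rfl
      rw [this, neg_smul, neg_add_cancel]
    refine hm (state d (T + r)) ((-((i : ℤ) + 1)) • w) (i + 1) (by omega) h3 (by rw [h6]; exact hb) (by omega) ?_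
    rw [h6]
    exact hK'.toKind.early hR' (by omega)
  calc (law ν).real {d | state d (T + r) 0 = b ∧ M' (state d (T + r)) 0 R = R}
      ≤ (law ν).real (shift (-(r • u)) ⁻¹' (G R)ᶜ) := measureReal_mono hsub
    _ = (law ν).real (G R)ᶜ := by rw [Measure.real, law_shift ν _ (hGm R).compl, Measure.real]
    _ = 1 - (law ν).real (G R) := probReal_compl_eq_one_sub (hGm R)
    _ ≤ ε := by linarith

lemma frozen_blk (hK : Track a u M) (hK' : Track b u' M') (hm : Meet a b M M' w) (hw : w ≠ 0) (T : ℕ)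
    (hA : law ν (Fro a M T 0) ≠ 0) (hb : 0 < (ν {b}).toReal) :
    ∃ R, ∀ r, (ν {b}).toReal / 2 ≤ (law ν).real (Blk b M' (T + r) R) := by
  obtain ⟨R, hR⟩ := frozen_half ν hK hK' hm hw T hA (half_pos hb)
  refine ⟨R, fun r => ?_⟩
  have h1 := hR r
  have h2 := blk_ge ν hK' (T + r) R
  have h2' := ENNReal.toReal_mono (measure_ne_top _ _) h2
  have h3 := ENNReal.toReal_mono (measure_ne_top _ _) (meas_density ν hK' (T + r))
  have h4 : (law ν).real {d | state d (T + r) 0 = b} ≤
      (law ν).real {d | state d (T + r) 0 = b ∧ M' (state d (T + r)) 0 R = R} +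
        (law ν).real {d | state d (T + r) 0 = b ∧ M' (state d (T + r)) 0 R ≠ R} := by
    refine (measureReal_mono ?_).trans (measureReal_union_le _ _)
    intro d hd
    by_cases h5 : M' (state d (T + r)) 0 R = R
    · exact Or.inl ⟨hd, h5⟩
    · exact Or.inr ⟨hd, h5⟩
  simp only [Measure.real] at h1 h4 ⊢
  linarith

/-- The two alternatives. -/
lemma dichotomy (hK : Track a u M) (hK' : Track b u' M') (hm : Meet a b M M' w) (hw : w ≠ 0)
    (ha : ν {a} ≠ 0) (hb : 0 < (ν {b}).toReal) :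
    (∀ᵐ d ∂(law ν), ∀ x, d x = a → ¬ ∃ C : ℕ, ∀ t : ℕ, (t : ℝ) ≤ (M d x t : ℝ) + C) ∨
      ∃ n : ℕ, ∀ᵐ d ∂(law ν), ∀ x, d x = b →
        ¬ ∃ C : ℕ, ∀ t : ℕ, (1 - 1 / ((n : ℝ) + 1)) * t ≤ (M' d x t : ℝ) + C := by
  rcases zo_lo ν hK.toKind (fun t => (t : ℝ)) with h | h
  · right
    obtain ⟨T, hT⟩ := exists_frozen ν hK ha h
    obtain ⟨R, hR⟩ := frozen_blk ν hK hK' hm hw T hT hb
    refine ⟨8 * (R + 1), ?_⟩
    rcases zo_lo ν hK'.toKind (fun t => (1 - 1 / (((8 * (R + 1) : ℕ) : ℝ) + 1)) * t) with h1 | h1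
    · exfalso
      set q : ℝ := 1 / (((8 * (R + 1) : ℕ) : ℝ) + 1) with hq
      have hq0 : 0 < q := by rw [hq]; positivity
      have hq1 : q * (8 * (R + 1)) ≤ 1 := by
        rw [hq, one_div, inv_mul_le_iff₀ (by positivity)]
        push_cast
        linarith
      have hg : ∀ t : ℕ, (1 - q) * t ≤ t := by
        intro t
        have h3 : 0 ≤ q * t := by positivity
        linarith
      have hδ : 0 < (ν {b}).toReal / 8 := by positivity
      obtain ⟨C, hC⟩ := budget ν hK'.toKind (fun t => (1 - q) * t) hg h1 hδ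
      obtain ⟨J, hJ⟩ := exists_nat_gt (((T : ℝ) + C) * 4)
      have h2 := hC (fun j => T + R * j) (fun _ => R) (fun j => by ring) J
      have h3 : ∑ j ∈ Finset.range J, ((ν {b}).toReal / 2) ≤
          ∑ j ∈ Finset.range J, (law ν).real (Blk b M' (T + R * j) R) :=
        Finset.sum_le_sum (fun j _ => hR (R * j))
      rw [Finset.sum_const, Finset.card_range, nsmul_eq_mul] at h3
      have h4 := h3.trans h2
      push_cast at h4
      have h5 : q * (T + R * J) ≤ T + J / 8 := by
        have h6 : q ≤ 1 := by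
          have : (0 : ℝ) ≤ R := by positivity
          nlinarith
        have h7 : q * T ≤ T := by
          have : (0 : ℝ) ≤ T := by positivity
          nlinarith
        have h8 : q * R ≤ 1 / 8 := by linarith
        have h9 : q * R * J ≤ 1 / 8 * J := mul_le_mul_of_nonneg_right h8 (by positivity)
        linarith
      have h6 : ((T : ℝ) + R * J - (1 - q) * (T + R * J) + C) ≤ T + J / 8 + C := by linarith
      have h7 : ((T : ℝ) + R * J - (1 - q) * (T + R * J) + C) * (ν {b}).toReal ≤ (T + J / 8 + C) * (ν {b}).toReal :=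
        mul_le_mul_of_nonneg_right h6 hb.le
      nlinarith
    · exact h1
  · left
    exact h


end Frozen

section TransferDelay

variable {p : ℝ} {Ω : Type} [MeasurableSpace Ω] {P : Measure Ω} [IsProbabilityMeasure P]
  {c : ℤ × ℤ → Ω → Fin 3}

/-! ### Transfer to the probability space of the question -/

lemma Setting.nu_pos (h : Setting p Ω P c) : (P.map (c 0)) {1} ≠ 0 ∧ (P.map (c 0)) {2} ≠ 0 := by
  have hp := h.pos
  constructor
  · intro h0
    have h1 := h.nu_a.1
    rw [h0, ENNReal.toReal_zero] at h1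
    linarith
  · intro h0
    have h1 := h.nu_a.2
    rw [h0, ENNReal.toReal_zero] at h1
    linarith

/-- the admissible constants in the logarithmic delay -/
def Rate (p κ : ℝ) : Prop :=
  κ ≤ p / 5 ∨ ∃ ε : ℝ, 0 < ε ∧ ε < 1 ∧ κ ≤ (1 - ε) / (2 * Real.log (4 / (ε ^ 2 * p) + 3))

/-- almost surely all cars of one kind have logarithmic delays -/
lemma Setting.log_delay (h : Setting p Ω P c) : ∃ a : Fin 3, a ≠ 0 ∧ ∀ κ : ℝ, Rate p κ → ∀ᵐ ω ∂P, ∀ x, c x ω = a →
    ∀ C : ℝ, ∃ t : ℕ, (moves (fun x => c x ω) x t : ℝ) + κ * Real.log t + C < t := by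
  have := h.isProb 0
  have hp := h.pos
  have key : ∀ (κ : ℝ) (a : Fin 3) (u : ℤ × ℤ) (M : Conf → ℤ × ℤ → ℕ → ℕ) (_ : Kind a u M),
      (∀ (d : Conf) (x : ℤ × ℤ) (t : ℕ), d x = a → moves d x t = M d x t) →
      (¬ ∀ᵐ ω ∂P, ∀ x, c x ω = a → ∀ C : ℝ, ∃ t : ℕ, (moves (fun x => c x ω) x t : ℝ) + κ * Real.log t + C < t) →
      ∀ κ', κ ≤ κ' → ∀ᵐ d ∂(law (P.map (c 0))), ∀ x, d x = a → ∃ C : ℕ, ∀ t : ℕ,
        (t : ℝ) - κ' * Real.log t ≤ (M d x t : ℝ) + C := by
    intro κ a u M hK hM h1 κ' hκ'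
    rcases zo_lo (P.map (c 0)) hK (fun t : ℕ => (t : ℝ) - κ * Real.log t) with h2 | h2
    · filter_upwards [h2] with d hd x hx
      obtain ⟨C, hC⟩ := hd x hx
      refine ⟨C, fun t => le_trans ?_ (hC t)⟩
      have h3 : κ * Real.log t ≤ κ' * Real.log t := mul_le_mul_of_nonneg_right hκ' (Real.log_natCast_nonneg t)
      linarith
    · exfalso
      apply h1
      filter_upwards [h.ae h2] with ω hω x hx C
      by_contra hcon
      push Not at hcon
      obtain ⟨n, hn⟩ := exists_nat_ge C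
      refine hω x hx ⟨n, fun t => ?_⟩
      have h2 := hcon t
      rw [hM (fun x => c x ω) x t hx] at h2
      linarith
  by_contra hcon
  have hcon' : ∀ a : Fin 3, a ≠ 0 → ∃ κ, Rate p κ ∧ ¬ ∀ᵐ ω ∂P, ∀ x, c x ω = a → ∀ C : ℝ, ∃ t : ℕ,
      (moves (fun x => c x ω) x t : ℝ) + κ * Real.log t + C < t := by
    intro a ha
    by_contra h1
    apply hcon
    refine ⟨a, ha, fun κ hκ => ?_⟩
    by_contra h2
    exact h1 ⟨κ, hκ, h2⟩
  obtain ⟨κ₁, hκ₁, hE⟩ := hcon' 1 (by decide)
  obtain ⟨κ₂, hκ₂, hN⟩ := hcon' 2 (by decide)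
  have h0 : Rate p 0 := Or.inl (by positivity)
  have hmax : ∀ κ κ' : ℝ, Rate p κ → Rate p κ' → Rate p (max κ κ') := by
    intro κ κ' hκ hκ'
    rcases le_total κ κ' with h1 | h1
    · rwa [max_eq_right h1]
    · rwa [max_eq_left h1]
  set κ : ℝ := max (max κ₁ κ₂) 0 with hκdef
  have hκ : Rate p κ := hmax _ _ (hmax _ _ hκ₁ hκ₂) h0
  have hκ0 : 0 ≤ κ := le_max_right _ _
  have hE' := key κ₁ 1 (1, 0) movesE kindE (fun d x t hx => moves_one hx t) hE κ
    ((le_max_left _ _).trans (le_max_left _ _))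
  have hN' := key κ₂ 2 (0, 1) movesN kindN (fun d x t hx => moves_two hx t) hN κ
    ((le_max_right _ _).trans (le_max_left _ _))
  rcases hκ with hκ | ⟨ε, hε0, hε1, hκ⟩
  · refine not_both (P.map (c 0)) (both_zero _) hκ0 hp h.nu_a.1 h.nu_a.2 ?_ hE' hN'
    rw [h.nu_a.1, h.nu_a.2]
    have h1 := log_three_lt
    have h2 : Real.log (4 * ((0 : ℕ) : ℝ) + 3) = Real.log 3 := by norm_num
    rw [h2]
    have h3 : κ * p * Real.log 3 ≤ p / 5 * p * 1.1 := by
      have h4 : 0 ≤ Real.log 3 := Real.log_nonneg (by norm_num)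
      gcongr
    nlinarith [mul_pos hp hp]
  · obtain ⟨r, hr, v, hv, hB⟩ := both_eps (P.map (c 0)) hp h.nu_a.1 h.nu_a.2 hε0
    refine not_both (P.map (c 0)) hB hκ0 hp h.nu_a.1 h.nu_a.2 (lt_of_lt_of_le ?_ hv) hE' hN'
    have hr0 : (0 : ℝ) ≤ r := by positivity
    have h1 : Real.log (4 * r + 3) < Real.log (4 / (ε ^ 2 * p) + 3) := Real.log_lt_log (by positivity) hr
    have h2 : 0 < Real.log (4 * (r : ℝ) + 3) := Real.log_pos (by linarith)
    have h3 : 0 < Real.log (4 / (ε ^ 2 * p) + 3) := h2.trans h1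
    rw [le_div_iff₀ (by positivity)] at hκ
    have h4 : κ * p * Real.log (4 * r + 3) ≤ κ * p * Real.log (4 / (ε ^ 2 * p) + 3) :=
      mul_le_mul_of_nonneg_left h1.le (by positivity)
    rcases hκ0.eq_or_lt with h5 | h5
    · rw [← h5, zero_mul, zero_mul]
      have : 0 < 1 - ε := by linarith
      positivity
    · have h6 : κ * p * Real.log (4 * r + 3) < κ * p * Real.log (4 / (ε ^ 2 * p) + 3) :=
        mul_lt_mul_of_pos_left h1 (by positivity)
      nlinarith

/-- either the cars of one kind are blocked infinitely often or the cars of the other kind have no free flow -/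
lemma Setting.dichotomy (h : Setting p Ω P c) (a b : Fin 3) (ha : a ≠ 0) (hb : b ≠ 0) (hab : a ≠ b) :
    (∀ᵐ ω ∂P, ∀ x, c x ω = a → ∀ C : ℝ, ∃ t : ℕ, (moves (fun x => c x ω) x t : ℝ) + C < t) ∨
      (∀ᵐ ω ∂P, ∀ x, c x ω = b → ¬ FreeFlow (fun x => c x ω) x) := by
  have := h.isProb 0
  have hp := h.pos
  have key : ∀ (a b : Fin 3) (M M' : Conf → ℤ × ℤ → ℕ → ℕ),
      (∀ (d : Conf) (x : ℤ × ℤ) (t : ℕ), d x = a → moves d x t = M d x t) →
      (∀ (d : Conf) (x : ℤ × ℤ) (t : ℕ), d x = b → moves d x t = M' d x t) →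
      ((∀ᵐ d ∂(law (P.map (c 0))), ∀ x, d x = a → ¬ ∃ C : ℕ, ∀ t : ℕ, (t : ℝ) ≤ (M d x t : ℝ) + C) ∨
      ∃ n : ℕ, ∀ᵐ d ∂(law (P.map (c 0))), ∀ x, d x = b →
        ¬ ∃ C : ℕ, ∀ t : ℕ, (1 - 1 / ((n : ℝ) + 1)) * t ≤ (M' d x t : ℝ) + C) →
      (∀ᵐ ω ∂P, ∀ x, c x ω = a → ∀ C : ℝ, ∃ t : ℕ, (moves (fun x => c x ω) x t : ℝ) + C < t) ∨
      (∀ᵐ ω ∂P, ∀ x, c x ω = b → ¬ FreeFlow (fun x => c x ω) x) := by
    intro a b M M' hM hM' h1
    rcases h1 with h1 | ⟨n, h1⟩
    · left
      filter_upwards [h.ae h1] with ω hω x hx C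
      by_contra hcon
      push Not at hcon
      obtain ⟨n, hn⟩ := exists_nat_ge C
      refine hω x hx ⟨n, fun t => ?_⟩
      have h2 := hcon t
      rw [hM (fun x => c x ω) x t hx] at h2
      linarith
    · right
      filter_upwards [h.ae h1] with ω hω x hx hf
      obtain ⟨C, hC⟩ := freeFlow_iff.mp hf n
      refine hω x hx ⟨C, fun t => ?_⟩
      have h2 := hC t
      rw [hM' (fun x => c x ω) x t hx] at h2
      exact h2
  have h1 : 0 < ((P.map (c 0)) {1}).toReal := by rw [h.nu_a.1]; positivity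
  have h2 : 0 < ((P.map (c 0)) {2}).toReal := by rw [h.nu_a.2]; positivity
  rcases ne_cases a with h3 | h3 | h3
  · exact absurd h3 ha
  · rcases ne_cases b with h4 | h4 | h4
    · exact absurd h4 hb
    · exact absurd (h3.trans h4.symm) hab
    · subst h3 h4
      exact key 1 2 movesE movesN (fun d x t hx => moves_one hx t) (fun d x t hx => moves_two hx t)
        (Pool.Agent.Lib.MP_64a6bd_pr.dichotomy (P.map (c 0)) trackE trackN meetEN (by decide) h.nu_pos.1 h2)
  · rcases ne_cases b with h4 | h4 | h4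
    · exact absurd h4 hb
    · subst h3 h4
      exact key 2 1 movesN movesE (fun d x t hx => moves_two hx t) (fun d x t hx => moves_one hx t)
        (Pool.Agent.Lib.MP_64a6bd_pr.dichotomy (P.map (c 0)) trackN trackE meetNE (by decide) h.nu_pos.2 h1)
    · exact absurd (h3.trans h4.symm) hab

lemma moves_shift (v : ℤ × ℤ) (d : Conf) (x : ℤ × ℤ) (t : ℕ) : moves (shift v d) x t = moves d (x + v) t := by
  unfold moves
  rw [movesE_shift, movesN_shift]
  rfl

lemma measurable_moves (x : ℤ × ℤ) (t : ℕ) : Measurable (fun d => moves d x t) := by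
  unfold moves
  exact Measurable.ite (meas_eq x 1) (measurable_movesE x t)
    (Measurable.ite (meas_eq x 2) (measurable_movesN x t) measurable_const)

/-- the mean delay of a car -/
lemma Setting.mean_eq (h : Setting p Ω P c) (x : ℤ × ℤ) (t : ℕ) :
    ∫ ω in {ω | c x ω ≠ 0}, ((t : ℝ) - moves (fun y => c y ω) x t) ∂P =
      ∫ d in {d : Conf | d 0 = 1}, delay movesE t d ∂(law (P.map (c 0))) +
      ∫ d in {d : Conf | d 0 = 2}, delay movesN t d ∂(law (P.map (c 0))) := by
  have := h.isProb 0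
  set F : ℤ × ℤ → Conf → ℝ := fun x d => Set.indicator {d : Conf | d x ≠ 0} (fun d => (t : ℝ) - moves d x t) d with hF
  have hFm : ∀ x, Measurable (F x) := by
    intro x
    exact (measurable_const.sub (measurable_from_nat.comp (measurable_moves x t))).indicator (meas_eq x 0).compl
  have h3 : ∫ ω in {ω | c x ω ≠ 0}, ((t : ℝ) - moves (fun y => c y ω) x t) ∂P = ∫ ω, F x (fun y => c y ω) ∂P := by
    have hset : MeasurableSet {ω | c x ω ≠ 0} := (measurableSet_eq_fun (h.meas x) measurable_const).compl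
    rw [← integral_indicator hset]
    rfl
  have h4 : ∫ ω, F x (fun y => c y ω) ∂P = ∫ d, F x d ∂(law (P.map (c 0))) := by
    rw [← h.map_eq, integral_map h.measD.aemeasurable (hFm x).aestronglyMeasurable]
  have h5 : ∫ d, F x d ∂(law (P.map (c 0))) = ∫ d, F 0 d ∂(law (P.map (c 0))) := by
    conv_rhs => rw [← map_shift (P.map (c 0)) x]
    rw [integral_map (measurable_shift x).aemeasurable (hFm 0).aestronglyMeasurable]
    congr 1
    funext d
    have h6 : d ∈ {d : Conf | d x ≠ 0} ↔ shift x d ∈ {d : Conf | d 0 ≠ 0} := by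
      simp [shift]
    simp only [hF]
    by_cases h7 : d ∈ {d : Conf | d x ≠ 0}
    · rw [Set.indicator_of_mem h7, Set.indicator_of_mem (h6.mp h7), moves_shift, zero_add]
    · rw [Set.indicator_of_notMem h7, Set.indicator_of_notMem (fun h8 => h7 (h6.mpr h8))]
  rw [h3, h4, h5, ← integral_indicator (meas_eq 0 1), ← integral_indicator (meas_eq 0 2), ← integral_add]
  · congr 1
    funext d
    simp only [hF]
    rcases ne_cases (d 0) with h7 | h7 | h7
    · simp [Set.indicator, h7]
    · simp [Set.indicator, h7, delay, moves_one h7]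
    · simp [Set.indicator, h7, delay, moves_two h7]
  · exact (integrable_indicator_iff (meas_eq 0 1)).mpr (delay_int _ kindE t _)
  · exact (integrable_indicator_iff (meas_eq 0 2)).mpr (delay_int _ kindN t _)

/-- the mean delay of a car is at least logarithmic -/
lemma Setting.mean_log (h : Setting p Ω P c) (x : ℤ × ℤ) (t : ℕ) :
    p ^ 2 / 5 * Real.log t ≤ ∫ ω in {ω | c x ω ≠ 0}, ((t : ℝ) - moves (fun y => c y ω) x t) ∂P ∧
    ∀ ε : ℝ, 0 < ε → ε < 1 → (1 - ε) * (p / 2) * (Real.log t / Real.log (4 / (ε ^ 2 * p) + 3) - 1) ≤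
      ∫ ω in {ω | c x ω ≠ 0}, ((t : ℝ) - moves (fun y => c y ω) x t) ∂P := by
  have := h.isProb 0
  have hp := h.pos
  rw [h.mean_eq]
  constructor
  · obtain ⟨J, hJ1, hJ2⟩ := win_exists 0 t
    have h1 := mean_delay (P.map (c 0)) (both_zero _) t J hJ1
    rw [h.nu_a.1, h.nu_a.2] at h1
    have h2 := log_win t J hJ2
    refine le_trans ?_ h1
    have h7 : 4 / 5 * Real.log t * (p ^ 2 / 4) ≤ J * (p ^ 2 / 4) := mul_le_mul_of_nonneg_right h2 (by positivity)
    nlinarith
  · intro ε hε0 hε1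
    obtain ⟨r, hr, v, hv, hB⟩ := both_eps (P.map (c 0)) hp h.nu_a.1 h.nu_a.2 hε0
    obtain ⟨J, hJ1, hJ2⟩ := win_exists r t
    have h1 := mean_delay (P.map (c 0)) hB t J hJ1
    have h2 := log_win_lt r t J hJ2
    refine le_trans ?_ h1
    have hr0 : (0 : ℝ) ≤ r := by positivity
    have h3 : Real.log (4 * r + 3) < Real.log (4 / (ε ^ 2 * p) + 3) := Real.log_lt_log (by positivity) hr
    have h4 : 0 < Real.log (4 * (r : ℝ) + 3) := Real.log_pos (by linarith)
    have h5 : 0 < Real.log (4 / (ε ^ 2 * p) + 3) := h4.trans h3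
    have h6 : Real.log t / Real.log (4 / (ε ^ 2 * p) + 3) - 1 ≤ J := by
      rw [sub_le_iff_le_add, div_le_iff₀ h5]
      exact h2.trans (mul_le_mul_of_nonneg_left h3.le (by positivity))
    have h7 : 0 ≤ (1 - ε) * (p / 2) := by
      have : 0 < 1 - ε := by linarith
      positivity
    calc (1 - ε) * (p / 2) * (Real.log t / Real.log (4 / (ε ^ 2 * p) + 3) - 1) ≤ (1 - ε) * (p / 2) * J :=
          mul_le_mul_of_nonneg_left h6 h7
      _ ≤ J * v := by
          rw [mul_comm]
          exact mul_le_mul_of_nonneg_left hv (by positivity)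

end TransferDelay

end Pool.Agent.Lib.MP_64a6bd_pr
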